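import Pool.Agent.TH456.TM.Meas2

/-!
# Transcendence measures of logarithms of rational numbers and of `π`
-/

set_option autoImplicit false

namespace Pool.Agent.TH456.TM

open Polynomial Finset

/-- `x` has a transcendence measure of polynomial type in every degree -/
def MeasT (x : ℂ) : Prop :=
  ∀ D : ℕ, ∃ κ c : ℝ, 0 ≤ κ ∧ 0 < c ∧ ∀ P : ℤ[X], P ≠ 0 → P.natDegree ≤ D →
    ∀ H : ℝ, 1 ≤ H → (∀ j, |(P.coeff j : ℝ)| ≤ H) → c ≤ H ^ κ * ‖aeval x P‖

lemma int_norm (z : ℤ) (hz : z ≠ 0) : 1 ≤ ‖Int.castRingHom ℂ z‖ := by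
  rw [eq_intCast, Complex.norm_intCast]
  exact_mod_cast Int.one_le_abs hz

/-- logarithms of rational numbers -/
theorem measT_log (θ : ℂ) (hθ : θ ≠ 0) (a b : ℤ) (hb : b ≠ 0) (hab : (b : ℂ) * Complex.exp θ = a) :
    MeasT θ := by
  intro D
  obtain ⟨κ, c, hκ, hc, h⟩ := measure (Int.castRingHom ℂ) int_norm θ hθ a b hb (by simpa using hab) D
  refine ⟨κ, c, hκ, hc, fun P hP hPD H hH hPH => ?_⟩
  have h1 := h P hP hPD H hH (fun j => by
    rw [eq_intCast, Complex.norm_intCast]; exact hPH j)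
  rwa [eval_map] at h1

lemma gauss_norm (z : GaussianInt) (hz : z ≠ 0) : 1 ≤ ‖GaussianInt.toComplex z‖ := by
  have h1 : (1 : ℝ) ≤ (Zsqrtd.norm z : ℤ) := by
    have h2 : 0 < Zsqrtd.norm z := GaussianInt.norm_pos.2 hz
    exact_mod_cast h2
  have h3 : ((Zsqrtd.norm z : ℤ) : ℝ) = ‖GaussianInt.toComplex z‖ ^ 2 := by
    have := GaussianInt.intCast_real_norm z
    rw [this, Complex.normSq_eq_norm_sq]
  rw [h3] at h1
  nlinarith [norm_nonneg (GaussianInt.toComplex z)]

/-- logarithms of Gaussian rational numbers, multiplied by a Gaussian unit -/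
theorem measT_gauss (θ : ℂ) (hθ : θ ≠ 0) (a b u : GaussianInt) (hb : b ≠ 0)
    (hu : ‖GaussianInt.toComplex u‖ = 1)
    (hab : GaussianInt.toComplex b * Complex.exp θ = GaussianInt.toComplex a) :
    MeasT (GaussianInt.toComplex u * θ) := by
  intro D
  obtain ⟨κ, c, hκ, hc, h⟩ := measure GaussianInt.toComplex gauss_norm θ hθ a b hb hab D
  refine ⟨κ, c, hκ, hc, fun P hP hPD H hH hPH => ?_⟩
  have hu0 : u ≠ 0 := by
    rintro rfl
    simp at hu
  obtain ⟨Q, hQ⟩ : ∃ Q : GaussianInt[X], Q = (P.map (Int.castRingHom GaussianInt)).comp (C u * X) :=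
    ⟨_, rfl⟩
  have hcoef : ∀ j, Q.coeff j = (P.coeff j : GaussianInt) * u ^ j := by
    intro j
    rw [hQ, comp_C_mul_X_coeff, coeff_map, eq_intCast]
  have hQ0 : Q ≠ 0 := by
    intro h0
    apply hP
    ext j
    have h1 := hcoef j
    rw [h0, coeff_zero] at h1
    have h2 : (P.coeff j : GaussianInt) = 0 := by
      rcases mul_eq_zero.1 h1.symm with h3 | h3
      · exact h3
      · exact absurd h3 (pow_ne_zero _ hu0)
    rw [coeff_zero]
    exact_mod_cast h2
  have h1 := h Q hQ0 (by
    rw [hQ]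
    refine natDegree_comp_le.trans ?_
    have h2 : (C u * X : GaussianInt[X]).natDegree ≤ 1 :=
      natDegree_C_mul_le _ _ |>.trans natDegree_X_le
    calc (P.map (Int.castRingHom GaussianInt)).natDegree * (C u * X : GaussianInt[X]).natDegree
        ≤ D * 1 := Nat.mul_le_mul (natDegree_map_le.trans hPD) h2
      _ = D := mul_one D) H hH (fun j => by
    rw [hcoef, map_mul, map_pow, norm_mul, norm_pow, hu, one_pow, mul_one, map_intCast,
      Complex.norm_intCast]
    exact hPH j)
  have h2 : (Q.map GaussianInt.toComplex).eval θ = aeval (GaussianInt.toComplex u * θ) P := by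
    rw [hQ, Polynomial.map_comp, eval_comp, Polynomial.map_mul, map_C, map_X, eval_mul, eval_C, eval_X,
      Polynomial.map_map, eval_map, aeval_def]
    congr 1
    exact RingHom.ext_int _ _
  rwa [h2] at h1

/-- the number `π` -/
theorem measT_pi : MeasT (Real.pi : ℂ) := by
  have h := measT_gauss (Real.pi * Complex.I)
    (mul_ne_zero (by exact_mod_cast Real.pi_ne_zero) Complex.I_ne_zero) (-1) 1 ⟨0, -1⟩ one_ne_zero
    (by
      rw [GaussianInt.toComplex_def']
      simp)
    (by
      rw [map_one, one_mul, map_neg, map_one, Complex.exp_pi_mul_I])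
  have h2 : GaussianInt.toComplex ⟨0, -1⟩ * (Real.pi * Complex.I) = (Real.pi : ℂ) := by
    rw [GaussianInt.toComplex_def']
    push_cast
    have := Complex.I_mul_I
    linear_combination (-(Real.pi : ℂ)) * this
  rwa [h2] at h

/-- real logarithms of positive rational numbers -/
theorem measT_real_log (q : ℚ) (hq : 0 < q) (hq1 : q ≠ 1) : MeasT ((Real.log q : ℝ) : ℂ) := by
  have hqR : (0 : ℝ) < q := by exact_mod_cast hq
  refine measT_log _ ?_ q.num q.den (by exact_mod_cast q.den_ne_zero) ?_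
  · have : Real.log q ≠ 0 := by
      apply Real.log_ne_zero_of_pos_of_ne_one hqR
      exact_mod_cast hq1
    exact_mod_cast this
  · rw [← Complex.ofReal_exp, Real.exp_log hqR]
    have := Rat.den_mul_eq_num q
    push_cast
    exact_mod_cast this

end Pool.Agent.TH456.TM
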