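import Pool.Agent.TH456.TM.AlgDep
import Pool.Agent.W472.AC.EMeas2

/-!
# The number `e`
-/

set_option autoImplicit false

namespace Pool.Agent.TH456.TM

open Polynomial Finset

lemma abs_aeval (x : ℝ) (P : ℤ[X]) : |aeval x P| = ‖aeval (x : ℂ) P‖ := by
  have h : aeval (x : ℂ) P = ((aeval x P : ℝ) : ℂ) :=
    aeval_algebraMap_apply ℂ x P
  rw [h, Complex.norm_real, Real.norm_eq_abs]

/-- the number `e` -/
theorem measT_e : MeasT ((Real.exp 1 : ℝ) : ℂ) := by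
  intro D
  obtain ⟨c, hc, h⟩ := Pool.Agent.W472.AC.e_measP D 1 one_pos
  refine ⟨D + 1, c, by positivity, hc, fun P hP hPD H hH hPH => ?_⟩
  rw [← abs_aeval]
  exact h P hP hPD H hH hPH

lemma transcendental_of_measT {x : ℂ} (hx : MeasT x) : Transcendental ℤ x := by
  rintro ⟨P, hP, hP0⟩
  obtain ⟨κ, c, hκ, hc, h⟩ := hx P.natDegree
  have h4 := h P hP le_rfl (ht P) (ht_pos P hP) (le_ht P)
  rw [hP0, norm_zero, mul_zero] at h4
  linarith

/-- real rational powers -/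
theorem measT_rpow (x : ℝ) (hx0 : 0 < x) (hx : MeasT (x : ℂ)) (q : ℚ) (hq0 : q ≠ 0) :
    MeasT ((x ^ (q : ℝ) : ℝ) : ℂ) := by
  have h2 : ((x ^ (q : ℝ) : ℝ) : ℂ) ^ q.den = (x : ℂ) ^ q.num := by
    rw [← Complex.ofReal_pow, ← Complex.ofReal_zpow, ← Real.rpow_natCast, ← Real.rpow_mul hx0.le,
      ← Real.rpow_intCast]
    congr 2
    have := Rat.mul_den_eq_num q
    exact_mod_cast this
  have hnum : q.num ≠ 0 := Rat.num_ne_zero.2 hq0
  refine measT_of_isAlgebraic hx _ ?_ ?_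
  · refine IsAlgebraic.of_pow q.den_pos ?_
    rw [h2]
    have hxA : IsAlgebraic (Algebra.adjoin ℤ ({(x : ℂ)} : Set ℂ)) (x : ℂ) :=
      isAlgebraic_algebraMap
        (⟨(x : ℂ), Algebra.subset_adjoin rfl⟩ : Algebra.adjoin ℤ ({(x : ℂ)} : Set ℂ))
    obtain ⟨n, hn | hn⟩ := q.num.eq_nat_or_neg
    · rw [hn, zpow_natCast]
      exact hxA.pow n
    · rw [hn, zpow_neg, zpow_natCast]
      exact (hxA.pow n).inv
  · intro halg
    refine transcendental_of_measT (measT_zpow hx q.num hnum) ?_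
    rw [← h2]
    exact halg.pow _

end Pool.Agent.TH456.TM
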