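import Pool.Agent.TH456.TM.Close

/-!
# Invariance under algebraic dependence

If `x` has a transcendence measure of polynomial type in every degree then so has every
transcendental number which is algebraic over `ℤ[x]`.
-/

set_option autoImplicit false

namespace Pool.Agent.TH456.TM

open Polynomial Finset

/-- evaluation of polynomials in two variables -/
noncomputable def evR (x y : ℂ) : ℤ[X][X] →+* ℂ := eval₂RingHom (σx x) y

lemma evR_apply (x y : ℂ) (P : ℤ[X][X]) : evR x y P = vl x y P := by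
  unfold evR vl
  rw [eval_map]
  rfl

lemma vl_eq (x y : ℂ) (P : ℤ[X][X]) : vl x y P = aevalAeval x y P := by
  rw [← evR_apply]
  have h : evR x y = ((aevalAeval x y : ℤ[X][X] →ₐ[ℤ] ℂ) : ℤ[X][X] →+* ℂ) := by
    unfold evR
    ext z
    · simp [σx]
    · simp [σx]
    · simp [σx]
  rw [h]
  rfl

lemma vl_swap (x y : ℂ) (P : ℤ[X][X]) : vl y x (Bivariate.swap P) = vl x y P := by
  rw [vl_eq, vl_eq, Bivariate.aevalAeval_swap]

/-- an irreducible polynomial divides all polynomials with the same root -/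
lemma dvd_of_root (m f : ℤ[X]) (hm : Irreducible m) (α : ℂ) (hα : aeval α m = 0)
    (hf : aeval α f = 0) : m ∣ f := by
  have hdeg : m.natDegree ≠ 0 := by
    intro h0
    rw [eq_C_of_natDegree_eq_zero h0, aeval_C, eq_intCast, Int.cast_eq_zero] at hα
    exact hm.ne_zero (by rw [eq_C_of_natDegree_eq_zero h0, hα, C_0])
  have hmp := hm.isPrimitive hdeg
  have hm' := (IsPrimitive.Int.irreducible_iff_irreducible_map_cast hmp).1 hm
  by_contra hnd
  have hcop : IsCoprime (m.map (Int.castRingHom ℚ)) (f.map (Int.castRingHom ℚ)) :=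
    (hm'.coprime_iff_not_dvd).2 fun hd =>
      hnd ((IsPrimitive.Int.dvd_iff_map_cast_dvd_map_cast m f hmp).2 hd)
  obtain ⟨a, b, hab⟩ := hcop
  have h1 := congrArg (aeval α) hab
  have h3 : ∀ R : ℤ[X], aeval α (R.map (Int.castRingHom ℚ)) = aeval α R := by
    intro R
    rw [aeval_def, aeval_def, eval₂_map]
    congr 1
  rw [map_add, map_mul, map_mul, h3, h3, hα, hf, mul_zero, mul_zero, add_zero, map_one] at h1
  exact zero_ne_one h1

/-- an irreducible factor with the given root -/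
lemma exists_irr_factor (α : ℂ) (P : ℤ[X]) (hP : P ≠ 0) (hα : aeval α P = 0) :
    ∃ m : ℤ[X], Irreducible m ∧ aeval α m = 0 := by
  obtain ⟨f, hf, u, hu⟩ := UniqueFactorizationMonoid.exists_prime_factors P hP
  have h1 : aeval α f.prod = 0 := by
    rw [← hu, map_mul] at hα
    refine (mul_eq_zero.1 hα).resolve_right fun h => ?_
    have h2 : IsUnit (aeval α (u : ℤ[X])) := u.isUnit.map (aeval α : ℤ[X] →ₐ[ℤ] ℂ)
    exact h2.ne_zero h
  rw [map_multiset_prod, Multiset.prod_eq_zero_iff, Multiset.mem_map] at h1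
  obtain ⟨m, hm, hm0⟩ := h1
  exact ⟨m, (hf m hm).irreducible, hm0⟩

lemma exists_irr_factor2 (x y : ℂ) (B : ℤ[X][X]) (hB : B ≠ 0) (h : vl x y B = 0) :
    ∃ F : ℤ[X][X], Irreducible F ∧ vl x y F = 0 := by
  obtain ⟨f, hf, u, hu⟩ := UniqueFactorizationMonoid.exists_prime_factors B hB
  have h1 : evR x y f.prod = 0 := by
    rw [← evR_apply, ← hu, map_mul] at h
    refine (mul_eq_zero.1 h).resolve_right fun h => ?_
    have h2 : IsUnit (evR x y (u : ℤ[X][X])) := u.isUnit.map (evR x y)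
    exact h2.ne_zero h
  rw [map_multiset_prod, Multiset.prod_eq_zero_iff, Multiset.mem_map] at h1
  obtain ⟨m, hm, hm0⟩ := h1
  exact ⟨m, (hf m hm).irreducible, by rw [← evR_apply]; exact hm0⟩

/-- an irreducible relation between `x` and the transcendental number `y` does not become trivial
when an algebraic number is substituted for `y` -/
lemma no_degenerate (x y : ℂ) (hy : Transcendental ℤ y) (F : ℤ[X][X]) (hF : Irreducible F)
    (hxy : vl x y F = 0) (P : ℤ[X]) (hP : P ≠ 0) (α : ℂ) (hα : aeval α P = 0) :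
    ∃ x₀ : ℂ, vl x₀ α F ≠ 0 := by
  by_contra hcon
  push Not at hcon
  obtain ⟨m, hm, hmα⟩ := exists_irr_factor α P hP hα
  have h1 : (Bivariate.swap F).map (σx α) = 0 := by
    refine Polynomial.funext fun x₀ => ?_
    rw [eval_zero]
    have h2 := hcon x₀
    rw [← vl_swap] at h2
    exact h2
  have h2 : C m ∣ Bivariate.swap F := by
    rw [C_dvd_iff_dvd_coeff]
    intro i
    refine dvd_of_root m _ hm α hmα ?_
    have h3 : ((Bivariate.swap F).map (σx α)).coeff i = 0 := by rw [h1, coeff_zero]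
    rw [coeff_map] at h3
    exact h3
  have h3 : Irreducible (Bivariate.swap F) := (MulEquiv.irreducible_iff Bivariate.swap).2 hF
  have h4 : Associated (C m) (Bivariate.swap F) := by
    rcases (dvd_iff_exists_eq_mul_left.1 h2) with ⟨c, hc⟩
    rcases h3.isUnit_or_isUnit hc with h5 | h5
    · exact ⟨h5.unit, by rw [IsUnit.unit_spec, hc, mul_comm]⟩
    · exact absurd (isUnit_C.1 h5) hm.not_isUnit
  obtain ⟨u, hu⟩ := h4
  have h5 : vl y x (Bivariate.swap F) = 0 := by rw [vl_swap]; exact hxy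
  rw [← hu, ← evR_apply, map_mul] at h5
  have h6 : IsUnit (evR y x (u : ℤ[X][X])) := u.isUnit.map (evR y x)
  have h7 : evR y x (C m) = 0 := (mul_eq_zero.1 h5).resolve_right h6.ne_zero
  have h8 : evR y x (C m) = aeval y m := by
    unfold evR σx
    simp
  rw [h8] at h7
  exact hy ⟨m, hm.ne_zero, h7⟩

/-- **Invariance under algebraic dependence.** -/
theorem measT_of_rel (x y : ℂ) (hx : MeasT x) (hy : Transcendental ℤ y) (B : ℤ[X][X]) (hB : B ≠ 0)
    (h : vl x y B = 0) : MeasT y := by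
  obtain ⟨F, hF, hxy⟩ := exists_irr_factor2 x y B hB h
  intro D
  obtain ⟨D', hD'⟩ : ∃ D', D' = D + F.natDegree + 1 := ⟨_, rfl⟩
  obtain ⟨E, hE⟩ : ∃ E, E = F.support.sup fun j => (F.coeff j).natDegree := ⟨_, rfl⟩
  obtain ⟨κ, hκ, hp⟩ := pairG x hx D' E (by omega)
  obtain ⟨C, hC, hp⟩ := hp ‖y‖
  have hF1 : (1 : ℝ) ≤ hgt F := by exact_mod_cast hgt_pos F hF.ne_zero
  refine ⟨κ, C * (hgt F : ℝ) ^ (-κ), hκ.le, by positivity, fun P hP hPD H hH hPH => ?_⟩
  have h1 := hp y le_rfl P F hP (by omega) (by omega) (fun j => by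
      by_cases hj : j ∈ F.support
      · rw [hE]; exact Finset.le_sup (f := fun j => (F.coeff j).natDegree) hj
      · rw [notMem_support_iff.1 hj, natDegree_zero]; omega)
    (fun α hα => no_degenerate x y hy F hF hxy P hP α hα) (hgt F * H) (by nlinarith)
    (fun k => (hPH k).trans (by nlinarith))
    (fun j k => by
      have h2 : |(((F.coeff j).coeff k : ℤ) : ℝ)| ≤ hgt F := by
        rw [← Int.cast_abs, Int.abs_eq_natAbs]
        exact_mod_cast le_hgt F j k
      exact h2.trans (by nlinarith))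
  rw [hxy, norm_zero, max_eq_left (norm_nonneg _),
    Real.mul_rpow (by positivity) (by positivity)] at h1
  have hH0 : 0 < H := by linarith
  have h9 : H ^ (-κ) * H ^ κ = 1 := by rw [← Real.rpow_add hH0]; simp
  calc C * (hgt F : ℝ) ^ (-κ) = (C * ((hgt F : ℝ) ^ (-κ) * H ^ (-κ))) * H ^ κ := by
        rw [mul_assoc, mul_assoc, h9, mul_one]
    _ ≤ ‖aeval y P‖ * H ^ κ := by gcongr
    _ = _ := mul_comm _ _

/-- a number algebraic over `ℤ[x]` satisfies a relation with coefficients in `ℤ[x]` -/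
lemma exists_rel (x y : ℂ) (h : IsAlgebraic (Algebra.adjoin ℤ ({x} : Set ℂ)) y) :
    ∃ B : ℤ[X][X], B ≠ 0 ∧ vl x y B = 0 := by
  obtain ⟨p, hp, hpy⟩ := h
  set A := Algebra.adjoin ℤ ({x} : Set ℂ) with hA
  set x' : A := ⟨x, Algebra.subset_adjoin rfl⟩ with hx'
  set φ : ℤ[X] →ₐ[ℤ] A := aeval x' with hφ
  have hφx : ∀ f : ℤ[X], ((φ f : A) : ℂ) = aeval x f := by
    intro f
    have h1 : ((φ f : A) : ℂ) = A.val (aeval x' f) := rfl
    rw [h1, ← aeval_algHom_apply]
    rfl
  have hsurj : Function.Surjective φ := by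
    rintro ⟨z, hz⟩
    rw [hA, Algebra.adjoin_singleton_eq_range_aeval] at hz
    obtain ⟨f, hf⟩ := hz
    exact ⟨f, Subtype.ext (by rw [hφx]; exact hf)⟩
  obtain ⟨B, hB⟩ := Polynomial.map_surjective (φ : ℤ[X] →+* A) hsurj p
  refine ⟨B, ?_, ?_⟩
  · rintro rfl
    rw [Polynomial.map_zero] at hB
    exact hp hB.symm
  · rw [← hB, aeval_def, eval₂_map] at hpy
    unfold vl
    rw [eval_map, ← hpy]
    congr 1
    ext z
    · simp [σx]
    · simp only [RingHom.comp_apply, σx]
      exact (hφx X).symm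

/-- every transcendental number algebraic over `ℤ[x]` has a transcendence measure -/
theorem measT_of_isAlgebraic {x : ℂ} (hx : MeasT x) (y : ℂ)
    (h : IsAlgebraic (Algebra.adjoin ℤ ({x} : Set ℂ)) y) (hy : Transcendental ℤ y) : MeasT y := by
  obtain ⟨B, hB, hB0⟩ := exists_rel x y h
  exact measT_of_rel x y hx hy B hB hB0

end Pool.Agent.TH456.TM
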