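import Pool.Agent.TH456.TM.Det

/-!
# The value of the remainder
-/

set_option autoImplicit false

namespace Pool.Agent.TH456.TM

open Polynomial Finset

variable {m : ℕ}

lemma term_hasSum (c : ℂ) (i : ℕ) (k θ : ℂ) :
    HasSum (fun t : ℕ => c * (t.choose i * k ^ (t - i)) * θ ^ t / t.factorial)
      (c / i.factorial * θ ^ i * Complex.exp (k * θ)) := by
  have h1 : HasSum (fun s : ℕ => (k * θ) ^ s / s.factorial) (Complex.exp (k * θ)) := by
    have := NormedSpace.expSeries_div_hasSum_exp (k * θ)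
    rwa [← Complex.exp_eq_exp_ℂ] at this
  have h2 := h1.mul_left (c / i.factorial * θ ^ i)
  rw [← hasSum_nat_add_iff' i]
  have h3 : ∑ j ∈ range i, c * (j.choose i * k ^ (j - i)) * θ ^ j / j.factorial = 0 := by
    refine Finset.sum_eq_zero fun j hj => ?_
    rw [Finset.mem_range] at hj
    rw [Nat.choose_eq_zero_of_lt hj]
    simp
  rw [h3, sub_zero]
  refine h2.congr_fun ?_ |> fun h => h
  intro s
  rw [Nat.add_sub_cancel, Nat.cast_choose ℂ (Nat.le_add_left i s), Nat.add_sub_cancel]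
  have h4 : (i.factorial : ℂ) ≠ 0 := by exact_mod_cast i.factorial_ne_zero
  have h5 : (s.factorial : ℂ) ≠ 0 := by exact_mod_cast s.factorial_ne_zero
  have h6 : ((s + i).factorial : ℂ) ≠ 0 := by exact_mod_cast (s + i).factorial_ne_zero
  field_simp
  ring

/-- the value of the remainder -/
noncomputable def Rv (n : ℕ) (l₀ : Fin (m + 1)) (θ : ℂ) : ℂ :=
  ∑ k, aeval θ (Ak n l₀ k) * Complex.exp (((k : ℕ) : ℂ) * θ)

lemma Rv_hasSum (n : ℕ) (l₀ : Fin (m + 1)) (θ : ℂ) :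
    HasSum (fun t : ℕ => ((Lf (ee n l₀) t : ℚ) : ℂ) * θ ^ t / t.factorial) (Rv n l₀ θ) := by
  have h1 : ∀ k : Fin (m + 1), HasSum (fun t : ℕ => ∑ i ∈ range (ee n l₀ k),
      ((PowerSeries.coeff (ee n l₀ k - 1 - i) (gk (ee n l₀) k) : ℚ) : ℂ) *
        (t.choose i * ((k : ℕ) : ℂ) ^ (t - i)) * θ ^ t / t.factorial)
      (aeval θ (Ak n l₀ k) * Complex.exp (((k : ℕ) : ℂ) * θ)) := by
    intro k
    have h2 : aeval θ (Ak n l₀ k) * Complex.exp (((k : ℕ) : ℂ) * θ) =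
        ∑ i ∈ range (ee n l₀ k),
          ((PowerSeries.coeff (ee n l₀ k - 1 - i) (gk (ee n l₀) k) : ℚ) : ℂ) / i.factorial * θ ^ i *
            Complex.exp (((k : ℕ) : ℂ) * θ) := by
      unfold Ak
      rw [map_sum, Finset.sum_mul]
      refine Finset.sum_congr rfl fun i _ => ?_
      rw [map_mul, aeval_C, map_pow, aeval_X]
      simp
    rw [h2]
    exact hasSum_sum fun i _ => term_hasSum _ i _ θ
  have h2 := hasSum_sum (s := (univ : Finset (Fin (m + 1)))) fun k _ => h1 k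
  refine h2.congr_fun ?_ |> fun h => h
  intro t
  unfold Lf
  push_cast
  rw [Finset.sum_mul, Finset.sum_div]
  refine Finset.sum_congr rfl fun k _ => ?_
  rw [Finset.sum_mul, Finset.sum_div]

/-- the common scaling -/
noncomputable def SC (m n : ℕ) : ℚ := (m.factorial : ℚ) ^ n * (Nat.lcmUpto m : ℚ) ^ (n + 1)

/-- the bound for the scaled coefficients -/
noncomputable def KC (m n : ℕ) : ℚ :=
  2 ^ (m * n) * (Nat.lcmUpto m : ℚ) ^ (n + 1) * (((m : ℚ) + 1) * (n + 1)) ^ n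

lemma SC_nonneg (m n : ℕ) : 0 ≤ SC m n := by unfold SC; positivity
lemma KC_nonneg (m n : ℕ) : 0 ≤ KC m n := by unfold KC; positivity

lemma gk_coeff' (n : ℕ) (l₀ k : Fin (m + 1)) (i : ℕ) (hi : i ≤ n) :
    ∃ z : ℤ, SC m n * PowerSeries.coeff i (gk (ee n l₀) k) = z ∧ |(z : ℚ)| ≤ KC m n :=
  gk_coeff n l₀ k i hi

lemma Lf_bound (n : ℕ) (hm : 1 ≤ m) (l₀ : Fin (m + 1)) (t : ℕ) :
    |SC m n * Lf (ee n l₀) t| ≤ ((m : ℚ) + 1) * (n + 1) * KC m n * (2 * m) ^ t := by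
  unfold Lf
  rw [Finset.mul_sum]
  have hm' : (1 : ℚ) ≤ m := by exact_mod_cast hm
  calc |∑ k, SC m n * ∑ i ∈ range (ee n l₀ k), PowerSeries.coeff (ee n l₀ k - 1 - i) (gk (ee n l₀) k) *
        (t.choose i * nd k ^ (t - i))|
      ≤ ∑ k, |SC m n * ∑ i ∈ range (ee n l₀ k), PowerSeries.coeff (ee n l₀ k - 1 - i) (gk (ee n l₀) k) *
        (t.choose i * nd k ^ (t - i))| := Finset.abs_sum_le_sum_abs _ _
    _ ≤ ∑ _k : Fin (m + 1), ((n : ℚ) + 1) * (KC m n * (2 * m) ^ t) := by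
        refine Finset.sum_le_sum fun k _ => ?_
        rw [Finset.mul_sum]
        refine (Finset.abs_sum_le_sum_abs _ _).trans ?_
        have h1 : ∀ i ∈ range (ee n l₀ k), |SC m n *
            (PowerSeries.coeff (ee n l₀ k - 1 - i) (gk (ee n l₀) k) *
              (t.choose i * nd k ^ (t - i)))| ≤ KC m n * (2 * m) ^ t := by
          intro i hi
          have hee : ee n l₀ k ≤ n + 1 := by unfold ee; split_ifs <;> omega
          obtain ⟨z, hz, hz2⟩ := gk_coeff' n l₀ k (ee n l₀ k - 1 - i) (by omega)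
          rw [← mul_assoc, hz, abs_mul, abs_mul, Nat.abs_cast, abs_pow, Nat.abs_cast]
          have h2 : ((t.choose i : ℕ) : ℚ) ≤ 2 ^ t := by exact_mod_cast Nat.choose_le_two_pow t i
          have h3 : ((k : ℕ) : ℚ) ^ (t - i) ≤ (m : ℚ) ^ t := by
            have h4 : ((k : ℕ) : ℚ) ≤ m := by
              have := k.2
              exact_mod_cast (by omega : (k : ℕ) ≤ m)
            calc ((k : ℕ) : ℚ) ^ (t - i) ≤ (m : ℚ) ^ (t - i) := by gcongr
              _ ≤ (m : ℚ) ^ t := pow_le_pow_right₀ hm' (Nat.sub_le _ _)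
          have := KC_nonneg m n
          calc |(z : ℚ)| * (((t.choose i : ℕ) : ℚ) * ((k : ℕ) : ℚ) ^ (t - i))
              ≤ KC m n * (2 ^ t * (m : ℚ) ^ t) := by gcongr
            _ = _ := by rw [mul_pow]
        refine (Finset.sum_le_sum h1).trans ?_
        rw [Finset.sum_const, card_range, nsmul_eq_mul]
        have hee : ((ee n l₀ k : ℕ) : ℚ) ≤ (n : ℚ) + 1 := by
          have : ee n l₀ k ≤ n + 1 := by unfold ee; split_ifs <;> omega
          exact_mod_cast this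
        have := KC_nonneg m n
        gcongr
    _ = _ := by
        rw [Finset.sum_const, Finset.card_univ, Fintype.card_fin, nsmul_eq_mul]
        push_cast
        ring

/-- **Smallness of the remainder** -/
theorem Rv_bound {n : ℕ} (hn : 1 ≤ n) (hm : 1 ≤ m) (l₀ : Fin (m + 1)) (θ : ℂ) :
    ‖((SC m n : ℚ) : ℂ) * Rv n l₀ θ‖ ≤ ((m : ℝ) + 1) * (n + 1) * (KC m n : ℝ) *
      ((2 * m * ‖θ‖) ^ ((m + 1) * n) / ((m + 1) * n).factorial * Real.exp (2 * m * ‖θ‖)) := by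
  obtain ⟨M, hM⟩ : ∃ M, M = (m + 1) * n := ⟨_, rfl⟩
  rw [← hM]
  have h1 := (Rv_hasSum n l₀ θ).mul_left ((SC m n : ℚ) : ℂ)
  rw [← hasSum_nat_add_iff' M] at h1
  have h2 : ∑ i ∈ range M, ((SC m n : ℚ) : ℂ) * (((Lf (ee n l₀) i : ℚ) : ℂ) * θ ^ i / i.factorial) = 0 := by
    refine Finset.sum_eq_zero fun i hi => ?_
    rw [Finset.mem_range] at hi
    rw [Lf_zero _ (ee_pos hn l₀) i (by rw [sum_ee]; omega)]
    simp
  rw [h2, sub_zero] at h1
  obtain ⟨x, hx⟩ : ∃ x : ℝ, x = 2 * m * ‖θ‖ := ⟨_, rfl⟩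
  rw [← hx]
  have hx0 : 0 ≤ x := by rw [hx]; positivity
  have h3 : HasSum (fun s : ℕ => x ^ s / s.factorial) (Real.exp x) := by
    have := NormedSpace.expSeries_div_hasSum_exp x
    rwa [← Real.exp_eq_exp_ℝ] at this
  have h4 := h3.mul_left (((m : ℝ) + 1) * (n + 1) * (KC m n : ℝ) * (x ^ M / M.factorial))
  have hK : (0 : ℝ) ≤ KC m n := by exact_mod_cast KC_nonneg m n
  refine (HasSum.norm_le_of_bounded h1 h4 fun s => ?_).trans (le_of_eq (by ring))
  have h5 : ‖((SC m n : ℚ) : ℂ) * (((Lf (ee n l₀) (s + M) : ℚ) : ℂ) * θ ^ (s + M) / (s + M).factorial)‖ =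
      |((SC m n * Lf (ee n l₀) (s + M) : ℚ) : ℝ)| * (‖θ‖ ^ (s + M) / (s + M).factorial) := by
    rw [mul_div_assoc, ← mul_assoc, norm_mul, norm_div, norm_pow, Complex.norm_natCast]
    congr 1
    rw [← Rat.cast_mul]
    have : (((SC m n * Lf (ee n l₀) (s + M) : ℚ)) : ℂ) = (((SC m n * Lf (ee n l₀) (s + M) : ℚ) : ℝ) : ℂ) := by
      push_cast; rfl
    rw [this, Complex.norm_real, Real.norm_eq_abs]
  rw [h5]
  have h6 : |((SC m n * Lf (ee n l₀) (s + M) : ℚ) : ℝ)| ≤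
      ((m : ℝ) + 1) * (n + 1) * (KC m n : ℝ) * (2 * m) ^ (s + M) := by
    have := Lf_bound n hm l₀ (s + M)
    exact_mod_cast this
  have h7 : (1 : ℝ) / (s + M).factorial ≤ 1 / (s.factorial * M.factorial) := by
    apply one_div_le_one_div_of_le (by positivity)
    exact_mod_cast Nat.le_of_dvd (Nat.factorial_pos _) (Nat.factorial_mul_factorial_dvd_factorial_add s M)
  calc |((SC m n * Lf (ee n l₀) (s + M) : ℚ) : ℝ)| * (‖θ‖ ^ (s + M) / (s + M).factorial)
      ≤ (((m : ℝ) + 1) * (n + 1) * (KC m n : ℝ) * (2 * m) ^ (s + M)) *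
          (‖θ‖ ^ (s + M) * (1 / (s.factorial * M.factorial))) := by
        rw [div_eq_mul_one_div]
        gcongr
    _ = _ := by
        rw [hx]
        have h8 : (s.factorial : ℝ) ≠ 0 := by positivity
        have h9 : (M.factorial : ℝ) ≠ 0 := by positivity
        field_simp
        ring

end Pool.Agent.TH456.TM
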