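import Pool.Agent.TH456.TM.Ana

/-!
# Integral approximations which do not vanish at given points
-/

set_option autoImplicit false

namespace Pool.Agent.TH456.TM

open Polynomial Finset

variable {m : ℕ}

/-- the scaled polynomials have integer coefficients -/
lemma Ak_int (n : ℕ) (l₀ k : Fin (m + 1)) : ∃ P : ℤ[X], P.natDegree ≤ n ∧
    (∀ j, |(P.coeff j : ℝ)| ≤ n.factorial * (KC m n : ℝ)) ∧
    (∀ x : ℂ, aeval x P = (n.factorial : ℂ) * ((SC m n : ℚ) : ℂ) * aeval x (Ak n l₀ k)) := by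
  have hee : ee n l₀ k ≤ n + 1 := by unfold ee; split_ifs <;> omega
  choose z hz hz2 using fun i : Fin (n + 1) => gk_coeff' n l₀ k (i : ℕ) (by have := i.2; omega)
  obtain ⟨w, hw⟩ : ∃ w : ℕ → ℤ, ∀ i, i ≤ n → SC m n * PowerSeries.coeff i (gk (ee n l₀) k) = w i ∧
      |(w i : ℚ)| ≤ KC m n :=
    ⟨fun i => if h : i ≤ n then z ⟨i, by omega⟩ else 0, fun i hi => by
      simp only [dif_pos hi]
      exact ⟨hz ⟨i, by omega⟩, hz2 ⟨i, by omega⟩⟩⟩
  refine ⟨∑ i ∈ range (ee n l₀ k), C (w (ee n l₀ k - 1 - i) * ((n.factorial / i.factorial : ℕ) : ℤ)) * X ^ i,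
    ?_, ?_, ?_⟩
  · refine natDegree_sum_le_of_forall_le _ _ fun i hi => ?_
    rw [Finset.mem_range] at hi
    exact (natDegree_C_mul_X_pow_le _ _).trans (by omega)
  · intro j
    rw [finsetSum_coeff]
    simp only [coeff_C_mul, coeff_X_pow, mul_ite, mul_one, mul_zero]
    rw [Finset.sum_ite_eq (range (ee n l₀ k)) j]
    have hK : (0 : ℝ) ≤ KC m n := by exact_mod_cast KC_nonneg m n
    split_ifs with h
    · rw [Finset.mem_range] at h
      rw [Int.cast_mul, Int.cast_natCast, abs_mul, mul_comm]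
      have h1 := (hw (ee n l₀ k - 1 - j) (by omega)).2
      have h2 : |(w (ee n l₀ k - 1 - j) : ℝ)| ≤ (KC m n : ℝ) := by exact_mod_cast h1
      have h3 : |((n.factorial / j.factorial : ℕ) : ℝ)| ≤ n.factorial := by
        rw [Nat.abs_cast]
        exact_mod_cast Nat.div_le_self _ _
      gcongr
    · simp only [Int.cast_zero, abs_zero]
      positivity
  · intro x
    unfold Ak
    rw [map_sum, map_sum, Finset.mul_sum]
    refine Finset.sum_congr rfl fun i hi => ?_
    rw [Finset.mem_range] at hi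
    have e1 : aeval x (C (w (ee n l₀ k - 1 - i) * ((n.factorial / i.factorial : ℕ) : ℤ)) * X ^ i) =
        ((w (ee n l₀ k - 1 - i) : ℤ) : ℂ) * ((n.factorial / i.factorial : ℕ) : ℂ) * x ^ i := by
      rw [map_mul, aeval_C, map_pow, aeval_X, algebraMap_int_eq, eq_intCast, Int.cast_mul,
        Int.cast_natCast]
    have e2 : aeval x (C (PowerSeries.coeff (ee n l₀ k - 1 - i) (gk (ee n l₀) k) / i.factorial) * X ^ i) =
        ((PowerSeries.coeff (ee n l₀ k - 1 - i) (gk (ee n l₀) k) : ℚ) : ℂ) / i.factorial * x ^ i := by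
      rw [map_mul, aeval_C, map_pow, aeval_X, eq_ratCast, Rat.cast_div, Rat.cast_natCast]
    rw [e1, e2]
    have h1 := (hw (ee n l₀ k - 1 - i) (by omega)).1
    have h2 : ((w (ee n l₀ k - 1 - i) : ℤ) : ℂ) =
        ((SC m n : ℚ) : ℂ) * ((PowerSeries.coeff (ee n l₀ k - 1 - i) (gk (ee n l₀) k) : ℚ) : ℂ) := by
      rw [← Rat.cast_mul, h1]
      simp
    have h3 : ((n.factorial / i.factorial : ℕ) : ℂ) = (n.factorial : ℂ) / i.factorial := by
      rw [Nat.cast_div (Nat.factorial_dvd_factorial (by omega))]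
      exact_mod_cast i.factorial_ne_zero
    rw [h2, h3]
    ring

variable {O : Type} [CommRing O] [IsDomain O]

omit [IsDomain O] in
/-- the integral forms -/
lemma Bl (ι : O →+* ℂ) (θ : ℂ) (a b : O) (W : ℝ) (haW : ‖ι a‖ ≤ W)
    (hbW : ‖ι b‖ ≤ W) (hab : ι b * Complex.exp θ = ι a) (n : ℕ) (l₀ : Fin (m + 1)) :
    ∃ B : O[X], B.natDegree ≤ n ∧
      (∀ j, ‖ι (B.coeff j)‖ ≤ (m + 1) * (W ^ m * (n.factorial * (KC m n : ℝ)))) ∧
      ∀ x : ℂ, (B.map ι).eval x = ι b ^ m * ((n.factorial : ℂ) * ((SC m n : ℚ) : ℂ) *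
        ∑ k : Fin (m + 1), aeval x (Ak n l₀ k) * Complex.exp (((k : ℕ) : ℂ) * θ)) := by
  choose P hP1 hP2 hP3 using fun k : Fin (m + 1) => Ak_int (m := m) n l₀ k
  refine ⟨∑ k : Fin (m + 1), C (a ^ (k : ℕ) * b ^ (m - k)) * (P k).map (Int.castRingHom O), ?_, ?_, ?_⟩
  · refine natDegree_sum_le_of_forall_le _ _ fun k _ => ?_
    exact (natDegree_C_mul_le _ _).trans (natDegree_map_le.trans (hP1 k))
  · intro j
    rw [finsetSum_coeff, map_sum]
    refine (norm_sum_le _ _).trans ?_
    have h1 : ∀ k ∈ (univ : Finset (Fin (m + 1))),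
        ‖ι ((C (a ^ (k : ℕ) * b ^ (m - k)) * (P k).map (Int.castRingHom O)).coeff j)‖ ≤
          W ^ m * (n.factorial * (KC m n : ℝ)) := by
      intro k _
      rw [coeff_C_mul, coeff_map, map_mul, map_mul, map_pow, map_pow, norm_mul, norm_mul, norm_pow,
        norm_pow]
      have h2 : ‖ι a‖ ^ (k : ℕ) * ‖ι b‖ ^ (m - k) ≤ W ^ m := by
        have hk : (k : ℕ) ≤ m := by have := k.2; omega
        have hW : 0 ≤ W := (norm_nonneg _).trans haW
        calc ‖ι a‖ ^ (k : ℕ) * ‖ι b‖ ^ (m - k) ≤ W ^ (k : ℕ) * W ^ (m - k) := by gcongr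
          _ = W ^ m := by rw [← pow_add]; congr 1; omega
      have h3 : ‖ι ((Int.castRingHom O) ((P k).coeff j))‖ ≤ n.factorial * (KC m n : ℝ) := by
        rw [eq_intCast, map_intCast, Complex.norm_intCast]
        exact hP2 k j
      exact mul_le_mul h2 h3 (norm_nonneg _) (by have hW : 0 ≤ W := (norm_nonneg _).trans haW; positivity)
    refine (Finset.sum_le_sum h1).trans ?_
    rw [Finset.sum_const, Finset.card_univ, Fintype.card_fin, nsmul_eq_mul]
    push_cast
    exact le_rfl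
  · intro x
    rw [Polynomial.map_sum, eval_finsetSum]
    rw [Finset.mul_sum, Finset.mul_sum]
    refine Finset.sum_congr rfl fun k _ => ?_
    rw [Polynomial.map_mul, map_C, eval_mul, eval_C, Polynomial.map_map]
    have h1 : ((P k).map (ι.comp (Int.castRingHom O))).eval x = aeval x (P k) := by
      rw [aeval_def, eval_map]
      congr 1
      exact RingHom.ext_int _ _
    rw [h1, hP3 k x, map_mul, map_pow, map_pow, ← hab, mul_pow, ← Complex.exp_nat_mul]
    have hk : (k : ℕ) ≤ m := by have := k.2; omega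
    have h2 : ι b ^ m = ι b ^ (k : ℕ) * ι b ^ (m - k) := by
      rw [← pow_add]; congr 1; omega
    rw [h2]
    ring

/-- a combination with small coefficients which does not vanish at the given vectors -/
lemma small_comb {V : Type} (u : V → Fin (m + 1) → ℂ) (S : Finset V)
    (hu : ∀ α ∈ S, ∃ l, u α l ≠ 0) :
    ∃ y : Fin (m + 1) → ℕ, (∀ l, y l ≤ S.card ^ 2) ∧ ∀ α ∈ S, ∑ l, (y l : ℂ) * u α l ≠ 0 := by
  classical
  induction S using Finset.induction_on with
  | empty => exact ⟨fun _ => 0, fun _ => Nat.zero_le _, fun α h => absurd h (Finset.notMem_empty α)⟩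
  | insert β S hβ ih =>
    obtain ⟨y, hy1, hy2⟩ := ih fun α hα => hu α (Finset.mem_insert_of_mem hα)
    rw [Finset.card_insert_of_notMem hβ]
    obtain ⟨c, hc⟩ : ∃ c, c = S.card := ⟨_, rfl⟩
    rw [← hc] at hy1 ⊢
    by_cases h0 : ∑ l, (y l : ℂ) * u β l = 0
    · obtain ⟨l₀, hl₀⟩ := hu β (Finset.mem_insert_self β S)
      -- the values of `s` which are excluded
      have key : ∀ s : ℕ, ∀ α, ∑ l, ((y l + if l = l₀ then s else 0 : ℕ) : ℂ) * u α l =
          ∑ l, (y l : ℂ) * u α l + s * u α l₀ := by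
        intro s α
        have h1 : ∀ l ∈ (univ : Finset (Fin (m + 1))),
            ((y l + if l = l₀ then s else 0 : ℕ) : ℂ) * u α l =
            (y l : ℂ) * u α l + (if l = l₀ then (s : ℂ) * u α l else 0) := by
          intro l _
          split_ifs <;> push_cast <;> ring
        rw [Finset.sum_congr rfl h1, Finset.sum_add_distrib, Finset.sum_ite_eq' univ l₀,
          if_pos (Finset.mem_univ _)]
      obtain ⟨s, hs1, hs2⟩ : ∃ s ∈ Finset.Icc 1 (c + 1), s ∉ S.image
          (fun α => if h : ∃ s : ℕ, ∑ l, (y l : ℂ) * u α l + s * u α l₀ = 0 then h.choose else 0) := by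
        apply Finset.exists_mem_notMem_of_card_lt_card
        rw [Nat.card_Icc]
        refine lt_of_le_of_lt Finset.card_image_le ?_
        omega
      rw [Finset.mem_Icc] at hs1
      refine ⟨fun l => y l + if l = l₀ then s else 0, fun l => ?_, fun α hα => ?_⟩
      · have := hy1 l
        show y l + (if l = l₀ then s else 0) ≤ _
        split_ifs <;> nlinarith
      · rw [key]
        rw [Finset.mem_insert] at hα
        rcases hα with rfl | hα
        · rw [h0, zero_add]
          have : (s : ℂ) ≠ 0 := by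
            have : s ≠ 0 := by omega
            exact_mod_cast this
          exact mul_ne_zero this hl₀
        · intro h
          apply hs2
          rw [Finset.mem_image]
          refine ⟨α, hα, ?_⟩
          have hex : ∃ s : ℕ, ∑ l, (y l : ℂ) * u α l + s * u α l₀ = 0 := ⟨s, h⟩
          rw [dif_pos hex]
          have h2 := hex.choose_spec
          have h3 : u α l₀ ≠ 0 := by
            intro h3
            rw [h3, mul_zero, add_zero] at h
            exact hy2 α hα h
          have h4 : ((hex.choose : ℕ) : ℂ) * u α l₀ = (s : ℂ) * u α l₀ := by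
            have := h.trans h2.symm
            exact (add_left_cancel this).symm
          exact_mod_cast mul_right_cancel₀ h3 h4
    · refine ⟨y, fun l => (hy1 l).trans (by gcongr; omega), fun α hα => ?_⟩
      rw [Finset.mem_insert] at hα
      rcases hα with rfl | hα
      · exact h0
      · exact hy2 α hα

omit [IsDomain O] in
/-- the combined forms -/
lemma comb (ι : O →+* ℂ) (hι : ∀ z, z ≠ 0 → 1 ≤ ‖ι z‖) (θ : ℂ) (a b : O) (hb : b ≠ 0) (W : ℝ)
    (haW : ‖ι a‖ ≤ W) (hbW : ‖ι b‖ ≤ W) (hab : ι b * Complex.exp θ = ι a) {n : ℕ} (hn : 1 ≤ n)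
    (D : ℕ) (S : Finset ℂ) (hS : S.card ≤ D) (hS0 : ∀ α ∈ S, α ≠ 0) (ε : ℝ)
    (hε : ∀ l₀ : Fin (m + 1), ‖((SC m n : ℚ) : ℂ) * Rv n l₀ θ‖ ≤ ε) :
    ∃ B : O[X], B.natDegree ≤ n ∧
      (∀ j, ‖ι (B.coeff j)‖ ≤ (m + 1) * D ^ 2 * ((m + 1) * (W ^ m * (n.factorial * (KC m n : ℝ))))) ∧
      ‖(B.map ι).eval θ‖ ≤ (m + 1) * D ^ 2 * (W ^ m * (n.factorial * ε)) ∧
      ∀ α ∈ S, (B.map ι).eval α ≠ 0 := by
  choose B hB1 hB2 hB3 using fun l₀ : Fin (m + 1) => Bl (m := m) ι θ a b W haW hbW hab n l₀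
  have hb0 : ι b ≠ 0 := by
    intro h
    have := hι b hb
    rw [h, norm_zero] at this
    linarith
  have hS' : ∀ α ∈ S, ∃ l, (fun α l => ((B l).map ι).eval α) α l ≠ 0 := by
    intro α hα
    obtain ⟨l, hl⟩ := nonvanish (m := m) hn α (hS0 α hα)
      (fun k : Fin (m + 1) => Complex.exp (((k : ℕ) : ℂ) * θ)) (by
        intro h
        have := congrFun h 0
        exact Complex.exp_ne_zero _ this)
    refine ⟨l, ?_⟩
    show ((B l).map ι).eval α ≠ 0
    rw [hB3 l α]
    refine mul_ne_zero (pow_ne_zero _ hb0) (mul_ne_zero (mul_ne_zero ?_ ?_) hl)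
    · exact_mod_cast n.factorial_ne_zero
    · have : SC m n ≠ 0 := by
        unfold SC
        have := Nat.lcmUpto_pos m
        positivity
      exact_mod_cast this
  obtain ⟨y, hy1, hy2⟩ := small_comb (m := m) (fun α l => ((B l).map ι).eval α) S hS'
  have hyD : ∀ l, ((y l : ℕ) : ℝ) ≤ (D : ℝ) ^ 2 := by
    intro l
    have : y l ≤ D ^ 2 := (hy1 l).trans (by gcongr)
    exact_mod_cast this
  refine ⟨∑ l, C ((y l : ℕ) : O) * B l, ?_, ?_, ?_, ?_⟩
  · refine natDegree_sum_le_of_forall_le _ _ fun k _ => ?_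
    exact (natDegree_C_mul_le _ _).trans (hB1 k)
  · intro j
    rw [finsetSum_coeff, map_sum]
    refine (norm_sum_le _ _).trans ?_
    have h1 : ∀ l ∈ (univ : Finset (Fin (m + 1))), ‖ι ((C ((y l : ℕ) : O) * B l).coeff j)‖ ≤
        (D : ℝ) ^ 2 * ((m + 1) * (W ^ m * (n.factorial * (KC m n : ℝ)))) := by
      intro l _
      rw [coeff_C_mul, map_mul, norm_mul, map_natCast, Complex.norm_natCast]
      exact mul_le_mul (hyD l) (hB2 l j) (norm_nonneg _) (by positivity)
    refine (Finset.sum_le_sum h1).trans ?_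
    rw [Finset.sum_const, Finset.card_univ, Fintype.card_fin, nsmul_eq_mul]
    push_cast
    exact le_of_eq (by ring)
  · rw [Polynomial.map_sum, eval_finsetSum]
    refine (norm_sum_le _ _).trans ?_
    have h1 : ∀ l ∈ (univ : Finset (Fin (m + 1))), ‖eval θ ((C ((y l : ℕ) : O) * B l).map ι)‖ ≤
        (D : ℝ) ^ 2 * (W ^ m * (n.factorial * ε)) := by
      intro l _
      rw [Polynomial.map_mul, map_C, eval_mul, eval_C, map_natCast, norm_mul, Complex.norm_natCast]
      have h2 : ‖((B l).map ι).eval θ‖ ≤ W ^ m * (n.factorial * ε) := by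
        rw [hB3 l θ]
        have h3 : (n.factorial : ℂ) * ((SC m n : ℚ) : ℂ) *
            ∑ k : Fin (m + 1), aeval θ (Ak n l k) * Complex.exp (((k : ℕ) : ℂ) * θ) =
            (n.factorial : ℂ) * (((SC m n : ℚ) : ℂ) * Rv n l θ) := by
          unfold Rv; ring
        rw [h3, norm_mul, norm_mul, norm_pow, Complex.norm_natCast]
        have h4 := hε l
        have hW : 0 ≤ W := (norm_nonneg _).trans haW
        gcongr
      exact mul_le_mul (hyD l) h2 (norm_nonneg _) (by positivity)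
    refine (Finset.sum_le_sum h1).trans ?_
    rw [Finset.sum_const, Finset.card_univ, Fintype.card_fin, nsmul_eq_mul]
    push_cast
    exact le_of_eq (by ring)
  · intro α hα
    rw [Polynomial.map_sum, eval_finsetSum]
    have h1 : ∀ l ∈ (univ : Finset (Fin (m + 1))), eval α ((C ((y l : ℕ) : O) * B l).map ι) =
        (y l : ℂ) * ((B l).map ι).eval α := by
      intro l _
      rw [Polynomial.map_mul, map_C, eval_mul, eval_C, map_natCast]
    rw [Finset.sum_congr rfl h1]
    exact hy2 α hα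

end Pool.Agent.TH456.TM
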