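import Pool.Agent.TH456.TM.Fam

/-!
# Closure properties of the numbers with a transcendence measure
-/

set_option autoImplicit false

namespace Pool.Agent.TH456.TM

open Polynomial Finset

theorem measT_ne_zero {x : ℂ} (hx : MeasT x) : x ≠ 0 := by
  rintro rfl
  obtain ⟨κ, c, hκ, hc, h⟩ := hx 1
  have h1 := h X X_ne_zero natDegree_X_le 1 le_rfl (fun j => by
    rw [coeff_X]
    split_ifs <;> simp)
  rw [aeval_X, norm_zero, mul_zero] at h1
  linarith

theorem measT_pow {x : ℂ} (hx : MeasT x) (k : ℕ) (hk : k ≠ 0) : MeasT (x ^ k) := by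
  intro D
  obtain ⟨κ, c, hκ, hc, h⟩ := hx (k * D)
  refine ⟨κ, c, hκ, hc, fun P hP hPD H hH hPH => ?_⟩
  have h1 := h (expand ℤ k P) ((expand_eq_zero (Nat.pos_of_ne_zero hk)).not.2 hP)
    (by rw [natDegree_expand, mul_comm]; exact Nat.mul_le_mul_left _ hPD) H hH (fun j => by
      rw [coeff_expand (Nat.pos_of_ne_zero hk)]
      split_ifs
      · exact hPH _
      · simp only [Int.cast_zero, abs_zero]; linarith)
  rw [expand_aeval] at h1
  exact h1

theorem measT_inv {x : ℂ} (hx : MeasT x) : MeasT x⁻¹ := by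
  intro D
  have hx0 := measT_ne_zero hx
  have hn0 : 0 < ‖x‖ := norm_pos_iff.2 hx0
  obtain ⟨κ, c, hκ, hc, h⟩ := hx D
  obtain ⟨μ, hμ⟩ : ∃ μ : ℝ, μ = (max 1 ‖x‖) ^ D := ⟨_, rfl⟩
  have hm1 : 1 ≤ max 1 ‖x‖ := le_max_left _ _
  have hμ0 : 0 < μ := by rw [hμ]; positivity
  refine ⟨κ, c / μ, hκ, by positivity, fun P hP hPD H hH hPH => ?_⟩
  have h1 := h P.reverse (reverse_eq_zero.not.2 hP) ((reverse_natDegree_le P).trans hPD) H hH
    (fun j => by
      rw [coeff_reverse]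
      exact hPH _)
  have h2 : aeval x P.reverse = x ^ P.natDegree * aeval x⁻¹ P := by
    let _ := invertibleOfNonzero (inv_ne_zero hx0)
    have h4 := eval₂_reverse_mul_pow (Int.castRingHom ℂ) x⁻¹ P
    rw [invOf_eq_inv, inv_inv] at h4
    rw [aeval_def, aeval_def]
    have h5 : (algebraMap ℤ ℂ) = Int.castRingHom ℂ := rfl
    rw [h5, ← h4, mul_comm, mul_assoc, ← mul_pow, inv_mul_cancel₀ hx0, one_pow, mul_one]
  rw [h2, norm_mul, norm_pow] at h1
  have h3 : ‖x‖ ^ P.natDegree ≤ μ := by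
    rw [hμ]
    calc ‖x‖ ^ P.natDegree ≤ (max 1 ‖x‖) ^ P.natDegree :=
          pow_le_pow_left₀ hn0.le (le_max_right _ _) _
      _ ≤ _ := pow_le_pow_right₀ hm1 hPD
  rw [div_le_iff₀ hμ0]
  calc c ≤ H ^ κ * (‖x‖ ^ P.natDegree * ‖aeval x⁻¹ P‖) := h1
    _ ≤ H ^ κ * (μ * ‖aeval x⁻¹ P‖) := by gcongr
    _ = _ := by ring

theorem measT_zpow {x : ℂ} (hx : MeasT x) (k : ℤ) (hk : k ≠ 0) : MeasT (x ^ k) := by
  obtain ⟨n, rfl | rfl⟩ := k.eq_nat_or_neg
  · rw [zpow_natCast]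
    exact measT_pow hx n (by simpa using hk)
  · rw [zpow_neg, zpow_natCast]
    exact measT_inv (measT_pow hx n (by simpa using hk))

/-- an algebraic number different from `0` is a root of a polynomial with `P(0) ≠ 0` -/
lemma exists_poly (α : ℂ) (hα : IsAlgebraic ℤ α) (hα0 : α ≠ 0) :
    ∃ P : ℤ[X], P ≠ 0 ∧ aeval α P = 0 ∧ P.coeff 0 ≠ 0 := by
  obtain ⟨P, hP, hPα⟩ := hα
  obtain ⟨a, _, P', hPP', hP0⟩ := strip P.natDegree P hP le_rfl
  refine ⟨P', ?_, ?_, hP0⟩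
  · intro h
    rw [h, coeff_zero] at hP0
    exact hP0 rfl
  · rw [hPP', map_mul, map_pow, aeval_X] at hPα
    exact (mul_eq_zero.1 hPα).resolve_left (pow_ne_zero _ hα0)

/-- **Multiplication by algebraic numbers.** -/
theorem measT_mul_alg {x : ℂ} (hx : MeasT x) (α : ℂ) (hα : IsAlgebraic ℤ α) (hα0 : α ≠ 0) :
    MeasT (x * α) := by
  intro D
  obtain ⟨P, hP, hPα, hP0⟩ := exists_poly α hα hα0
  obtain ⟨κ, hκ, h⟩ := mul_core x hx (max D P.natDegree)
  obtain ⟨C, hC, h⟩ := h α hα0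
  have hP1 := ht_pos P hP
  refine ⟨κ, C * (ht P : ℝ) ^ (-κ), hκ.le, by positivity, fun Q hQ hQD H hH hQH => ?_⟩
  have h1 := h P Q hP hQ (le_max_right _ _) (hQD.trans (le_max_left _ _)) (ht P * H)
    (by nlinarith) (fun k => (le_ht P k).trans (by nlinarith)) (fun k => (hQH k).trans (by nlinarith))
  rw [hPα, norm_zero, max_eq_right (norm_nonneg _),
    Real.mul_rpow (by positivity) (by positivity)] at h1
  have hH0 : 0 < H := by linarith
  have h9 : H ^ (-κ) * H ^ κ = 1 := by rw [← Real.rpow_add hH0]; simp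
  calc C * (ht P : ℝ) ^ (-κ) = (C * ((ht P : ℝ) ^ (-κ) * H ^ (-κ))) * H ^ κ := by
        rw [mul_assoc, mul_assoc, h9, mul_one]
    _ ≤ ‖aeval (x * α) Q‖ * H ^ κ := by gcongr
    _ = _ := mul_comm _ _

/-- **Addition of algebraic numbers.** -/
theorem measT_add_alg {x : ℂ} (hx : MeasT x) (α : ℂ) (hα : IsAlgebraic ℤ α) :
    MeasT (x + α) := by
  intro D
  obtain ⟨P, hP, hPα⟩ := hα
  obtain ⟨κ, hκ, h⟩ := add_core x hx (max D P.natDegree)
  obtain ⟨C, hC, h⟩ := h ‖α‖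
  have hP1 := ht_pos P hP
  refine ⟨κ, C * (ht P : ℝ) ^ (-κ), hκ.le, by positivity, fun Q hQ hQD H hH hQH => ?_⟩
  have h1 := h α le_rfl P Q hP hQ (le_max_right _ _) (hQD.trans (le_max_left _ _)) (ht P * H)
    (by nlinarith) (fun k => (le_ht P k).trans (by nlinarith)) (fun k => (hQH k).trans (by nlinarith))
  rw [hPα, norm_zero, max_eq_right (norm_nonneg _),
    Real.mul_rpow (by positivity) (by positivity)] at h1
  have hH0 : 0 < H := by linarith
  have h9 : H ^ (-κ) * H ^ κ = 1 := by rw [← Real.rpow_add hH0]; simp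
  calc C * (ht P : ℝ) ^ (-κ) = (C * ((ht P : ℝ) ^ (-κ) * H ^ (-κ))) * H ^ κ := by
        rw [mul_assoc, mul_assoc, h9, mul_one]
    _ ≤ ‖aeval (x + α) Q‖ * H ^ κ := by gcongr
    _ = _ := mul_comm _ _

theorem measT_neg {x : ℂ} (hx : MeasT x) : MeasT (-x) := by
  have h := measT_mul_alg hx (-1) (isAlgebraic_intCast (-1) |> fun h => by simpa using h) (by norm_num)
  rwa [mul_neg_one] at h

end Pool.Agent.TH456.TM
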