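import Pool.Agent.TH456.TM.HP

/-!
# Integrality and size of the coefficients
-/

set_option autoImplicit false

namespace Pool.Agent.TH456.TM

open Polynomial Finset

/-- `d ℓ^i f_i` is an integer -/
def IntP (d ℓ : ℕ) (f : PowerSeries ℚ) : Prop :=
  ∀ i, ∃ z : ℤ, (d : ℚ) * (ℓ : ℚ) ^ i * PowerSeries.coeff i f = z

/-- `|f_i| ≤ d E^i` -/
def SizeP (d : ℚ) (E : ℕ) (f : PowerSeries ℚ) : Prop :=
  ∀ i, |PowerSeries.coeff i f| ≤ d * (E : ℚ) ^ i

lemma IntP.mul {d₁ d₂ ℓ : ℕ} {f g : PowerSeries ℚ} (hf : IntP d₁ ℓ f) (hg : IntP d₂ ℓ g) :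
    IntP (d₁ * d₂) ℓ (f * g) := by
  intro i
  choose zf hzf using hf
  choose zg hzg using hg
  refine ⟨∑ p ∈ antidiagonal i, zf p.1 * zg p.2, ?_⟩
  rw [PowerSeries.coeff_mul, Finset.mul_sum]
  push_cast
  refine Finset.sum_congr rfl fun p hp => ?_
  have hp := Finset.HasAntidiagonal.mem_antidiagonal.1 hp
  rw [← hzf, ← hzg, ← hp, pow_add]
  push_cast
  ring

lemma IntP.one (ℓ : ℕ) : IntP 1 ℓ 1 := by
  intro i
  rcases i with _ | i
  · exact ⟨1, by simp⟩
  · exact ⟨0, by simp [PowerSeries.coeff_one]⟩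

lemma IntP.pow {d ℓ : ℕ} {f : PowerSeries ℚ} (hf : IntP d ℓ f) (n : ℕ) : IntP (d ^ n) ℓ (f ^ n) := by
  induction n with
  | zero => simpa using IntP.one ℓ
  | succ n ih => rw [pow_succ, pow_succ]; exact ih.mul hf

lemma IntP.prod {ι : Type} (s : Finset ι) (d : ι → ℕ) (ℓ : ℕ) (f : ι → PowerSeries ℚ)
    (h : ∀ i ∈ s, IntP (d i) ℓ (f i)) : IntP (∏ i ∈ s, d i) ℓ (∏ i ∈ s, f i) := by
  classical
  induction s using Finset.induction_on with
  | empty => simpa using IntP.one ℓ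
  | insert a s ha ih =>
    rw [Finset.prod_insert ha, Finset.prod_insert ha]
    exact (h a (Finset.mem_insert_self a s)).mul (ih fun i hi => h i (Finset.mem_insert_of_mem hi))

lemma sum_anti_le (a b : ℚ) (ha : 0 ≤ a) (hb : 0 ≤ b) (i : ℕ) :
    ∑ p ∈ antidiagonal i, a ^ p.1 * b ^ p.2 ≤ (a + b) ^ i := by
  rw [(Commute.all a b).add_pow']
  refine Finset.sum_le_sum fun p hp => ?_
  have hp := Finset.HasAntidiagonal.mem_antidiagonal.1 hp
  have h1 : 1 ≤ i.choose p.1 := Nat.choose_pos (by omega)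
  have h2 : 0 ≤ a ^ p.1 * b ^ p.2 := by positivity
  rw [nsmul_eq_mul]
  have h3 : (1 : ℚ) ≤ (i.choose p.1 : ℚ) := by exact_mod_cast h1
  nlinarith

lemma SizeP.mul {d₁ d₂ : ℚ} {E₁ E₂ : ℕ} {f g : PowerSeries ℚ} (h₁ : 0 ≤ d₁) (h₂ : 0 ≤ d₂)
    (hf : SizeP d₁ E₁ f) (hg : SizeP d₂ E₂ g) : SizeP (d₁ * d₂) (E₁ + E₂) (f * g) := by
  intro i
  rw [PowerSeries.coeff_mul]
  calc |∑ p ∈ antidiagonal i, PowerSeries.coeff p.1 f * PowerSeries.coeff p.2 g|
      ≤ ∑ p ∈ antidiagonal i, |PowerSeries.coeff p.1 f * PowerSeries.coeff p.2 g| :=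
        Finset.abs_sum_le_sum_abs _ _
    _ ≤ ∑ p ∈ antidiagonal i, d₁ * d₂ * ((E₁ : ℚ) ^ p.1 * (E₂ : ℚ) ^ p.2) := by
        refine Finset.sum_le_sum fun p _ => ?_
        rw [abs_mul]
        calc |PowerSeries.coeff p.1 f| * |PowerSeries.coeff p.2 g|
            ≤ (d₁ * (E₁ : ℚ) ^ p.1) * (d₂ * (E₂ : ℚ) ^ p.2) := by
              have := hf p.1
              have := hg p.2
              gcongr
          _ = _ := by ring
    _ = d₁ * d₂ * ∑ p ∈ antidiagonal i, ((E₁ : ℚ) ^ p.1 * (E₂ : ℚ) ^ p.2) := by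
        rw [Finset.mul_sum]
    _ ≤ d₁ * d₂ * (((E₁ + E₂ : ℕ) : ℚ)) ^ i := by
        have := sum_anti_le (E₁ : ℚ) (E₂ : ℚ) (by positivity) (by positivity) i
        push_cast
        gcongr

lemma SizeP.one : SizeP 1 0 1 := by
  intro i
  rcases i with _ | i
  · simp
  · simp [PowerSeries.coeff_one]

lemma SizeP.pow {d : ℚ} {E : ℕ} {f : PowerSeries ℚ} (h : 0 ≤ d) (hf : SizeP d E f) (n : ℕ) :
    SizeP (d ^ n) (n * E) (f ^ n) := by
  induction n with
  | zero => simpa using SizeP.one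
  | succ n ih =>
    rw [pow_succ, pow_succ, Nat.succ_mul]
    exact ih.mul (by positivity) h hf

lemma SizeP.prod {ι : Type} (s : Finset ι) (d : ι → ℚ) (E : ι → ℕ) (f : ι → PowerSeries ℚ)
    (hd : ∀ i ∈ s, 0 ≤ d i) (h : ∀ i ∈ s, SizeP (d i) (E i) (f i)) :
    SizeP (∏ i ∈ s, d i) (∑ i ∈ s, E i) (∏ i ∈ s, f i) := by
  classical
  induction s using Finset.induction_on with
  | empty => simpa using SizeP.one
  | insert a s ha ih =>
    rw [Finset.prod_insert ha, Finset.prod_insert ha, Finset.sum_insert ha]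
    exact (h a (Finset.mem_insert_self a s)).mul (hd a (Finset.mem_insert_self a s))
      (Finset.prod_nonneg fun i hi => hd i (Finset.mem_insert_of_mem hi))
      (ih (fun i hi => hd i (Finset.mem_insert_of_mem hi)) fun i hi => h i (Finset.mem_insert_of_mem hi))

variable {m : ℕ}

/-- distance of the nodes -/
def dd (k l : Fin (m + 1)) : ℕ := ((k : ℤ) - (l : ℤ)).natAbs

lemma dd_abs (k l : Fin (m + 1)) : (dd k l : ℚ) = |nd k - nd l| := by
  unfold dd nd
  rw [Nat.cast_natAbs, Int.cast_abs]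
  push_cast
  rfl

lemma dd_pos {k l : Fin (m + 1)} (h : k ≠ l) : 1 ≤ dd k l := by
  unfold dd
  have : (k : ℤ) ≠ (l : ℤ) := fun h' => h (Fin.ext (by exact_mod_cast h'))
  omega

lemma dd_le (k l : Fin (m + 1)) : dd k l ≤ m := by
  unfold dd
  have := k.2
  have := l.2
  omega

lemma G_intP (a : ℚ) (c ℓ : ℕ) (hc : 1 ≤ c) (hac : (c : ℚ) = |a|) (hcl : c ∣ ℓ) : IntP c ℓ (G a) := by
  intro i
  obtain ⟨q, rfl⟩ := hcl
  have hc0 : (c : ℚ) ≠ 0 := by positivity
  rcases abs_choice a with h | h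
  · rw [h] at hac
    refine ⟨(-1) ^ i * (q : ℤ) ^ i, ?_⟩
    rw [G, PowerSeries.coeff_mk, ← hac]
    push_cast
    rw [mul_pow]
    field_simp
    ring
  · rw [h] at hac
    have ha : a = -c := by linarith
    refine ⟨-(q : ℤ) ^ i, ?_⟩
    rw [G, PowerSeries.coeff_mk, ha]
    push_cast
    rw [mul_pow, pow_succ, neg_pow (c : ℚ) i]
    have h1 : ((-1 : ℚ)) ^ i ≠ 0 := by positivity
    field_simp

lemma G_sizeP (a : ℚ) (c : ℕ) (hc : 1 ≤ c) (hac : (c : ℚ) = |a|) : SizeP (1 / c) 1 (G a) := by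
  intro i
  have hc0 : (0 : ℚ) < c := by positivity
  rw [G, PowerSeries.coeff_mk, abs_div, abs_pow, abs_pow, abs_neg, abs_one, one_pow, ← hac]
  push_cast
  rw [one_pow, mul_one, pow_succ]
  have h1 : (1 : ℚ) ≤ (c : ℚ) ^ i := one_le_pow₀ (by exact_mod_cast hc)
  apply one_div_le_one_div_of_le hc0
  nlinarith

lemma prod_dd (k : Fin (m + 1)) :
    ∏ l ∈ univ.erase k, dd k l = (k : ℕ).factorial * (m - k).factorial := by
  have h1 : ∏ l ∈ univ.erase k, dd k l =
      ∏ l ∈ (range (m + 1)).erase k, ((k : ℤ) - (l : ℤ)).natAbs := by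
    refine Finset.prod_bij (fun l _ => (l : ℕ)) ?_ ?_ ?_ ?_
    · intro l hl
      rw [Finset.mem_erase] at hl ⊢
      exact ⟨fun h => hl.1 (Fin.ext h), Finset.mem_range.2 l.2⟩
    · intro a _ b _ h
      exact Fin.ext h
    · intro b hb
      rw [Finset.mem_erase, Finset.mem_range] at hb
      exact ⟨⟨b, hb.2⟩, Finset.mem_erase.2 ⟨fun h => hb.1 (by rw [← h]), Finset.mem_univ _⟩, rfl⟩
    · intro l _
      rfl
  rw [h1]
  have hk := k.2
  have h2 : (range (m + 1)).erase k = range (k : ℕ) ∪ Ico ((k : ℕ) + 1) (m + 1) := by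
    ext x
    simp only [Finset.mem_erase, Finset.mem_range, Finset.mem_union, Finset.mem_Ico]
    omega
  have h3 : Disjoint (range (k : ℕ)) (Ico ((k : ℕ) + 1) (m + 1)) := by
    rw [Finset.disjoint_left]
    intro x hx hx'
    rw [Finset.mem_range] at hx
    rw [Finset.mem_Ico] at hx'
    omega
  rw [h2, Finset.prod_union h3]
  congr 1
  · rw [← Finset.prod_range_reflect]
    rw [← Finset.prod_range_add_one_eq_factorial]
    refine Finset.prod_congr rfl fun i hi => ?_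
    rw [Finset.mem_range] at hi
    omega
  · rw [Finset.prod_Ico_eq_prod_range, ← Finset.prod_range_add_one_eq_factorial]
    rw [show m + 1 - ((k : ℕ) + 1) = m - k by omega]
    refine Finset.prod_congr rfl fun i _ => ?_
    push_cast
    omega

/-- the multiplicities -/
def ee (n : ℕ) (l₀ : Fin (m + 1)) (l : Fin (m + 1)) : ℕ := n + if l = l₀ then 1 else 0

lemma sum_ee (n : ℕ) (l₀ : Fin (m + 1)) : ∑ l, ee n l₀ l = (m + 1) * n + 1 := by
  unfold ee
  rw [Finset.sum_add_distrib, Finset.sum_const, Finset.card_univ, Fintype.card_fin,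
    Finset.sum_ite_eq' univ l₀, if_pos (Finset.mem_univ _), smul_eq_mul]

lemma dvd_lcm (a : ℕ) (h1 : 1 ≤ a) (h2 : a ≤ m) : a ∣ Nat.lcmUpto m := by
  unfold Nat.lcmUpto
  exact Finset.dvd_lcm (f := id) (Finset.mem_Icc.2 ⟨h1, h2⟩)

theorem gk_coeff (n : ℕ) (l₀ k : Fin (m + 1)) (i : ℕ) (hi : i ≤ n) :
    ∃ z : ℤ, ((m.factorial : ℚ) ^ n * (Nat.lcmUpto m : ℚ) ^ (n + 1)) *
        PowerSeries.coeff i (gk (ee n l₀) k) = z ∧
      |(z : ℚ)| ≤ 2 ^ (m * n) * (Nat.lcmUpto m : ℚ) ^ (n + 1) * (((m : ℚ) + 1) * (n + 1)) ^ n := by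
  obtain ⟨ℓ, hℓ⟩ : ∃ ℓ, ℓ = Nat.lcmUpto m := ⟨_, rfl⟩
  have hℓ1 : 1 ≤ ℓ := by rw [hℓ]; exact Nat.lcmUpto_pos m
  rw [← hℓ]
  have hI : IntP (∏ l ∈ univ.erase k, dd k l ^ ee n l₀ l) ℓ (gk (ee n l₀) k) := by
    unfold gk
    refine IntP.prod _ _ _ _ fun l hl => ?_
    have hne := (Finset.ne_of_mem_erase hl).symm
    refine (G_intP _ _ _ (dd_pos hne) (dd_abs k l) ?_).pow _
    rw [hℓ]
    exact dvd_lcm _ (dd_pos hne) (dd_le k l)
  have hS : SizeP (∏ l ∈ univ.erase k, (1 / (dd k l : ℚ)) ^ ee n l₀ l)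
      (∑ l ∈ univ.erase k, ee n l₀ l * 1) (gk (ee n l₀) k) := by
    unfold gk
    refine SizeP.prod _ _ _ _ (fun l _ => by positivity) fun l hl => ?_
    have hne := (Finset.ne_of_mem_erase hl).symm
    exact (G_sizeP _ _ (dd_pos hne) (dd_abs k l)).pow (by positivity) _
  -- the product
  obtain ⟨w, hw⟩ : ∃ w : ℕ, w = if k = l₀ then 1 else dd k l₀ := ⟨_, rfl⟩
  have hprod : ∏ l ∈ univ.erase k, dd k l ^ ee n l₀ l =
      ((k : ℕ).factorial * (m - k).factorial) ^ n * w := by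
    rw [← prod_dd, ← Finset.prod_pow]
    unfold ee
    have h1 : ∀ l ∈ univ.erase k, dd k l ^ (n + if l = l₀ then 1 else 0) =
        dd k l ^ n * (if l = l₀ then dd k l else 1) := by
      intro l _
      rw [pow_add]
      split_ifs <;> simp
    rw [Finset.prod_congr rfl h1, Finset.prod_mul_distrib, Finset.prod_ite_eq' (univ.erase k) l₀]
    congr 1
    rw [hw]
    by_cases h : k = l₀
    · rw [if_pos h, if_neg]
      rw [h]
      simp
    · rw [if_neg h, if_pos (Finset.mem_erase.2 ⟨Ne.symm h, Finset.mem_univ _⟩)]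
  have hw1 : 1 ≤ w := by
    rw [hw]
    split_ifs with h
    · exact le_rfl
    · exact dd_pos h
  have hwl : w ∣ ℓ := by
    rw [hw, hℓ]
    split_ifs with h
    · exact one_dvd _
    · exact dvd_lcm _ (dd_pos h) (dd_le _ _)
  have hkm : (k : ℕ) ≤ m := by have := k.2; omega
  have hch : (k : ℕ).factorial * (m - k).factorial * m.choose k = m.factorial := by
    have := Nat.choose_mul_factorial_mul_factorial hkm
    rw [← this]; ring
  obtain ⟨q, hq⟩ := hwl
  obtain ⟨z, hz⟩ := hI i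
  rw [hprod] at hz
  refine ⟨z * ((m.choose k) ^ n * q * ℓ ^ (n - i) : ℕ), ?_, ?_⟩
  · have e1 : ((m.factorial : ℚ) ^ n * (ℓ : ℚ) ^ (n + 1)) =
        ((((k : ℕ).factorial * (m - k).factorial) ^ n * w : ℕ) : ℚ) * (ℓ : ℚ) ^ i *
          (((m.choose k) ^ n * q * ℓ ^ (n - i) : ℕ) : ℚ) := by
      rw [← hch]
      have e2 : (ℓ : ℚ) ^ (n + 1) = (ℓ : ℚ) ^ i * (ℓ : ℚ) ^ (n - i) * ((w : ℚ) * q) := by
        rw [← pow_add, show i + (n - i) = n by omega, pow_succ]
        congr 1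
        rw [hq]; push_cast; ring
      rw [e2]
      push_cast
      rw [mul_pow]
      ring
    rw [e1]
    push_cast at hz ⊢
    rw [← hz]
    ring
  · have hb := hS i
    have hprodQ : (∏ l ∈ univ.erase k, (1 / (dd k l : ℚ)) ^ ee n l₀ l) =
        1 / ((((k : ℕ).factorial * (m - k).factorial) ^ n * w : ℕ) : ℚ) := by
      rw [← hprod]
      push_cast
      rw [one_div, ← Finset.prod_inv_distrib]
      refine Finset.prod_congr rfl fun l _ => ?_
      rw [one_div, inv_pow]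
    rw [hprodQ] at hb
    have hE : ((∑ l ∈ univ.erase k, ee n l₀ l * 1 : ℕ) : ℚ) ≤ ((m : ℚ) + 1) * (n + 1) := by
      have h1 : ∑ l ∈ univ.erase k, ee n l₀ l * 1 ≤ (m + 1) * (n + 1) := by
        calc ∑ l ∈ univ.erase k, ee n l₀ l * 1 ≤ ∑ _l ∈ univ.erase k, (n + 1) := by
              refine Finset.sum_le_sum fun l _ => ?_
              unfold ee
              split_ifs <;> omega
          _ = (univ.erase k).card * (n + 1) := by rw [Finset.sum_const, smul_eq_mul]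
          _ ≤ (m + 1) * (n + 1) := by
              have : (univ.erase k).card ≤ m + 1 := (Finset.card_le_univ _).trans (by simp)
              exact Nat.mul_le_mul_right _ this
      exact_mod_cast h1
    have hD : (0 : ℚ) < ((((k : ℕ).factorial * (m - k).factorial) ^ n * w : ℕ) : ℚ) := by
      have : 0 < ((k : ℕ).factorial * (m - k).factorial) ^ n * w := by positivity
      exact_mod_cast this
    -- |z|
    have hz2 : |(z : ℚ)| ≤ (ℓ : ℚ) ^ i * (((m : ℚ) + 1) * (n + 1)) ^ i := by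
      rw [← hz, abs_mul, abs_mul, Nat.abs_cast, abs_pow, Nat.abs_cast]
      calc ((((k : ℕ).factorial * (m - k).factorial) ^ n * w : ℕ) : ℚ) * (ℓ : ℚ) ^ i *
            |PowerSeries.coeff i (gk (ee n l₀) k)|
          ≤ ((((k : ℕ).factorial * (m - k).factorial) ^ n * w : ℕ) : ℚ) * (ℓ : ℚ) ^ i *
            (1 / ((((k : ℕ).factorial * (m - k).factorial) ^ n * w : ℕ) : ℚ) *
              (((m : ℚ) + 1) * (n + 1)) ^ i) := by
            gcongr
            refine hb.trans ?_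
            gcongr
        _ = _ := by
            field_simp
    have hC : ((m.choose k : ℕ) : ℚ) ≤ 2 ^ m := by
      exact_mod_cast Nat.choose_le_two_pow m k
    have hqℓ : (q : ℚ) ≤ ℓ := by
      have : q ≤ ℓ := by
        rw [hq]; exact Nat.le_mul_of_pos_left q hw1
      exact_mod_cast this
    have hone : (1 : ℚ) ≤ ((m : ℚ) + 1) * (n + 1) := by
      have : (0 : ℚ) ≤ m := by positivity
      have : (0 : ℚ) ≤ n := by positivity
      nlinarith
    push_cast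
    rw [abs_mul, abs_of_nonneg (show (0 : ℚ) ≤ (m.choose k : ℚ) ^ n * q * (ℓ : ℚ) ^ (n - i) by positivity)]
    calc |(z : ℚ)| * ((m.choose k : ℚ) ^ n * q * (ℓ : ℚ) ^ (n - i))
        ≤ ((ℓ : ℚ) ^ i * (((m : ℚ) + 1) * (n + 1)) ^ n) * ((2 ^ m) ^ n * ℓ * (ℓ : ℚ) ^ (n - i)) := by
          have : (((m : ℚ) + 1) * (n + 1)) ^ i ≤ (((m : ℚ) + 1) * (n + 1)) ^ n :=
            pow_le_pow_right₀ hone hi
          have h3 : |(z : ℚ)| ≤ (ℓ : ℚ) ^ i * (((m : ℚ) + 1) * (n + 1)) ^ n := hz2.trans (by gcongr)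
          gcongr
      _ = _ := by
          rw [← pow_mul, pow_succ]
          have : (ℓ : ℚ) ^ n = (ℓ : ℚ) ^ i * (ℓ : ℚ) ^ (n - i) := by
            rw [← pow_add]; congr 1; omega
          rw [this]
          ring

end Pool.Agent.TH456.TM
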