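import Pool.Agent.TH456.TM.Coef

/-!
# The determinant of the Hermite–Padé approximants
-/

set_option autoImplicit false

namespace Pool.Agent.TH456.TM

open Polynomial Finset

variable {m : ℕ}

/-- the polynomials `A_k` -/
noncomputable def Ak (n : ℕ) (l₀ k : Fin (m + 1)) : ℚ[X] :=
  ∑ i ∈ range (ee n l₀ k),
    C (PowerSeries.coeff (ee n l₀ k - 1 - i) (gk (ee n l₀) k) / i.factorial) * X ^ i

lemma Ak_coeff (n : ℕ) (l₀ k : Fin (m + 1)) (j : ℕ) : (Ak n l₀ k).coeff j =
    if j < ee n l₀ k then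
      PowerSeries.coeff (ee n l₀ k - 1 - j) (gk (ee n l₀) k) / j.factorial else 0 := by
  unfold Ak
  rw [finsetSum_coeff]
  simp only [coeff_C_mul, coeff_X_pow, mul_ite, mul_one, mul_zero]
  rw [Finset.sum_ite_eq (range (ee n l₀ k)) j]
  simp only [Finset.mem_range]

lemma ee_pos {n : ℕ} (hn : 1 ≤ n) (l₀ k : Fin (m + 1)) : 1 ≤ ee n l₀ k := by
  unfold ee; omega

lemma Ak_natDegree (n : ℕ) (l₀ k : Fin (m + 1)) : (Ak n l₀ k).natDegree ≤ ee n l₀ k - 1 := by
  rw [natDegree_le_iff_coeff_eq_zero]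
  intro j hj
  rw [Ak_coeff, if_neg (by omega)]

/-- `e^(k z)` -/
noncomputable def Ek (k : Fin (m + 1)) : PowerSeries ℚ := PowerSeries.rescale (nd k) (PowerSeries.exp ℚ)

lemma Ek_coeff (k : Fin (m + 1)) (t : ℕ) : PowerSeries.coeff t (Ek k) = nd k ^ t / t.factorial := by
  unfold Ek
  rw [PowerSeries.coeff_rescale, PowerSeries.coeff_exp]
  simp
  ring

/-- the remainder -/
noncomputable def Rl (n : ℕ) (l₀ : Fin (m + 1)) : PowerSeries ℚ :=
  ∑ k, ((Ak n l₀ k : ℚ[X]) : PowerSeries ℚ) * Ek k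

lemma Rl_coeff (n : ℕ) (l₀ : Fin (m + 1)) (t : ℕ) :
    PowerSeries.coeff t (Rl n l₀) = Lf (ee n l₀) t / t.factorial := by
  unfold Rl Lf
  rw [map_sum, Finset.sum_div]
  refine Finset.sum_congr rfl fun k _ => ?_
  rw [PowerSeries.coeff_mul, Finset.Nat.sum_antidiagonal_eq_sum_range_succ
    (fun i j => PowerSeries.coeff i ((Ak n l₀ k : ℚ[X]) : PowerSeries ℚ) * PowerSeries.coeff j (Ek k)),
    Finset.sum_div]
  have h1 : ∀ i ∈ range t.succ, PowerSeries.coeff i ((Ak n l₀ k : ℚ[X]) : PowerSeries ℚ) *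
      PowerSeries.coeff (t - i) (Ek k) = if i < ee n l₀ k then
        PowerSeries.coeff (ee n l₀ k - 1 - i) (gk (ee n l₀) k) *
          (t.choose i * nd k ^ (t - i)) / t.factorial else 0 := by
    intro i hi
    have hit : i ≤ t := by rw [Finset.mem_range] at hi; omega
    rw [Polynomial.coeff_coe, Ak_coeff, Ek_coeff]
    split_ifs
    · have h2 : ((t.choose i : ℕ) : ℚ) = t.factorial / (i.factorial * (t - i).factorial) :=
        Nat.cast_choose ℚ hit
      rw [h2]
      have h3 : (i.factorial : ℚ) ≠ 0 := by positivity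
      have h4 : ((t - i).factorial : ℚ) ≠ 0 := by positivity
      have h5 : (t.factorial : ℚ) ≠ 0 := by positivity
      field_simp
    · rw [zero_mul]
  rw [Finset.sum_congr rfl h1, ← Finset.sum_filter]
  have h2 : (range t.succ).filter (fun i => i < ee n l₀ k) =
      (range (ee n l₀ k)).filter (fun i => i < t + 1) := by
    ext x
    simp only [Finset.mem_filter, Finset.mem_range]
    omega
  rw [h2, Finset.sum_filter]
  refine Finset.sum_congr rfl fun i _ => ?_
  split_ifs with h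
  · rfl
  · rw [Nat.choose_eq_zero_of_lt (by omega)]
    simp

/-- the matrix -/
noncomputable def Mat (m n : ℕ) : Matrix (Fin (m + 1)) (Fin (m + 1)) ℚ[X] :=
  Matrix.of fun l k => Ak n l k

lemma Rl_dvd {n : ℕ} (hn : 1 ≤ n) (l₀ : Fin (m + 1)) :
    (PowerSeries.X : PowerSeries ℚ) ^ ((m + 1) * n) ∣ Rl n l₀ := by
  rw [PowerSeries.X_pow_dvd_iff]
  intro t ht
  rw [Rl_coeff, Lf_zero _ (ee_pos hn l₀) t (by rw [sum_ee]; omega), zero_div]

lemma det_dvd {n : ℕ} (hn : 1 ≤ n) :
    (PowerSeries.X : PowerSeries ℚ) ^ ((m + 1) * n) ∣ (((Mat m n).det : ℚ[X]) : PowerSeries ℚ) := by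
  set φ := Polynomial.coeToPowerSeries.ringHom (R := ℚ) with hφ
  have h1 : (((Mat m n).det : ℚ[X]) : PowerSeries ℚ) = (φ.mapMatrix (Mat m n)).det := by
    rw [← RingHom.map_det]
    rfl
  set Mφ := φ.mapMatrix (Mat m n) with hMφ
  have h2 : Mφ.mulVec (fun k => Ek k) = fun l => Rl n l := by
    ext1 l
    rfl
  have h3 : (Mφ.adjugate).mulVec (Mφ.mulVec (fun k => Ek k)) = Mφ.det • (fun k => Ek k) := by
    rw [Matrix.mulVec_mulVec, Matrix.adjugate_mul, Matrix.smul_mulVec, Matrix.one_mulVec]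
  have h4 := congrFun h3 0
  rw [h2] at h4
  have h5 : Ek (0 : Fin (m + 1)) = 1 := by
    ext t
    rw [Ek_coeff, PowerSeries.coeff_one]
    rcases t with _ | t
    · simp
    · simp
  rw [Pi.smul_apply, h5, smul_eq_mul, mul_one] at h4
  rw [h1, ← h4]
  show _ ∣ ∑ l, Mφ.adjugate 0 l * Rl n l
  exact Finset.dvd_sum fun l _ => (Rl_dvd hn l).mul_left _

lemma gk_const (e : Fin (m + 1) → ℕ) (k : Fin (m + 1)) : PowerSeries.coeff 0 (gk e k) ≠ 0 := by
  intro h
  have h1 := congrArg (PowerSeries.coeff 0) (gk_mul e k)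
  rw [PowerSeries.coeff_mul] at h1
  simp [h] at h1

lemma det_coeff_top {n : ℕ} (hn : 1 ≤ n) : ((Mat m n).det).coeff ((m + 1) * n) ≠ 0 := by
  classical
  rw [Matrix.det_apply, finsetSum_coeff, Finset.sum_eq_single (1 : Equiv.Perm (Fin (m + 1)))]
  · rw [Equiv.Perm.sign_one, one_smul]
    have h1 := Polynomial.coeff_prod_of_natDegree_le (s := (univ : Finset (Fin (m + 1))))
      (fun i => Mat m n ((1 : Equiv.Perm (Fin (m + 1))) i) i) n (fun i _ => by
        refine (Ak_natDegree n _ _).trans ?_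
        unfold ee
        split_ifs <;> omega)
    rw [Finset.card_univ, Fintype.card_fin] at h1
    rw [h1, Finset.prod_ne_zero_iff]
    intro i _
    show (Ak n i i).coeff n ≠ 0
    have hee : ee n i i = n + 1 := by unfold ee; rw [if_pos rfl]
    rw [Ak_coeff, hee, if_pos (by omega), show n + 1 - 1 - n = 0 by omega]
    exact div_ne_zero (gk_const _ _) (by positivity)
  · intro σ _ hσ
    rw [coeff_smul]
    have : (∏ i, Mat m n (σ i) i).coeff ((m + 1) * n) = 0 := by
      apply coeff_eq_zero_of_natDegree_lt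
      refine lt_of_le_of_lt (natDegree_prod_le _ _) ?_
      have h0 : ∑ _i : Fin (m + 1), n = (m + 1) * n := by
        rw [Finset.sum_const, Finset.card_univ, Fintype.card_fin, smul_eq_mul]
      rw [← h0]
      obtain ⟨j, hj⟩ : ∃ j, σ j ≠ j := by
        by_contra h
        push Not at h
        exact hσ (Equiv.ext h)
      refine Finset.sum_lt_sum (fun i _ => ?_) ⟨j, Finset.mem_univ _, ?_⟩
      · refine (Ak_natDegree n _ _).trans ?_
        unfold ee
        split_ifs <;> omega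
      · refine lt_of_le_of_lt (Ak_natDegree n _ _) ?_
        unfold ee
        rw [if_neg (Ne.symm hj)]
        omega
    rw [this, smul_zero]
  · intro h; exact absurd (Finset.mem_univ _) h

lemma det_natDegree {n : ℕ} (hn : 1 ≤ n) : ((Mat m n).det).natDegree ≤ (m + 1) * n := by
  classical
  rw [Matrix.det_apply]
  refine natDegree_sum_le_of_forall_le _ _ fun σ _ => ?_
  refine (natDegree_smul_le _ _).trans ((natDegree_prod_le _ _).trans ?_)
  have h0 : ∑ _i : Fin (m + 1), n = (m + 1) * n := by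
    rw [Finset.sum_const, Finset.card_univ, Fintype.card_fin, smul_eq_mul]
  rw [← h0]
  refine Finset.sum_le_sum fun i _ => (Ak_natDegree n _ _).trans ?_
  unfold ee
  split_ifs <;> omega

theorem det_eq {n : ℕ} (hn : 1 ≤ n) : ∃ c : ℚ, c ≠ 0 ∧ (Mat m n).det = C c * X ^ ((m + 1) * n) := by
  refine ⟨((Mat m n).det).coeff ((m + 1) * n), det_coeff_top hn, ?_⟩
  ext t
  rw [coeff_C_mul, coeff_X_pow]
  split_ifs with h
  · rw [h, mul_one]
  · rw [mul_zero]
    rcases lt_or_gt_of_ne h with h' | h'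
    · have h1 := (PowerSeries.X_pow_dvd_iff).1 (det_dvd (m := m) hn) t h'
      rwa [Polynomial.coeff_coe] at h1
    · exact coeff_eq_zero_of_natDegree_lt (lt_of_le_of_lt (det_natDegree hn) h')

/-- **Non-vanishing** -/
theorem nonvanish {n : ℕ} (hn : 1 ≤ n) (α : ℂ) (hα : α ≠ 0) (v : Fin (m + 1) → ℂ) (hv : v ≠ 0) :
    ∃ l : Fin (m + 1), ∑ k, aeval α (Ak n l k) * v k ≠ 0 := by
  by_contra h
  push Not at h
  obtain ⟨c, hc, hdet⟩ := det_eq (m := m) hn
  set φ : ℚ[X] →+* ℂ := (aeval α).toRingHom with hφ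
  have h1 : (φ.mapMatrix (Mat m n)).det = 0 := by
    rw [← Matrix.exists_mulVec_eq_zero_iff]
    refine ⟨v, hv, ?_⟩
    ext l
    exact h l
  rw [← RingHom.map_det, hdet] at h1
  have h2 : φ (C c * X ^ ((m + 1) * n)) = (c : ℂ) * α ^ ((m + 1) * n) := by
    show aeval α (C c * X ^ ((m + 1) * n)) = _
    rw [map_mul, aeval_C, map_pow, aeval_X]
    rfl
  rw [h2] at h1
  rcases mul_eq_zero.1 h1 with h3 | h3
  · exact hc (by exact_mod_cast h3)
  · exact hα ((pow_eq_zero_iff (Nat.mul_pos m.succ_pos hn).ne').1 h3)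

end Pool.Agent.TH456.TM
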