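import Pool.Agent.TH456.TM.Pair

/-!
# Families of translates and of multiples of one number
-/

set_option autoImplicit false

namespace Pool.Agent.TH456.TM

open Polynomial Finset
open Pool.Agent.TH647.NR (count_of_gap)

/-! ## The polynomial `Q(x y)` -/

/-- the polynomial `Q(x y)` -/
noncomputable def mulP (Q : ℤ[X]) : ℤ[X][X] :=
  ∑ i ∈ range (Q.natDegree + 1), monomial i (C (Q.coeff i) * X ^ i)

lemma mulP_coeff (Q : ℤ[X]) (j : ℕ) : (mulP Q).coeff j = C (Q.coeff j) * X ^ j := by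
  unfold mulP
  rw [finsetSum_coeff]
  simp only [coeff_monomial]
  rw [Finset.sum_ite_eq' (range (Q.natDegree + 1)) j (fun i => C (Q.coeff i) * X ^ i)]
  split_ifs with h
  · rfl
  · rw [mem_range] at h
    rw [coeff_eq_zero_of_natDegree_lt (by omega), C_0, zero_mul]

lemma mulP_natDegree (Q : ℤ[X]) : (mulP Q).natDegree ≤ Q.natDegree := by
  rw [natDegree_le_iff_coeff_eq_zero]
  intro N hN
  rw [mulP_coeff, coeff_eq_zero_of_natDegree_lt hN, C_0, zero_mul]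

lemma vl_mulP (x s : ℂ) (Q : ℤ[X]) : vl x s (mulP Q) = aeval (x * s) Q := by
  unfold vl mulP
  rw [Polynomial.map_sum, eval_finsetSum, aeval_eq_sum_range]
  refine Finset.sum_congr rfl fun i _ => ?_
  rw [map_monomial, eval_monomial, map_mul, map_pow]
  simp only [σx, AlgHom.toRingHom_eq_coe, RingHom.coe_coe, aeval_X, eq_intCast, map_intCast,
    zsmul_eq_mul]
  rw [mul_pow]
  ring

/-! ## The polynomial `Q(x + y)` -/

/-- the polynomial `Q(x + y)` -/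
noncomputable def addP (Q : ℤ[X]) : ℤ[X][X] := taylor (X : ℤ[X]) (Q.map C)

lemma addP_coeff (Q : ℤ[X]) (j : ℕ) : (addP Q).coeff j = hasseDeriv j Q := by
  unfold addP
  rw [taylor_coeff]
  have h1 : hasseDeriv j (Q.map (C : ℤ →+* ℤ[X])) = (hasseDeriv j Q).map C := by
    ext k
    simp [hasseDeriv_coeff]
  rw [h1, eval_map, eval₂_C_X]

lemma addP_natDegree (Q : ℤ[X]) : (addP Q).natDegree = Q.natDegree := by
  unfold addP
  rw [natDegree_taylor, natDegree_map_eq_of_injective C_injective]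

lemma vl_addP (x s : ℂ) (Q : ℤ[X]) : vl x s (addP Q) = aeval (x + s) Q := by
  unfold vl addP
  rw [taylor_apply, Polynomial.map_comp, eval_comp, Polynomial.map_map]
  have h1 : (σx x).comp (C : ℤ →+* ℤ[X]) = Int.castRingHom ℂ := by
    ext z
    simp
  have h2 : eval s (Polynomial.map (σx x) (X + C X)) = x + s := by
    simp [σx, add_comm]
  rw [h1, h2, eval_map, aeval_def]
  rfl

/-! ## Splitting off powers of `X` -/

lemma strip (d : ℕ) : ∀ P : ℤ[X], P ≠ 0 → P.natDegree ≤ d →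
    ∃ a ≤ d, ∃ P' : ℤ[X], P = X ^ a * P' ∧ P'.coeff 0 ≠ 0 := by
  induction d with
  | zero =>
    intro P hP hd
    refine ⟨0, le_rfl, P, by simp, fun h => hP ?_⟩
    rw [eq_C_of_natDegree_le_zero hd, h, C_0]
  | succ d ih =>
    intro P hP hd
    by_cases h0 : P.coeff 0 = 0
    · have h1 : P = X * divX P := by
        conv_lhs => rw [← divX_mul_X_add P, h0, C_0, add_zero]
        ring
      have h2 : divX P ≠ 0 := by
        intro h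
        rw [h, mul_zero] at h1
        exact hP h1
      obtain ⟨a, ha, P', hP', h3⟩ := ih (divX P) h2 (by
        rw [natDegree_divX_eq_natDegree_tsub_one]
        omega)
      refine ⟨a + 1, by omega, P', ?_, h3⟩
      rw [h1, hP']
      ring
    · exact ⟨0, by omega, P, by simp, h0⟩

/-! ## Multiples and translates -/

theorem mul_core (x : ℂ) (hx : MeasT x) (D : ℕ) :
    ∃ κ : ℝ, 0 < κ ∧ ∀ s : ℂ, s ≠ 0 → ∃ C : ℝ, 0 < C ∧ ∀ P Q : ℤ[X], P ≠ 0 → Q ≠ 0 →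
      P.natDegree ≤ D → Q.natDegree ≤ D → ∀ H : ℝ, 1 ≤ H → (∀ k, |((P.coeff k : ℤ) : ℝ)| ≤ H) →
      (∀ k, |((Q.coeff k : ℤ) : ℝ)| ≤ H) →
      C * H ^ (-κ) ≤ max ‖aeval s P‖ ‖aeval (x * s) Q‖ := by
  obtain ⟨κ, hκ, h⟩ := pairG x hx (D + 1) D (by omega)
  refine ⟨κ, hκ, fun s hs => ?_⟩
  obtain ⟨c, hc, h⟩ := h ‖s‖
  obtain ⟨μ, hμ⟩ : ∃ μ : ℝ, μ = (min 1 ‖s‖) ^ D := ⟨_, rfl⟩
  have hs0 : 0 < ‖s‖ := norm_pos_iff.2 hs
  have hm0 : 0 < min 1 ‖s‖ := lt_min one_pos hs0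
  have hμ0 : 0 < μ := by rw [hμ]; positivity
  have hμ1 : μ ≤ 1 := by rw [hμ]; exact pow_le_one₀ hm0.le (min_le_left _ _)
  refine ⟨μ * c, by positivity, ?_⟩
  intro P Q hP hQ hPD hQD H hH hPH hQH
  obtain ⟨a, ha, P', hPP', hP0⟩ := strip D P hP hPD
  have hP'0 : P' ≠ 0 := by
    intro h
    rw [h, coeff_zero] at hP0
    exact hP0 rfl
  have hP'D : P'.natDegree ≤ D := by
    have h1 : P.natDegree = a + P'.natDegree := by
      rw [hPP', natDegree_mul (pow_ne_zero _ X_ne_zero) hP'0, natDegree_X_pow]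
    omega
  have h1 := h s le_rfl P' (mulP Q) hP'0 (by omega) ((mulP_natDegree Q).trans (by omega))
    (fun j => by
      rw [mulP_coeff]
      by_cases hj : j ≤ Q.natDegree
      · exact (natDegree_C_mul_X_pow_le _ _).trans (hj.trans hQD)
      · rw [coeff_eq_zero_of_natDegree_lt (by omega), C_0, zero_mul, natDegree_zero]
        omega)
    (by
      intro α hα
      have hα0 : α ≠ 0 := by
        rintro rfl
        rw [aeval_def, eval₂_at_zero, eq_intCast, Int.cast_eq_zero] at hα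
        exact hP0 hα
      obtain ⟨y, hy⟩ : ∃ y : ℂ, aeval y Q ≠ 0 := by
        by_contra hcon
        push Not at hcon
        have hinj : Function.Injective (Int.castRingHom ℂ) := Int.cast_injective
        refine hQ ((Polynomial.map_eq_zero_iff hinj).1 (Polynomial.funext fun y => ?_))
        rw [eval_zero, eval_map]
        exact hcon y
      refine ⟨y / α, ?_⟩
      rw [vl_mulP, div_mul_cancel₀ _ hα0]
      exact hy) H hH
    (fun k => by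
      have h2 : P.coeff (k + a) = P'.coeff k := by rw [hPP', coeff_X_pow_mul]
      rw [← h2]
      exact hPH _)
    (fun j k => by
      rw [mulP_coeff, coeff_C_mul, coeff_X_pow]
      split_ifs
      · rw [mul_one]; exact hQH j
      · simp only [mul_zero, Int.cast_zero, abs_zero]; linarith)
  rw [vl_mulP] at h1
  have h2 : μ * ‖aeval s P'‖ ≤ ‖aeval s P‖ := by
    rw [hPP', map_mul, map_pow, aeval_X, norm_mul, norm_pow]
    have h3 : μ ≤ ‖s‖ ^ a := by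
      rw [hμ]
      calc (min 1 ‖s‖) ^ D ≤ (min 1 ‖s‖) ^ a :=
            pow_le_pow_of_le_one hm0.le (min_le_left _ _) ha
        _ ≤ ‖s‖ ^ a := pow_le_pow_left₀ hm0.le (min_le_right _ _) _
    gcongr
  have h3 : μ * ‖aeval (x * s) Q‖ ≤ ‖aeval (x * s) Q‖ := by
    have := norm_nonneg (aeval (x * s) Q)
    nlinarith
  calc μ * c * H ^ (-κ) = μ * (c * H ^ (-κ)) := by ring
    _ ≤ μ * max ‖aeval s P'‖ ‖aeval (x * s) Q‖ := by gcongr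
    _ = max (μ * ‖aeval s P'‖) (μ * ‖aeval (x * s) Q‖) := by rw [mul_max_of_nonneg _ _ hμ0.le]
    _ ≤ _ := max_le_max h2 h3

theorem add_core (x : ℂ) (hx : MeasT x) (D : ℕ) :
    ∃ κ : ℝ, 0 < κ ∧ ∀ T : ℝ, ∃ C : ℝ, 0 < C ∧ ∀ s : ℂ, ‖s‖ ≤ T → ∀ P Q : ℤ[X], P ≠ 0 → Q ≠ 0 →
      P.natDegree ≤ D → Q.natDegree ≤ D → ∀ H : ℝ, 1 ≤ H → (∀ k, |((P.coeff k : ℤ) : ℝ)| ≤ H) →
      (∀ k, |((Q.coeff k : ℤ) : ℝ)| ≤ H) →
      C * H ^ (-κ) ≤ max ‖aeval s P‖ ‖aeval (x + s) Q‖ := by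
  obtain ⟨κ, hκ, h⟩ := pairG x hx (D + 1) D (by omega)
  refine ⟨κ, hκ, fun T => ?_⟩
  obtain ⟨c, hc, h⟩ := h T
  obtain ⟨μ, hμ⟩ : ∃ μ : ℝ, μ = (2 ^ D : ℝ) ^ (-κ) := ⟨_, rfl⟩
  have hμ0 : 0 < μ := by rw [hμ]; positivity
  refine ⟨c * μ, by positivity, ?_⟩
  intro s hs P Q hP hQ hPD hQD H hH hPH hQH
  have h2D : (1 : ℝ) ≤ 2 ^ D := one_le_pow₀ (by norm_num)
  have h1 := h s hs P (addP Q) hP (by omega) (by rw [addP_natDegree]; omega)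
    (fun j => by
      rw [addP_coeff]
      exact (natDegree_hasseDeriv_le _ _).trans (by omega))
    (by
      intro α _
      obtain ⟨y, hy⟩ : ∃ y : ℂ, aeval y Q ≠ 0 := by
        by_contra hcon
        push Not at hcon
        have hinj : Function.Injective (Int.castRingHom ℂ) := Int.cast_injective
        refine hQ ((Polynomial.map_eq_zero_iff hinj).1 (Polynomial.funext fun y => ?_))
        rw [eval_zero, eval_map]
        exact hcon y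
      refine ⟨y - α, ?_⟩
      rw [vl_addP, sub_add_cancel]
      exact hy) (2 ^ D * H) (by nlinarith)
    (fun k => (hPH k).trans (by nlinarith))
    (fun j k => by
      rw [addP_coeff, hasseDeriv_coeff]
      by_cases hk : k + j ≤ Q.natDegree
      · push_cast
        rw [abs_mul, Nat.abs_cast]
        have h3 : ((k + j).choose j : ℝ) ≤ 2 ^ D := by
          have h4 : (k + j).choose j ≤ 2 ^ (k + j) := Nat.choose_le_two_pow _ _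
          have h5 : 2 ^ (k + j) ≤ 2 ^ D := Nat.pow_le_pow_right (by norm_num) (by omega)
          exact_mod_cast h4.trans h5
        have h4 := hQH (k + j)
        gcongr
      · rw [coeff_eq_zero_of_natDegree_lt (by omega)]
        simp only [mul_zero, Int.cast_zero, abs_zero]
        positivity)
  rw [vl_addP, Real.mul_rpow (by positivity) (by positivity), ← hμ, ← mul_assoc] at h1
  exact h1

/-! ## Irreducible polynomials in one variable -/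

/-- the largest absolute value of a coefficient of `P` -/
noncomputable def ht (P : ℤ[X]) : ℕ := P.support.sup fun i => (P.coeff i).natAbs

lemma le_ht (P : ℤ[X]) (i : ℕ) : |((P.coeff i : ℤ) : ℝ)| ≤ ht P := by
  have h1 : (P.coeff i).natAbs ≤ ht P := by
    by_cases h : P.coeff i = 0
    · rw [h]; simp
    · exact Finset.le_sup (f := fun i => (P.coeff i).natAbs) (mem_support_iff.2 h)
  rw [← Int.cast_abs, Int.abs_eq_natAbs]
  exact_mod_cast h1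

lemma ht_pos (P : ℤ[X]) (hP : P ≠ 0) : (1 : ℝ) ≤ ht P := by
  have h1 : P.leadingCoeff ≠ 0 := leadingCoeff_ne_zero.2 hP
  have h2 := le_ht P P.natDegree
  have h3 : (1 : ℝ) ≤ |((P.coeff P.natDegree : ℤ) : ℝ)| := by
    rw [← Int.cast_abs]
    exact_mod_cast Int.one_le_abs h1
  exact h3.trans h2

lemma fin_set1 (D : ℕ) (Y : ℝ) : {P : ℤ[X] | P.natDegree ≤ D ∧ (ht P : ℝ) ≤ Y}.Finite := by
  have hball : {v : Fin (D + 1) → ℤ | ‖v‖ ≤ |Y|}.Finite := by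
    have h1 : {v : Fin (D + 1) → ℤ | ‖v‖ ≤ |Y|} = Metric.closedBall 0 |Y| := by
      ext v; simp
    rw [h1]
    exact (isCompact_closedBall (0 : Fin (D + 1) → ℤ) |Y|).finite_of_discrete
  refine Set.Finite.of_injOn (f := fun (P : ℤ[X]) (j : Fin (D + 1)) => P.coeff (j : ℕ)) ?_ ?_ hball
  · rintro P ⟨h1, h3⟩
    show ‖_‖ ≤ |Y|
    refine (pi_norm_le_iff_of_nonneg (abs_nonneg _)).2 fun j => ?_
    rw [Int.norm_eq_abs]
    exact (le_ht P j).trans (h3.trans (le_abs_self _))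
  · rintro P ⟨h1, h3⟩ Q ⟨h1', h3'⟩ h
    ext j
    by_cases hj : j ≤ D
    · exact congrFun h ⟨j, by omega⟩
    · rw [coeff_eq_zero_of_natDegree_lt (p := P) (lt_of_le_of_lt h1 (by omega)),
        coeff_eq_zero_of_natDegree_lt (p := Q) (lt_of_le_of_lt h1' (by omega))]

/-- the irreducible polynomials of degree at most `D` with positive leading coefficient -/
def I1 (D : ℕ) : Set ℤ[X] := {P | Irreducible P ∧ P.natDegree ≤ D ∧ 0 < P.leadingCoeff}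

lemma no_common_root (D : ℕ) (P Q : ℤ[X]) (hP : P ∈ I1 D) (hQ : Q ∈ I1 D) (hne : P ≠ Q) (α : ℂ)
    (hα : aeval α P = 0) : aeval α Q ≠ 0 := by
  obtain ⟨hP1, hP2, hP3⟩ := hP
  obtain ⟨hQ1, hQ2, hQ3⟩ := hQ
  have hdeg : ∀ R : ℤ[X], R ≠ 0 → aeval α R = 0 → R.natDegree ≠ 0 := by
    intro R hR0 h hR
    rw [eq_C_of_natDegree_eq_zero hR] at h
    rw [aeval_C, eq_intCast, Int.cast_eq_zero] at h
    exact hR0 (by rw [eq_C_of_natDegree_eq_zero hR, h, C_0])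
  intro hα2
  have hPp := hP1.isPrimitive (hdeg P hP1.ne_zero hα)
  have hQp := hQ1.isPrimitive (hdeg Q hQ1.ne_zero hα2)
  have hP' := (IsPrimitive.Int.irreducible_iff_irreducible_map_cast hPp).1 hP1
  have hnd : ¬ P ∣ Q := by
    intro hd
    obtain ⟨u, hu⟩ := (hP1.dvd_irreducible_iff_associated hQ1).1 hd
    obtain ⟨r, hr, hru⟩ := Polynomial.isUnit_iff.1 u.isUnit
    rw [← hru] at hu
    rcases Int.isUnit_iff.1 hr with h | h
    · rw [h, C_1, mul_one] at hu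
      exact hne hu
    · have h2 : Q = -P := by
        rw [← hu, h]; simp
      rw [h2, leadingCoeff_neg] at hQ3
      linarith
  have hcop : IsCoprime (P.map (Int.castRingHom ℚ)) (Q.map (Int.castRingHom ℚ)) :=
    (hP'.coprime_iff_not_dvd).2 fun hd => hnd ((IsPrimitive.Int.dvd_iff_map_cast_dvd_map_cast P Q hPp).2 hd)
  obtain ⟨a, b, hab⟩ := hcop
  have h1 := congrArg (aeval α) hab
  have h3 : ∀ R : ℤ[X], aeval α (R.map (Int.castRingHom ℚ)) = aeval α R := by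
    intro R
    rw [aeval_def, aeval_def, eval₂_map]
    congr 1
  rw [map_add, map_mul, map_mul, h3, h3, hα, hα2, mul_zero, mul_zero, add_zero, map_one] at h1
  exact zero_ne_one h1

theorem same_core (x : ℂ) (hx : MeasT x) (D : ℕ) :
    ∃ κ : ℝ, 0 < κ ∧ ∀ T : ℝ, ∃ C : ℝ, 0 < C ∧ ∀ s : ℂ, ‖s‖ ≤ T → ∀ P ∈ I1 D, ∀ Q ∈ I1 D, P ≠ Q →
      ∀ H : ℝ, (ht P : ℝ) ≤ H → (ht Q : ℝ) ≤ H → C * H ^ (-κ) ≤ max ‖aeval s P‖ ‖aeval s Q‖ := by
  obtain ⟨κ, hκ, h⟩ := pairG x hx (D + 1) 0 (by omega)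
  refine ⟨κ, hκ, fun T => ?_⟩
  obtain ⟨c, hc, h⟩ := h T
  refine ⟨c, hc, ?_⟩
  intro s hs P hP Q hQ hne H hPH hQH
  have hH : 1 ≤ H := (ht_pos P hP.1.ne_zero).trans hPH
  have h1 := h s hs P (Q.map C) hP.1.ne_zero (by have := hP.2.1; omega)
    (natDegree_map_le.trans (by have := hQ.2.1; omega))
    (fun j => by rw [coeff_map, natDegree_C])
    (fun α hα => ⟨0, by
      rw [vl_map_C]
      exact no_common_root D P Q hP hQ hne α hα⟩) H hH (fun k => (le_ht P k).trans hPH)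
    (fun j k => by
      rw [coeff_map, coeff_C]
      split_ifs
      · exact (le_ht Q j).trans hQH
      · simp only [Int.cast_zero, abs_zero]; linarith)
  rw [vl_map_C] at h1
  exact h1

/-! ## Families -/

lemma exists_pos_le {β : Type*} (S : Finset β) (C : β → ℝ) (h : ∀ b ∈ S, 0 < C b) :
    ∃ c : ℝ, 0 < c ∧ ∀ b ∈ S, c ≤ C b := by
  classical
  induction S using Finset.induction_on with
  | empty => exact ⟨1, one_pos, by simp⟩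
  | insert a S ha ih =>
    obtain ⟨c, hc, hcS⟩ := ih fun b hb => h b (Finset.mem_insert_of_mem hb)
    refine ⟨min c (C a), lt_min hc (h a (Finset.mem_insert_self _ _)), fun b hb => ?_⟩
    rcases Finset.mem_insert.1 hb with rfl | hb
    · exact min_le_right _ _
    · exact (min_le_left _ _).trans (hcS b hb)

lemma exists_le_ge {β : Type*} (S : Finset β) (C : β → ℝ) :
    ∃ c : ℝ, 0 < c ∧ ∀ b ∈ S, C b ≤ c := by
  classical
  induction S using Finset.induction_on with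
  | empty => exact ⟨1, one_pos, by simp⟩
  | insert a S ha ih =>
    obtain ⟨c, hc, hcS⟩ := ih
    refine ⟨max c (C a), lt_max_of_lt_left hc, fun b hb => ?_⟩
    rcases Finset.mem_insert.1 hb with rfl | hb
    · exact le_max_right _ _
    · exact (hcS b hb).trans (le_max_left _ _)

/-- the near relations of a family of numbers -/
def NearF {ι : Type*} (S : Finset ι) (v : ι → ℂ) (D : ℕ) (w : ℝ) : Set (ι × ℤ[X]) :=
  {p | p.1 ∈ S ∧ p.2 ∈ I1 D ∧ ‖aeval (v p.1) p.2‖ ≤ (ht p.2 : ℝ) ^ (-w)}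

/-- the near relations of a family are sparse -/
theorem sparse_fam {ι : Type*} (S : Finset ι) (v : ι → ℂ) (D : ℕ) (κ : ℝ) (hκ0 : 0 < κ)
    (hcore : ∃ C : ℝ, 0 < C ∧ ∀ i ∈ S, ∀ j ∈ S, ∀ P ∈ I1 D, ∀ Q ∈ I1 D, (i, P) ≠ (j, Q) →
      ∀ H : ℝ, (ht P : ℝ) ≤ H → (ht Q : ℝ) ≤ H → C * H ^ (-κ) ≤ max ‖aeval (v i) P‖ ‖aeval (v j) Q‖)
    (w ρ : ℝ) (hρ : 1 < ρ) (hρw : ρ < w / κ) :
    ∃ C : ℝ, ∀ X : ℝ, 3 ≤ X →
      {p ∈ NearF S v D w | (ht p.2 : ℝ) ≤ X}.Finite ∧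
      ({p ∈ NearF S v D w | (ht p.2 : ℝ) ≤ X}.ncard : ℝ) ≤
        Real.log (Real.log X) / Real.log ρ + C := by
  obtain ⟨C, hC, hcore⟩ := hcore
  have hw : 0 < w := by
    rw [lt_div_iff₀ hκ0] at hρw
    nlinarith
  refine count_of_gap _ (fun p : ι × ℤ[X] => (ht p.2 : ℝ)) (fun Y => ?_)
    (C ^ (1 / κ)) (w / κ) ρ (by positivity) hρ hρw ?_
  · refine ((Finset.finite_toSet S).prod (fin_set1 D Y)).subset ?_
    rintro ⟨i, P⟩ ⟨⟨h1, ⟨h3, h4, h5⟩, h6⟩, h7⟩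
    exact ⟨h1, h4, h7⟩
  · rintro ⟨i, P⟩ ⟨hi, hP, hPt⟩ ⟨j, Q⟩ ⟨hj, hQ, hQt⟩ hne hle h1
    obtain ⟨h₁, hh₁⟩ : ∃ h₁ : ℝ, h₁ = ht P := ⟨_, rfl⟩
    obtain ⟨h₂, hh₂⟩ : ∃ h₂ : ℝ, h₂ = ht Q := ⟨_, rfl⟩
    simp only [← hh₁, ← hh₂] at hle h1 hPt hQt ⊢
    have h₁0 : 0 < h₁ := by linarith
    have h₂0 : 0 < h₂ := by linarith
    have h2 := hcore i hi j hj P hP Q hQ hne h₂ (by rw [← hh₁]; exact hle)
      (by rw [← hh₂])
    have h3 : max ‖aeval (v i) P‖ ‖aeval (v j) Q‖ ≤ h₁ ^ (-w) :=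
      max_le hPt (hQt.trans (Real.rpow_le_rpow_of_nonpos h₁0 hle (by linarith)))
    have h4 : C * h₁ ^ w ≤ h₂ ^ κ := by
      have h5 : h₁ ^ (-w) * h₁ ^ w = 1 := by rw [← Real.rpow_add h₁0]; simp
      have h6 : h₂ ^ (-κ) * h₂ ^ κ = 1 := by rw [← Real.rpow_add h₂0]; simp
      calc C * h₁ ^ w = (C * h₂ ^ (-κ)) * (h₁ ^ w * h₂ ^ κ) := by
            calc C * h₁ ^ w = C * h₁ ^ w * (h₂ ^ (-κ) * h₂ ^ κ) := by rw [h6, mul_one]
              _ = _ := by ring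
        _ ≤ h₁ ^ (-w) * (h₁ ^ w * h₂ ^ κ) :=
            mul_le_mul_of_nonneg_right (h2.trans h3) (by positivity)
        _ = (h₁ ^ (-w) * h₁ ^ w) * h₂ ^ κ := by ring
        _ = _ := by rw [h5, one_mul]
    have h7 := Real.rpow_le_rpow (by positivity) h4 (show 0 ≤ 1 / κ by positivity)
    rw [Real.mul_rpow hC.le (by positivity), ← Real.rpow_mul h₁0.le,
      ← Real.rpow_mul h₂0.le, mul_one_div, mul_one_div, div_self hκ0.ne', Real.rpow_one] at h7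
    exact h7

/-- **Multiples of one number.** -/
theorem fam_mul {ι : Type*} (S : Finset ι) (u : ι → ℂ) (hu0 : ∀ i ∈ S, u i ≠ 0)
    (hu : ∀ i ∈ S, ∀ j ∈ S, i ≠ j → MeasT (u j / u i)) (x₀ : ℂ) (hx₀ : MeasT x₀) (D : ℕ) :
    ∃ κ : ℝ, 0 < κ ∧ ∀ s : ℂ, s ≠ 0 → ∃ C : ℝ, 0 < C ∧
      (∀ i ∈ S, ∀ j ∈ S, i ≠ j → ∀ P Q : ℤ[X], P ≠ 0 → Q ≠ 0 → P.natDegree ≤ D →
        Q.natDegree ≤ D → ∀ H : ℝ, (ht P : ℝ) ≤ H → (ht Q : ℝ) ≤ H →
        C * H ^ (-κ) ≤ max ‖aeval (s * u i) P‖ ‖aeval (s * u j) Q‖) ∧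
      (∀ i ∈ S, ∀ P ∈ I1 D, ∀ Q ∈ I1 D, P ≠ Q → ∀ H : ℝ, (ht P : ℝ) ≤ H → (ht Q : ℝ) ≤ H →
        C * H ^ (-κ) ≤ max ‖aeval (s * u i) P‖ ‖aeval (s * u i) Q‖) := by
  classical
  obtain ⟨κ₀, hκ₀, h₀⟩ := same_core x₀ hx₀ D
  have h1 : ∀ p : ι × ι, ∃ κ : ℝ, 0 < κ ∧ (p.1 ∈ S → p.2 ∈ S → p.1 ≠ p.2 →
      ∀ s : ℂ, s ≠ 0 → ∃ C : ℝ, 0 < C ∧ ∀ P Q : ℤ[X], P ≠ 0 → Q ≠ 0 →
      P.natDegree ≤ D → Q.natDegree ≤ D → ∀ H : ℝ, 1 ≤ H → (∀ k, |((P.coeff k : ℤ) : ℝ)| ≤ H) →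
      (∀ k, |((Q.coeff k : ℤ) : ℝ)| ≤ H) →
      C * H ^ (-κ) ≤ max ‖aeval (s * u p.1) P‖ ‖aeval (s * u p.2) Q‖) := by
    intro p
    by_cases hp : p.1 ∈ S ∧ p.2 ∈ S ∧ p.1 ≠ p.2
    · obtain ⟨κ, hκ, h⟩ := mul_core _ (hu p.1 hp.1 p.2 hp.2.1 hp.2.2) D
      refine ⟨κ, hκ, fun _ _ _ s hs => ?_⟩
      obtain ⟨C, hC, h⟩ := h (s * u p.1) (mul_ne_zero hs (hu0 _ hp.1))
      refine ⟨C, hC, fun P Q hP hQ hPD hQD H hH hPH hQH => ?_⟩
      have h2 := h P Q hP hQ hPD hQD H hH hPH hQH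
      have h3 : u p.2 / u p.1 * (s * u p.1) = s * u p.2 := by
        have := hu0 _ hp.1
        field_simp
      rwa [h3] at h2
    · exact ⟨1, one_pos, fun a b c => absurd ⟨a, b, c⟩ hp⟩
  choose κ' hκ' h1 using h1
  obtain ⟨κ₁, hκ₁, hκle⟩ := exists_le_ge (S ×ˢ S) κ'
  refine ⟨max κ₀ κ₁, lt_max_of_lt_left hκ₀, fun s hs => ?_⟩
  obtain ⟨B, hB, hBle⟩ := exists_le_ge S fun i => ‖s * u i‖
  obtain ⟨C₀, hC₀, h₀⟩ := h₀ B
  have h2 : ∀ p : ι × ι, ∃ C : ℝ, 0 < C ∧ (p.1 ∈ S → p.2 ∈ S → p.1 ≠ p.2 →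
      ∀ P Q : ℤ[X], P ≠ 0 → Q ≠ 0 →
      P.natDegree ≤ D → Q.natDegree ≤ D → ∀ H : ℝ, 1 ≤ H → (∀ k, |((P.coeff k : ℤ) : ℝ)| ≤ H) →
      (∀ k, |((Q.coeff k : ℤ) : ℝ)| ≤ H) →
      C * H ^ (-(κ' p)) ≤ max ‖aeval (s * u p.1) P‖ ‖aeval (s * u p.2) Q‖) := by
    intro p
    by_cases hp : p.1 ∈ S ∧ p.2 ∈ S ∧ p.1 ≠ p.2
    · obtain ⟨C, hC, h⟩ := h1 p hp.1 hp.2.1 hp.2.2 s hs
      exact ⟨C, hC, fun _ _ _ => h⟩
    · exact ⟨1, one_pos, fun a b c => absurd ⟨a, b, c⟩ hp⟩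
  choose C' hC' h2 using h2
  obtain ⟨C₁, hC₁, hCle⟩ := exists_pos_le (S ×ˢ S) C' (fun b _ => hC' b)
  have hmono : ∀ (κ C c H : ℝ), 1 ≤ H → 0 < c → c ≤ C → κ ≤ max κ₀ κ₁ →
      c * H ^ (-(max κ₀ κ₁)) ≤ C * H ^ (-κ) := by
    intro κ C c H hH hc hcC hκ
    have h3 : H ^ (-(max κ₀ κ₁)) ≤ H ^ (-κ) :=
      Real.rpow_le_rpow_of_exponent_le hH (by linarith)
    have h4 : 0 < H ^ (-(max κ₀ κ₁)) := by positivity
    have h5 : 0 ≤ C := hc.le.trans hcC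
    gcongr
  refine ⟨min C₀ C₁, lt_min hC₀ hC₁, ?_, ?_⟩
  · intro i hi j hj hij P Q hP hQ hPD hQD H hPH hQH
    have hH : 1 ≤ H := (ht_pos P hP).trans hPH
    refine le_trans ?_ (h2 (i, j) hi hj hij P Q hP hQ hPD hQD H hH
      (fun k => (le_ht P k).trans hPH) (fun k => (le_ht Q k).trans hQH))
    refine hmono _ _ _ _ hH (lt_min hC₀ hC₁) ?_ ?_
    · exact (min_le_right _ _).trans (hCle (i, j) (Finset.mem_product.2 ⟨hi, hj⟩))
    · exact (hκle (i, j) (Finset.mem_product.2 ⟨hi, hj⟩)).trans (le_max_right _ _)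
  · intro i hi P hP Q hQ hne H hPH hQH
    have hH : 1 ≤ H := (ht_pos P hP.1.ne_zero).trans hPH
    refine le_trans ?_ (h₀ (s * u i) (hBle i hi) P hP Q hQ hne H hPH hQH)
    exact hmono _ _ _ _ hH (lt_min hC₀ hC₁) (min_le_left _ _) (le_max_left _ _)

/-- **Translates of one number.** -/
theorem fam_add {ι : Type*} (S : Finset ι) (u : ι → ℂ)
    (hu : ∀ i ∈ S, ∀ j ∈ S, i ≠ j → MeasT (u j - u i)) (x₀ : ℂ) (hx₀ : MeasT x₀) (D : ℕ) :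
    ∃ κ : ℝ, 0 < κ ∧ ∀ T : ℝ, ∃ C : ℝ, 0 < C ∧ ∀ s : ℂ, ‖s‖ ≤ T →
      (∀ i ∈ S, ∀ j ∈ S, i ≠ j → ∀ P Q : ℤ[X], P ≠ 0 → Q ≠ 0 → P.natDegree ≤ D →
        Q.natDegree ≤ D → ∀ H : ℝ, (ht P : ℝ) ≤ H → (ht Q : ℝ) ≤ H →
        C * H ^ (-κ) ≤ max ‖aeval (s + u i) P‖ ‖aeval (s + u j) Q‖) ∧
      (∀ i ∈ S, ∀ P ∈ I1 D, ∀ Q ∈ I1 D, P ≠ Q → ∀ H : ℝ, (ht P : ℝ) ≤ H → (ht Q : ℝ) ≤ H →
        C * H ^ (-κ) ≤ max ‖aeval (s + u i) P‖ ‖aeval (s + u i) Q‖) := by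
  classical
  obtain ⟨κ₀, hκ₀, h₀⟩ := same_core x₀ hx₀ D
  have h1 : ∀ p : ι × ι, ∃ κ : ℝ, 0 < κ ∧ (p.1 ∈ S → p.2 ∈ S → p.1 ≠ p.2 →
      ∀ T : ℝ, ∃ C : ℝ, 0 < C ∧ ∀ s : ℂ, ‖s‖ ≤ T → ∀ P Q : ℤ[X], P ≠ 0 → Q ≠ 0 →
      P.natDegree ≤ D → Q.natDegree ≤ D → ∀ H : ℝ, 1 ≤ H → (∀ k, |((P.coeff k : ℤ) : ℝ)| ≤ H) →
      (∀ k, |((Q.coeff k : ℤ) : ℝ)| ≤ H) →
      C * H ^ (-κ) ≤ max ‖aeval (s + u p.1) P‖ ‖aeval (s + u p.2) Q‖) := by
    intro p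
    by_cases hp : p.1 ∈ S ∧ p.2 ∈ S ∧ p.1 ≠ p.2
    · obtain ⟨κ, hκ, h⟩ := add_core _ (hu p.1 hp.1 p.2 hp.2.1 hp.2.2) D
      refine ⟨κ, hκ, fun _ _ _ T => ?_⟩
      obtain ⟨C, hC, h⟩ := h (T + ‖u p.1‖)
      refine ⟨C, hC, fun s hs P Q hP hQ hPD hQD H hH hPH hQH => ?_⟩
      have h2 := h (s + u p.1) ((norm_add_le _ _).trans (by linarith)) P Q hP hQ hPD hQD H hH hPH hQH
      have h3 : u p.2 - u p.1 + (s + u p.1) = s + u p.2 := by ring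
      rwa [h3] at h2
    · exact ⟨1, one_pos, fun a b c => absurd ⟨a, b, c⟩ hp⟩
  choose κ' hκ' h1 using h1
  obtain ⟨κ₁, hκ₁, hκle⟩ := exists_le_ge (S ×ˢ S) κ'
  refine ⟨max κ₀ κ₁, lt_max_of_lt_left hκ₀, fun T => ?_⟩
  obtain ⟨B, hB, hBle⟩ := exists_le_ge S fun i => ‖u i‖
  obtain ⟨C₀, hC₀, h₀⟩ := h₀ (T + B)
  have h2 : ∀ p : ι × ι, ∃ C : ℝ, 0 < C ∧ (p.1 ∈ S → p.2 ∈ S → p.1 ≠ p.2 →
      ∀ s : ℂ, ‖s‖ ≤ T → ∀ P Q : ℤ[X], P ≠ 0 → Q ≠ 0 →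
      P.natDegree ≤ D → Q.natDegree ≤ D → ∀ H : ℝ, 1 ≤ H → (∀ k, |((P.coeff k : ℤ) : ℝ)| ≤ H) →
      (∀ k, |((Q.coeff k : ℤ) : ℝ)| ≤ H) →
      C * H ^ (-(κ' p)) ≤ max ‖aeval (s + u p.1) P‖ ‖aeval (s + u p.2) Q‖) := by
    intro p
    by_cases hp : p.1 ∈ S ∧ p.2 ∈ S ∧ p.1 ≠ p.2
    · obtain ⟨C, hC, h⟩ := h1 p hp.1 hp.2.1 hp.2.2 T
      exact ⟨C, hC, fun _ _ _ => h⟩
    · exact ⟨1, one_pos, fun a b c => absurd ⟨a, b, c⟩ hp⟩
  choose C' hC' h2 using h2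
  obtain ⟨C₁, hC₁, hCle⟩ := exists_pos_le (S ×ˢ S) C' (fun b _ => hC' b)
  have hmono : ∀ (κ C c H : ℝ), 1 ≤ H → 0 < c → c ≤ C → κ ≤ max κ₀ κ₁ →
      c * H ^ (-(max κ₀ κ₁)) ≤ C * H ^ (-κ) := by
    intro κ C c H hH hc hcC hκ
    have h3 : H ^ (-(max κ₀ κ₁)) ≤ H ^ (-κ) :=
      Real.rpow_le_rpow_of_exponent_le hH (by linarith)
    have h4 : 0 < H ^ (-(max κ₀ κ₁)) := by positivity
    have h5 : 0 ≤ C := hc.le.trans hcC
    gcongr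
  refine ⟨min C₀ C₁, lt_min hC₀ hC₁, fun s hs => ⟨?_, ?_⟩⟩
  · intro i hi j hj hij P Q hP hQ hPD hQD H hPH hQH
    have hH : 1 ≤ H := (ht_pos P hP).trans hPH
    refine le_trans ?_ (h2 (i, j) hi hj hij s hs P Q hP hQ hPD hQD H hH
      (fun k => (le_ht P k).trans hPH) (fun k => (le_ht Q k).trans hQH))
    refine hmono _ _ _ _ hH (lt_min hC₀ hC₁) ?_ ?_
    · exact (min_le_right _ _).trans (hCle (i, j) (Finset.mem_product.2 ⟨hi, hj⟩))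
    · exact (hκle (i, j) (Finset.mem_product.2 ⟨hi, hj⟩)).trans (le_max_right _ _)
  · intro i hi P hP Q hQ hne H hPH hQH
    have hH : 1 ≤ H := (ht_pos P hP.1.ne_zero).trans hPH
    refine le_trans ?_ (h₀ (s + u i) ((norm_add_le _ _).trans (by
      have := hBle i hi
      linarith)) P hP Q hQ hne H hPH hQH)
    exact hmono _ _ _ _ hH (lt_min hC₀ hC₁) (min_le_left _ _) (le_max_left _ _)

end Pool.Agent.TH456.TM
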