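import Pool.Agent.TH456.TM.Simul2

/-!
# Simultaneous transcendence measures for generating families
-/

set_option autoImplicit false

namespace Pool.Agent.TH456.TM

open Polynomial Finset

/-- a number algebraic over `ℤ[y₁, …, yₙ]` satisfies a relation -/
lemma exists_relN {ι : Type*} (x : ℂ) (y : ι → ℂ)
    (h : IsAlgebraic (Algebra.adjoin ℤ (Set.range y)) x) :
    ∃ A : (MvPolynomial ι ℤ)[X], at' y A ≠ 0 ∧ (at' y A).eval x = 0 := by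
  obtain ⟨p, hp, hpx⟩ := h
  obtain ⟨B, hB⟩ : ∃ B : Subalgebra ℤ ℂ, B = Algebra.adjoin ℤ (Set.range y) := ⟨_, rfl⟩
  subst hB
  set y' : ι → Algebra.adjoin ℤ (Set.range y) := fun i => ⟨y i, Algebra.subset_adjoin ⟨i, rfl⟩⟩
    with hy'
  set φ : MvPolynomial ι ℤ →ₐ[ℤ] Algebra.adjoin ℤ (Set.range y) := MvPolynomial.aeval y' with hφ
  have hφx : ∀ f : MvPolynomial ι ℤ, ((φ f : Algebra.adjoin ℤ (Set.range y)) : ℂ) =
      MvPolynomial.aeval y f := by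
    intro f
    have h1 : (Algebra.adjoin ℤ (Set.range y)).val.comp φ = MvPolynomial.aeval y :=
      MvPolynomial.algHom_ext fun i => by
        rw [AlgHom.comp_apply, hφ, MvPolynomial.aeval_X, MvPolynomial.aeval_X]
        rfl
    exact congrArg (fun g : MvPolynomial ι ℤ →ₐ[ℤ] ℂ => g f) h1
  have hsurj : Function.Surjective φ := by
    rintro ⟨z, hz⟩
    have hz' := hz
    rw [Algebra.adjoin_range_eq_range_aeval] at hz'
    obtain ⟨f, hf⟩ := hz'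
    exact ⟨f, Subtype.ext (by rw [hφx]; exact hf)⟩
  obtain ⟨A, hA⟩ := Polynomial.map_surjective
    (φ : MvPolynomial ι ℤ →+* Algebra.adjoin ℤ (Set.range y)) hsurj p
  have hinj : Function.Injective (algebraMap (Algebra.adjoin ℤ (Set.range y)) ℂ) :=
    Subtype.val_injective
  have hmap : at' y A = p.map (algebraMap (Algebra.adjoin ℤ (Set.range y)) ℂ) := by
    rw [← hA, Polynomial.map_map]
    unfold at'
    congr 1
    ext z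
    · simp
    · exact (hφx _).symm
  refine ⟨A, ?_, ?_⟩
  · rw [hmap]
    exact (Polynomial.map_ne_zero_iff hinj).2 hp
  · rw [hmap, eval_map]
    exact hpx

/-- **Simultaneous transcendence measure.** -/
theorem simulAlg {ι : Type*} [Fintype ι] (x : ℂ) (hx : MeasT x) (y : ι → ℂ)
    (h : IsAlgebraic (Algebra.adjoin ℤ (Set.range y)) x) (D : ℕ) :
    ∃ κ c : ℝ, 0 < κ ∧ 0 < c ∧ ∀ P : ι → ℤ[X], (∀ i, P i ≠ 0) → (∀ i, (P i).natDegree ≤ D) →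
      ∀ H : ℝ, 1 ≤ H → (∀ i, (ht (P i) : ℝ) ≤ H) → ∃ i, c * H ^ (-κ) ≤ ‖aeval (y i) (P i)‖ := by
  classical
  obtain ⟨A, hA, hAx⟩ := exists_relN x y h
  exact simul x hx y A hA hAx D

/-- **Families in which any two numbers generate a number with a measure.** -/
theorem fam_gen {ι : Type*} (S : Finset ι) (y : ι → ℂ)
    (hy : ∀ i ∈ S, ∀ j ∈ S, i ≠ j → ∃ x : ℂ, MeasT x ∧
      IsAlgebraic (Algebra.adjoin ℤ ({y i, y j} : Set ℂ)) x)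
    (x₀ : ℂ) (hx₀ : MeasT x₀) (D : ℕ) :
    ∃ κ C : ℝ, 0 < κ ∧ 0 < C ∧
      (∀ i ∈ S, ∀ j ∈ S, i ≠ j → ∀ P Q : ℤ[X], P ≠ 0 → Q ≠ 0 → P.natDegree ≤ D →
        Q.natDegree ≤ D → ∀ H : ℝ, (ht P : ℝ) ≤ H → (ht Q : ℝ) ≤ H →
        C * H ^ (-κ) ≤ max ‖aeval (y i) P‖ ‖aeval (y j) Q‖) ∧
      (∀ i ∈ S, ∀ P ∈ I1 D, ∀ Q ∈ I1 D, P ≠ Q → ∀ H : ℝ, (ht P : ℝ) ≤ H → (ht Q : ℝ) ≤ H →
        C * H ^ (-κ) ≤ max ‖aeval (y i) P‖ ‖aeval (y i) Q‖) := by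
  classical
  obtain ⟨κ₀, hκ₀, h₀⟩ := same_core x₀ hx₀ D
  obtain ⟨B, hB, hBle⟩ := exists_le_ge S fun i => ‖y i‖
  obtain ⟨C₀, hC₀, h₀⟩ := h₀ B
  have h2 : ∀ p : ι × ι, ∃ κ C : ℝ, 0 < C ∧ (p.1 ∈ S → p.2 ∈ S → p.1 ≠ p.2 →
      ∀ P Q : ℤ[X], P ≠ 0 → Q ≠ 0 → P.natDegree ≤ D → Q.natDegree ≤ D → ∀ H : ℝ, 1 ≤ H →
      (ht P : ℝ) ≤ H → (ht Q : ℝ) ≤ H →
      C * H ^ (-κ) ≤ max ‖aeval (y p.1) P‖ ‖aeval (y p.2) Q‖) := by
    intro p
    by_cases hp : p.1 ∈ S ∧ p.2 ∈ S ∧ p.1 ≠ p.2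
    · obtain ⟨x, hx, hxy⟩ := hy p.1 hp.1 p.2 hp.2.1 hp.2.2
      have hr : Set.range ![y p.1, y p.2] = {y p.1, y p.2} := by
        simp [Set.pair_comm]
      rw [← hr] at hxy
      obtain ⟨κ, C, hκ, hC, h⟩ := simulAlg x hx ![y p.1, y p.2] hxy D
      refine ⟨κ, C, hC, fun _ _ _ P Q hP hQ hPD hQD H hH hPH hQH => ?_⟩
      obtain ⟨i, hi⟩ := h ![P, Q] (fun i => by fin_cases i <;> assumption)
        (fun i => by fin_cases i <;> assumption) H hH (fun i => by fin_cases i <;> assumption)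
      fin_cases i
      · exact hi.trans (le_max_left _ _)
      · exact hi.trans (le_max_right _ _)
    · exact ⟨1, 1, one_pos, fun a b c => absurd ⟨a, b, c⟩ hp⟩
  choose κ' C' hC' h2 using h2
  obtain ⟨κ₁, hκ₁, hκle⟩ := exists_le_ge (S ×ˢ S) κ'
  obtain ⟨C₁, hC₁, hCle⟩ := exists_pos_le (S ×ˢ S) C' (fun b _ => hC' b)
  have hmono : ∀ (κ C c H : ℝ), 1 ≤ H → 0 < c → c ≤ C → κ ≤ max κ₀ κ₁ →
      c * H ^ (-(max κ₀ κ₁)) ≤ C * H ^ (-κ) := by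
    intro κ C c H hH hc hcC hκ
    have h3 : H ^ (-(max κ₀ κ₁)) ≤ H ^ (-κ) :=
      Real.rpow_le_rpow_of_exponent_le hH (by linarith)
    have h4 : 0 < H ^ (-(max κ₀ κ₁)) := by positivity
    have h5 : 0 ≤ C := hc.le.trans hcC
    gcongr
  refine ⟨max κ₀ κ₁, min C₀ C₁, lt_max_of_lt_left hκ₀, lt_min hC₀ hC₁, ?_, ?_⟩
  · intro i hi j hj hij P Q hP hQ hPD hQD H hPH hQH
    have hH : 1 ≤ H := (ht_pos P hP).trans hPH
    refine le_trans ?_ (h2 (i, j) hi hj hij P Q hP hQ hPD hQD H hH hPH hQH)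
    refine hmono _ _ _ _ hH (lt_min hC₀ hC₁) ?_ ?_
    · exact (min_le_right _ _).trans (hCle (i, j) (Finset.mem_product.2 ⟨hi, hj⟩))
    · exact (hκle (i, j) (Finset.mem_product.2 ⟨hi, hj⟩)).trans (le_max_right _ _)
  · intro i hi P hP Q hQ hne H hPH hQH
    have hH : 1 ≤ H := (ht_pos P hP.1.ne_zero).trans hPH
    refine le_trans ?_ (h₀ (y i) (hBle i hi) P hP Q hQ hne H hPH hQH)
    exact hmono _ _ _ _ hH (lt_min hC₀ hC₁) (min_le_left _ _) (le_max_left _ _)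

end Pool.Agent.TH456.TM
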