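import Mathlib

/-!
# Explicit Hermite–Padé approximants of `1, e^z, …, e^(m z)`: interpolation identity
-/

set_option autoImplicit false

namespace Pool.Agent.TH456.TM

open Polynomial Finset

variable {m : ℕ}

/-- the node `k` as a rational number -/
abbrev nd (k : Fin (m + 1)) : ℚ := ((k : ℕ) : ℚ)

lemma nd_inj {k l : Fin (m + 1)} (h : k ≠ l) : nd k - nd l ≠ 0 := by
  intro h0
  apply h
  have : ((k : ℕ) : ℚ) = ((l : ℕ) : ℚ) := sub_eq_zero.1 h0
  exact Fin.ext (by exact_mod_cast this)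

/-- `∏_{l ≠ k} (X - l)^(e l)` -/
noncomputable def Qk (e : Fin (m + 1) → ℕ) (k : Fin (m + 1)) : ℚ[X] :=
  ∏ l ∈ univ.erase k, (X - C (nd l)) ^ e l

/-- `1 / (a + x)` as a power series -/
noncomputable def G (a : ℚ) : PowerSeries ℚ := PowerSeries.mk fun i => (-1) ^ i / a ^ (i + 1)

lemma G_mul (a : ℚ) (ha : a ≠ 0) : G a * (((X + C a : ℚ[X])) : PowerSeries ℚ) = 1 := by
  ext i
  rw [Polynomial.coe_add, Polynomial.coe_X, Polynomial.coe_C, mul_add, map_add]
  rcases i with _ | i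
  · simp [G, PowerSeries.coeff_one, ha]
  · rw [PowerSeries.coeff_succ_mul_X, PowerSeries.coeff_mul_C, PowerSeries.coeff_one]
    simp only [G, PowerSeries.coeff_mk]
    rw [if_neg (by omega)]
    field_simp
    ring

/-- the inverse of `∏_{l ≠ k} (k - l + x)^(e l)` -/
noncomputable def gk (e : Fin (m + 1) → ℕ) (k : Fin (m + 1)) : PowerSeries ℚ :=
  ∏ l ∈ univ.erase k, G (nd k - nd l) ^ e l

lemma Qk_comp (e : Fin (m + 1) → ℕ) (k : Fin (m + 1)) :
    (Qk e k).comp (X + C (nd k)) = ∏ l ∈ univ.erase k, (X + C (nd k - nd l)) ^ e l := by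
  unfold Qk
  rw [Polynomial.prod_comp]
  refine Finset.prod_congr rfl fun l _ => ?_
  rw [pow_comp, sub_comp, X_comp, C_comp, C_sub]
  ring

lemma gk_mul (e : Fin (m + 1) → ℕ) (k : Fin (m + 1)) :
    (((Qk e k).comp (X + C (nd k)) : ℚ[X]) : PowerSeries ℚ) * gk e k = 1 := by
  rw [Qk_comp]
  unfold gk
  have h1 : ((∏ l ∈ univ.erase k, (X + C (nd k - nd l)) ^ e l : ℚ[X]) : PowerSeries ℚ) =
      ∏ l ∈ univ.erase k, (((X + C (nd k - nd l)) : ℚ[X]) : PowerSeries ℚ) ^ e l := by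
    rw [← Polynomial.coeToPowerSeries.ringHom_apply, map_prod]
    refine Finset.prod_congr rfl fun l _ => ?_
    rw [map_pow, Polynomial.coeToPowerSeries.ringHom_apply]
  rw [h1, ← Finset.prod_mul_distrib]
  refine Finset.prod_eq_one fun l hl => ?_
  rw [← mul_pow, mul_comm, G_mul _ (nd_inj (Finset.ne_of_mem_erase hl).symm), one_pow]

/-- the truncated quotient -/
noncomputable def Tk (e : Fin (m + 1) → ℕ) (f : ℚ[X]) (k : Fin (m + 1)) : ℚ[X] :=
  PowerSeries.trunc (e k) ((((f.comp (X + C (nd k))) : ℚ[X]) : PowerSeries ℚ) * gk e k)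

lemma coeff_mul_trunc (a f : PowerSeries ℚ) (n d : ℕ) (hd : d < n) :
    PowerSeries.coeff d (a * ((PowerSeries.trunc n f : ℚ[X]) : PowerSeries ℚ)) =
      PowerSeries.coeff d (a * f) := by
  rw [PowerSeries.coeff_mul, PowerSeries.coeff_mul]
  refine Finset.sum_congr rfl fun p hp => ?_
  have hp := Finset.HasAntidiagonal.mem_antidiagonal.1 hp
  rw [Polynomial.coeff_coe, PowerSeries.coeff_trunc, if_pos (by omega)]

lemma Qk_monic (e : Fin (m + 1) → ℕ) (k : Fin (m + 1)) : (Qk e k).Monic :=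
  monic_prod_of_monic _ _ fun l _ => (monic_X_sub_C _).pow _

lemma Qk_natDegree (e : Fin (m + 1) → ℕ) (k : Fin (m + 1)) :
    (Qk e k).natDegree + e k = ∑ l, e l := by
  unfold Qk
  rw [natDegree_prod_of_monic _ _ fun l _ => (monic_X_sub_C _).pow _]
  simp only [natDegree_pow, natDegree_X_sub_C, mul_one]
  rw [Finset.sum_erase_add _ _ (Finset.mem_univ k)]

lemma Tk_deg (e : Fin (m + 1) → ℕ) (he : ∀ k, 1 ≤ e k) (f : ℚ[X]) (k : Fin (m + 1)) :
    (Tk e f k).natDegree < e k := by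
  obtain ⟨n, hn⟩ : ∃ n, e k = n + 1 := ⟨e k - 1, by have := he k; omega⟩
  unfold Tk
  rw [hn]
  exact PowerSeries.natDegree_trunc_lt _ _

lemma Tk_comp_deg (e : Fin (m + 1) → ℕ) (he : ∀ k, 1 ≤ e k) (f : ℚ[X]) (k : Fin (m + 1)) :
    ((Tk e f k).comp (X - C (nd k))).natDegree < e k := by
  rw [natDegree_comp, natDegree_X_sub_C, mul_one]
  exact Tk_deg e he f k

/-- **Hermite interpolation** -/
theorem interp (e : Fin (m + 1) → ℕ) (he : ∀ k, 1 ≤ e k) (f : ℚ[X]) (hf : f.natDegree < ∑ l, e l) :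
    ∑ k, Qk e k * (Tk e f k).comp (X - C (nd k)) = f := by
  classical
  set F := ∑ k, Qk e k * (Tk e f k).comp (X - C (nd k)) with hF
  have hN : 0 < ∑ l, e l := lt_of_le_of_lt (Nat.zero_le _) hf
  -- degree of `F`
  have hFd : F.natDegree < ∑ l, e l := by
    refine lt_of_le_of_lt (natDegree_sum_le_of_forall_le univ _ (n := (∑ l, e l) - 1)
      fun k _ => ?_) (by omega)
    refine natDegree_mul_le.trans ?_
    have h1 := Qk_natDegree e k
    have h2 := Tk_comp_deg e he f k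
    omega
  have hdvd : ∀ k ∈ (univ : Finset (Fin (m + 1))), (X - C (nd k)) ^ e k ∣ F - f := by
    intro k _
    rw [Polynomial.X_sub_C_pow_dvd_iff, Polynomial.X_pow_dvd_iff]
    intro d hd
    rw [sub_comp, coeff_sub, sub_eq_zero, hF]
    rw [Polynomial.sum_comp, finsetSum_coeff]
    rw [Finset.sum_eq_single k]
    · rw [mul_comp, comp_assoc]
      have h1 : (X - C (nd k) : ℚ[X]).comp (X + C (nd k)) = X := by
        rw [sub_comp, X_comp, C_comp]; ring
      rw [h1, comp_X, ← Polynomial.coeff_coe, Polynomial.coe_mul]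
      unfold Tk
      rw [coeff_mul_trunc _ _ _ _ hd]
      have h2 : (((Qk e k).comp (X + C (nd k)) : ℚ[X]) : PowerSeries ℚ) *
          ((((f.comp (X + C (nd k))) : ℚ[X]) : PowerSeries ℚ) * gk e k) =
          (((f.comp (X + C (nd k))) : ℚ[X]) : PowerSeries ℚ) := by
        rw [mul_left_comm, gk_mul, mul_one]
      rw [h2, Polynomial.coeff_coe]
    · intro l _ hl
      have h1 : (X - C (nd k)) ^ e k ∣ Qk e l :=
        Finset.dvd_prod_of_mem (fun l => (X - C (nd l)) ^ e l)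
          (Finset.mem_erase.2 ⟨hl.symm, Finset.mem_univ k⟩)
      have h2 : (X - C (nd k)) ^ e k ∣ Qk e l * (Tk e f l).comp (X - C (nd l)) :=
        h1.mul_right _
      rw [Polynomial.X_sub_C_pow_dvd_iff, Polynomial.X_pow_dvd_iff] at h2
      exact h2 d hd
    · intro h; exact absurd (Finset.mem_univ k) h
  have hprod : ∏ k, (X - C (nd k)) ^ e k ∣ F - f := by
    refine Finset.prod_dvd_of_coprime ?_ hdvd
    intro k _ l _ hkl
    refine IsCoprime.pow ?_
    exact Polynomial.isCoprime_X_sub_C_of_isUnit_sub (IsUnit.mk0 _ (nd_inj hkl))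
  by_contra hne
  have hne' : F - f ≠ 0 := sub_ne_zero.2 hne
  have h1 := natDegree_le_of_dvd hprod hne'
  rw [natDegree_prod_of_monic _ _ fun l _ => (monic_X_sub_C _).pow _] at h1
  simp only [natDegree_pow, natDegree_X_sub_C, mul_one] at h1
  have h2 : (F - f).natDegree < ∑ l, e l :=
    lt_of_le_of_lt (natDegree_sub_le _ _) (max_lt hFd hf)
  omega

lemma coeff_comp_top (p : ℚ[X]) (a : ℚ) (d : ℕ) (hp : p.natDegree ≤ d) :
    (p.comp (X - C a)).coeff d = p.coeff d := by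
  rcases hp.eq_or_lt with h | h
  · have h1 : (p.comp (X - C a)).natDegree = p.natDegree := by
      rw [natDegree_comp, natDegree_X_sub_C, mul_one]
    rw [← h]
    have h2 : (p.comp (X - C a)).coeff p.natDegree = (p.comp (X - C a)).leadingCoeff := by
      rw [leadingCoeff, h1]
    rw [h2, leadingCoeff_comp (by rw [natDegree_X_sub_C]; exact one_ne_zero), leadingCoeff_X_sub_C,
      one_pow, mul_one]
    rfl
  · rw [coeff_eq_zero_of_natDegree_lt h, coeff_eq_zero_of_natDegree_lt]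
    rw [natDegree_comp, natDegree_X_sub_C, mul_one]
    exact h

/-- the functional `f ↦ ∑_k [x^(e k - 1)] f(k + x) g_k(x)` picks the coefficient `N - 1` -/
theorem functional (e : Fin (m + 1) → ℕ) (he : ∀ k, 1 ≤ e k) (f : ℚ[X])
    (hf : f.natDegree < ∑ l, e l) :
    ∑ k, PowerSeries.coeff (e k - 1)
      ((((f.comp (X + C (nd k))) : ℚ[X]) : PowerSeries ℚ) * gk e k) = f.coeff ((∑ l, e l) - 1) := by
  conv_rhs => rw [← interp e he f hf]
  rw [finsetSum_coeff]
  refine Finset.sum_congr rfl fun k _ => ?_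
  have h1 := Qk_natDegree e k
  have h2 := Tk_comp_deg e he f k
  have h3 := he k
  rw [show (∑ l, e l) - 1 = (Qk e k).natDegree + (e k - 1) by omega,
    Polynomial.coeff_mul_add_eq_of_natDegree_le le_rfl (by omega),
    coeff_comp_top _ _ _ (by have := Tk_deg e he f k; omega)]
  have h4 : (Qk e k).coeff (Qk e k).natDegree = 1 := (Qk_monic e k)
  rw [h4, one_mul]
  unfold Tk
  rw [PowerSeries.coeff_trunc, if_pos (by omega)]

/-- `L_t = ∑_k ∑_i [x^(e k - 1 - i)] g_k · binom(t, i) k^(t - i)` -/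
noncomputable def Lf (e : Fin (m + 1) → ℕ) (t : ℕ) : ℚ :=
  ∑ k, ∑ i ∈ range (e k), PowerSeries.coeff (e k - 1 - i) (gk e k) * (t.choose i * nd k ^ (t - i))

lemma Lf_eq (e : Fin (m + 1) → ℕ) (he : ∀ k, 1 ≤ e k) (t : ℕ) :
    Lf e t = ∑ k, PowerSeries.coeff (e k - 1)
      (((((X : ℚ[X]) ^ t).comp (X + C (nd k)) : ℚ[X]) : PowerSeries ℚ) * gk e k) := by
  unfold Lf
  refine Finset.sum_congr rfl fun k _ => ?_
  rw [PowerSeries.coeff_mul, Finset.Nat.sum_antidiagonal_eq_sum_range_succ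
    (fun i j => PowerSeries.coeff i ((((X : ℚ[X]) ^ t).comp (X + C (nd k)) : ℚ[X]) : PowerSeries ℚ) *
      PowerSeries.coeff j (gk e k)),
    show (e k - 1).succ = e k by have := he k; omega]
  refine Finset.sum_congr rfl fun i _ => ?_
  rw [pow_comp, X_comp, Polynomial.coeff_coe, Polynomial.coeff_X_add_C_pow]
  ring

theorem Lf_zero (e : Fin (m + 1) → ℕ) (he : ∀ k, 1 ≤ e k) (t : ℕ) (ht : t + 1 < ∑ l, e l) :
    Lf e t = 0 := by
  rw [Lf_eq e he, functional e he _ (by rw [natDegree_X_pow]; omega), coeff_X_pow, if_neg (by omega)]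

end Pool.Agent.TH456.TM
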