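import Pool.Agent.TH456.TM.AlgDep

/-!
# Lengths of polynomials, and characteristic polynomials of matrices over `ℤ[X]`
-/

set_option autoImplicit false

namespace Pool.Agent.TH456.TM

open Polynomial Finset

/-- a submultiplicative seminorm with `ℓ 1 ≤ 1` -/
structure IsLen {R : Type*} [CommRing R] (ℓ : R → ℝ) : Prop where
  nonneg : ∀ a, 0 ≤ ℓ a
  zero : ℓ 0 = 0
  one : ℓ 1 ≤ 1
  neg : ∀ a, ℓ (-a) = ℓ a
  add : ∀ a b, ℓ (a + b) ≤ ℓ a + ℓ b
  mul : ∀ a b, ℓ (a * b) ≤ ℓ a * ℓ b

section

variable {R : Type*} [CommRing R] {ℓ : R → ℝ}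

lemma IsLen.sum_le (h : IsLen ℓ) {ι : Type*} (s : Finset ι) (f : ι → R) :
    ℓ (∑ i ∈ s, f i) ≤ ∑ i ∈ s, ℓ (f i) := by
  classical
  induction s using Finset.induction_on with
  | empty => simp [h.zero]
  | insert a s ha ih =>
    rw [Finset.sum_insert ha, Finset.sum_insert ha]
    exact (h.add _ _).trans (by linarith)

lemma IsLen.prod_le (h : IsLen ℓ) {ι : Type*} (s : Finset ι) (f : ι → R) :
    ℓ (∏ i ∈ s, f i) ≤ ∏ i ∈ s, ℓ (f i) := by
  classical
  induction s using Finset.induction_on with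
  | empty => simpa using h.one
  | insert a s ha ih =>
    rw [Finset.prod_insert ha, Finset.prod_insert ha]
    exact (h.mul _ _).trans (mul_le_mul_of_nonneg_left ih (h.nonneg _))

lemma IsLen.det_le (h : IsLen ℓ) {J : Type*} [Fintype J] [DecidableEq J] (M : Matrix J J R) (B : ℝ)
    (hM : ∀ i j, ℓ (M i j) ≤ B) : ℓ M.det ≤ (Fintype.card J).factorial * B ^ Fintype.card J := by
  rw [Matrix.det_apply]
  refine (h.sum_le _ _).trans ?_
  calc ∑ σ : Equiv.Perm J, ℓ (Equiv.Perm.sign σ • ∏ i, M (σ i) i)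
      ≤ ∑ _σ : Equiv.Perm J, B ^ Fintype.card J := by
        refine Finset.sum_le_sum fun σ _ => ?_
        have h1 : ℓ (∏ i, M (σ i) i) ≤ B ^ Fintype.card J := by
          refine (h.prod_le _ _).trans ?_
          calc ∏ i, ℓ (M (σ i) i) ≤ ∏ _i : J, B :=
                Finset.prod_le_prod (fun i _ => h.nonneg _) fun i _ => hM _ _
            _ = B ^ Fintype.card J := by rw [Finset.prod_const, Finset.card_univ]
        rcases Int.units_eq_one_or (Equiv.Perm.sign σ) with h2 | h2
        · rw [h2, one_smul]; exact h1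
        · rw [h2, Units.neg_smul, one_smul, h.neg]; exact h1
    _ = _ := by
        rw [Finset.sum_const, Finset.card_univ, Fintype.card_perm, nsmul_eq_mul]

/-- the length of a polynomial -/
noncomputable def lenP (ℓ : R → ℝ) (P : R[X]) : ℝ := ∑ j ∈ range (P.natDegree + 1), ℓ (P.coeff j)

lemma lenP_eq (h : IsLen ℓ) (P : R[X]) (n : ℕ) (hn : P.natDegree ≤ n) :
    lenP ℓ P = ∑ j ∈ range (n + 1), ℓ (P.coeff j) := by
  unfold lenP
  refine Finset.sum_subset (Finset.range_mono (by omega)) fun j _ hj => ?_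
  rw [mem_range] at hj
  rw [coeff_eq_zero_of_natDegree_lt (by omega), h.zero]

lemma le_lenP (h : IsLen ℓ) (P : R[X]) (j : ℕ) : ℓ (P.coeff j) ≤ lenP ℓ P := by
  rw [lenP_eq h P (max P.natDegree j) (le_max_left _ _)]
  refine Finset.single_le_sum (f := fun j => ℓ (P.coeff j)) (fun i _ => h.nonneg _) ?_
  rw [mem_range]
  have := le_max_right P.natDegree j
  omega

lemma lenP_C_mul (h : IsLen ℓ) (p : R) (i : ℕ) (Q : R[X]) :
    lenP ℓ (C p * X ^ i * Q) ≤ ℓ p * lenP ℓ Q := by
  have hd : (C p * X ^ i * Q).natDegree ≤ i + Q.natDegree :=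
    natDegree_mul_le.trans (Nat.add_le_add_right (natDegree_C_mul_X_pow_le _ _) _)
  rw [lenP_eq h _ (i + Q.natDegree) hd, add_assoc, Finset.sum_range_add]
  have hc : ∀ j, (C p * X ^ i * Q).coeff j = p * (if i ≤ j then Q.coeff (j - i) else 0) := by
    intro j
    rw [mul_assoc, coeff_C_mul, coeff_X_pow_mul']
  have h1 : ∑ j ∈ range i, ℓ ((C p * X ^ i * Q).coeff j) = 0 := by
    refine Finset.sum_eq_zero fun j hj => ?_
    rw [mem_range] at hj
    rw [hc, if_neg (by omega), mul_zero, h.zero]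
  rw [h1, zero_add]
  unfold lenP
  rw [Finset.mul_sum]
  refine Finset.sum_le_sum fun j _ => ?_
  rw [hc, if_pos (by omega), Nat.add_sub_cancel_left]
  exact h.mul _ _

theorem isLen_lenP (h : IsLen ℓ) : IsLen (lenP ℓ) where
  nonneg P := Finset.sum_nonneg fun _ _ => h.nonneg _
  zero := by
    unfold lenP
    simp [h.zero]
  one := by
    unfold lenP
    simpa using h.one
  neg P := by
    unfold lenP
    rw [natDegree_neg]
    refine Finset.sum_congr rfl fun j _ => ?_
    rw [coeff_neg, h.neg]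
  add P Q := by
    rw [lenP_eq h (P + Q) (max P.natDegree Q.natDegree) (natDegree_add_le _ _),
      lenP_eq h P (max P.natDegree Q.natDegree) (le_max_left _ _),
      lenP_eq h Q (max P.natDegree Q.natDegree) (le_max_right _ _), ← Finset.sum_add_distrib]
    refine Finset.sum_le_sum fun j _ => ?_
    rw [coeff_add]
    exact h.add _ _
  mul P Q := by
    have hadd : ∀ (s : Finset ℕ) (f : ℕ → R[X]), lenP ℓ (∑ i ∈ s, f i) ≤ ∑ i ∈ s, lenP ℓ (f i) := by
      intro s f
      classical
      induction s using Finset.induction_on with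
      | empty => simp [lenP, h.zero]
      | insert a s ha ih =>
        rw [Finset.sum_insert ha, Finset.sum_insert ha]
        refine le_trans ?_ (add_le_add_right ih _)
        rw [lenP_eq h (f a + ∑ i ∈ s, f i) (max (f a).natDegree (∑ i ∈ s, f i).natDegree)
            (natDegree_add_le _ _),
          lenP_eq h (f a) (max (f a).natDegree (∑ i ∈ s, f i).natDegree) (le_max_left _ _),
          lenP_eq h (∑ i ∈ s, f i) (max (f a).natDegree (∑ i ∈ s, f i).natDegree)
            (le_max_right _ _), ← Finset.sum_add_distrib]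
        refine Finset.sum_le_sum fun j _ => ?_
        rw [coeff_add]
        exact h.add _ _
    have h1 : P * Q = ∑ i ∈ range (P.natDegree + 1), C (P.coeff i) * X ^ i * Q := by
      conv_lhs => rw [P.as_sum_range_C_mul_X_pow]
      rw [Finset.sum_mul]
    rw [h1]
    refine (hadd _ _).trans ?_
    calc ∑ i ∈ range (P.natDegree + 1), lenP ℓ (C (P.coeff i) * X ^ i * Q)
        ≤ ∑ i ∈ range (P.natDegree + 1), ℓ (P.coeff i) * lenP ℓ Q :=
          Finset.sum_le_sum fun i _ => lenP_C_mul h _ _ _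
      _ = lenP ℓ P * lenP ℓ Q := by rw [← Finset.sum_mul]; rfl

end

/-- the absolute value on `ℤ` -/
noncomputable def lenZ (z : ℤ) : ℝ := |(z : ℝ)|

lemma isLen_lenZ : IsLen lenZ where
  nonneg a := abs_nonneg _
  zero := by simp [lenZ]
  one := by simp [lenZ]
  neg a := by simp [lenZ]
  add a b := by
    unfold lenZ
    push_cast
    exact abs_add_le _ _
  mul a b := by
    unfold lenZ
    push_cast
    rw [abs_mul]

/-- the length on `ℤ[X]` -/
noncomputable def len1 : ℤ[X] → ℝ := lenP lenZ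

/-- the length on `ℤ[X][X]` -/
noncomputable def len2 : ℤ[X][X] → ℝ := lenP len1

lemma isLen_len1 : IsLen len1 := isLen_lenP isLen_lenZ

lemma isLen_len2 : IsLen len2 := isLen_lenP isLen_len1

lemma len1_le (P : ℤ[X]) (E : ℕ) (H : ℝ) (hE : P.natDegree ≤ E)
    (hH : ∀ k, |((P.coeff k : ℤ) : ℝ)| ≤ H) : len1 P ≤ (E + 1) * H := by
  unfold len1
  rw [lenP_eq isLen_lenZ P E hE]
  calc ∑ j ∈ range (E + 1), lenZ (P.coeff j) ≤ ∑ _j ∈ range (E + 1), H :=
        Finset.sum_le_sum fun j _ => hH j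
    _ = _ := by rw [Finset.sum_const, card_range, nsmul_eq_mul]; push_cast; ring

/-! ## The degree in the inner variable -/

/-- all coefficients have degree at most `E` -/
def DX (E : ℕ) (P : ℤ[X][X]) : Prop := ∀ j, (P.coeff j).natDegree ≤ E

lemma DX.mul {E F : ℕ} {P Q : ℤ[X][X]} (hP : DX E P) (hQ : DX F Q) : DX (E + F) (P * Q) := by
  intro j
  rw [coeff_mul]
  refine natDegree_sum_le_of_forall_le _ _ fun a _ => ?_
  exact natDegree_mul_le.trans (Nat.add_le_add (hP _) (hQ _))

lemma DX.one : DX 0 1 := by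
  intro j
  rw [coeff_one]
  split_ifs <;> simp

lemma DX.prod {ι : Type*} (s : Finset ι) (f : ι → ℤ[X][X]) (E : ℕ) (h : ∀ i ∈ s, DX E (f i)) :
    DX (s.card * E) (∏ i ∈ s, f i) := by
  classical
  induction s using Finset.induction_on with
  | empty => simpa using DX.one
  | insert a s ha ih =>
    rw [Finset.prod_insert ha, Finset.card_insert_of_notMem ha, add_mul, one_mul, add_comm]
    exact (h a (Finset.mem_insert_self _ _)).mul (ih fun i hi => h i (Finset.mem_insert_of_mem hi))

lemma DX.det {J : Type*} [Fintype J] [DecidableEq J] (M : Matrix J J ℤ[X][X]) (E : ℕ)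
    (hM : ∀ i j, DX E (M i j)) : DX (Fintype.card J * E) M.det := by
  intro k
  rw [Matrix.det_apply, finsetSum_coeff]
  refine natDegree_sum_le_of_forall_le _ _ fun σ _ => ?_
  have h1 := DX.prod Finset.univ (fun i => M (σ i) i) E (fun i _ => hM _ _) k
  rw [Finset.card_univ] at h1
  rcases Int.units_eq_one_or (Equiv.Perm.sign σ) with h | h
  · rw [h, one_smul]; exact h1
  · rw [h, Units.neg_smul, one_smul, coeff_neg, natDegree_neg]; exact h1

end Pool.Agent.TH456.TM
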