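import Pool.Agent.TH456.TM.Len

/-!
# Eigenvalues of matrices over `ℤ[X]`
-/

set_option autoImplicit false

namespace Pool.Agent.TH456.TM

open Polynomial Finset Matrix

lemma strip' {R : Type*} [CommRing R] [IsDomain R] (d : ℕ) : ∀ P : R[X], P ≠ 0 → P.natDegree ≤ d →
    ∃ a : ℕ, ∃ P' : R[X], P = X ^ a * P' ∧ P'.coeff 0 ≠ 0 := by
  induction d with
  | zero =>
    intro P hP hd
    refine ⟨0, P, by simp, fun h => hP ?_⟩
    rw [eq_C_of_natDegree_le_zero hd, h, C_0]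
  | succ d ih =>
    intro P hP hd
    by_cases h0 : P.coeff 0 = 0
    · have h1 : P = X * divX P := by
        conv_lhs => rw [← divX_mul_X_add P, h0, C_0, add_zero]
        ring
      have h2 : divX P ≠ 0 := by
        intro h
        rw [h, mul_zero] at h1
        exact hP h1
      obtain ⟨a, P', hP', h3⟩ := ih (divX P) h2 (by
        rw [natDegree_divX_eq_natDegree_tsub_one]
        omega)
      refine ⟨a + 1, P', ?_, h3⟩
      rw [h1, hP']
      ring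
    · exact ⟨0, P, by simp, h0⟩

/-- the characteristic polynomial: degree and coefficients -/
lemma charpoly_bounds {J : Type*} [Fintype J] [DecidableEq J] (M : Matrix J J ℤ[X]) (E : ℕ) (H : ℝ)
    (hH : 1 ≤ H) (hE : ∀ a b, (M a b).natDegree ≤ E)
    (hM : ∀ a b k, |(((M a b).coeff k : ℤ) : ℝ)| ≤ H) (j : ℕ) :
    (M.charpoly.coeff j).natDegree ≤ Fintype.card J * E ∧
      ∀ k, |(((M.charpoly.coeff j).coeff k : ℤ) : ℝ)| ≤
        (Fintype.card J).factorial * ((E + 2) * H) ^ Fintype.card J := by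
  have hent : ∀ a b, DX E (charmatrix M a b) ∧ len2 (charmatrix M a b) ≤ (E + 2) * H := by
    intro a b
    rw [charmatrix_apply]
    have hC : len2 (C (M a b)) ≤ (E + 1) * H := by
      have h1 : len2 (C (M a b)) = len1 (M a b) := by
        unfold len2
        rw [lenP_eq isLen_len1 (C (M a b)) 0 (by simp)]
        simp
      rw [h1]
      exact len1_le _ E H (hE a b) (hM a b)
    have hCD : DX E (C (M a b)) := by
      intro j
      rw [coeff_C]
      split_ifs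
      · exact hE a b
      · simp
    by_cases hab : a = b
    · subst hab
      rw [Matrix.diagonal_apply_eq]
      have hX : len2 (X : ℤ[X][X]) ≤ 1 := by
        unfold len2
        rw [lenP_eq isLen_len1 X 1 natDegree_X_le]
        rw [Finset.sum_range_succ, Finset.sum_range_one, coeff_X_zero, coeff_X_one,
          isLen_len1.zero, zero_add]
        exact isLen_len1.one
      constructor
      · intro j
        rw [coeff_sub]
        refine (natDegree_sub_le _ _).trans (max_le ?_ (hCD j))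
        rw [coeff_X]
        split_ifs <;> simp
      · rw [sub_eq_add_neg]
        refine (isLen_len2.add _ _).trans ?_
        rw [isLen_len2.neg]
        nlinarith
    · rw [Matrix.diagonal_apply_ne _ hab, zero_sub]
      constructor
      · intro j
        rw [coeff_neg, natDegree_neg]
        exact hCD j
      · rw [isLen_len2.neg]
        nlinarith
  constructor
  · exact DX.det (charmatrix M) E (fun a b => (hent a b).1) j
  · intro k
    have h1 := isLen_len2.det_le (charmatrix M) ((E + 2) * H) (fun a b => (hent a b).2)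
    have h2 : |(((M.charpoly.coeff j).coeff k : ℤ) : ℝ)| ≤ len1 (M.charpoly.coeff j) :=
      le_lenP isLen_lenZ _ k
    have h3 : len1 (M.charpoly.coeff j) ≤ len2 M.charpoly := le_lenP isLen_len1 _ j
    exact h2.trans (h3.trans h1)

/-- **Eigenvalues of matrices over `ℤ[X]` are not small at `x`.** -/
theorem mat_core (x : ℂ) (hx : MeasT x) (J : Type*) [Fintype J] [DecidableEq J] (E : ℕ) :
    ∃ κ c : ℝ, 0 ≤ κ ∧ 0 < c ∧ ∀ (M : Matrix J J ℤ[X]) (H : ℝ), 1 ≤ H →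
      (∀ a b, (M a b).natDegree ≤ E) → (∀ a b k, |(((M a b).coeff k : ℤ) : ℝ)| ≤ H) →
      ∀ (f : ℂ[X]) (v : J → ℂ), f ≠ 0 → v ≠ 0 →
      (∀ a, ∑ b, (M a b).map (Int.castRingHom ℂ) * C (v b) = f * C (v a)) →
      c * H ^ (-κ) ≤ ‖f.eval x‖ := by
  obtain ⟨N, hN⟩ : ∃ N, N = Fintype.card J := ⟨_, rfl⟩
  obtain ⟨κ₀, c₀, hκ₀, hc₀, hm⟩ := hx (N * E)
  obtain ⟨K₁, hK₁⟩ : ∃ K₁ : ℝ, K₁ = N.factorial * ((E : ℝ) + 2) ^ N := ⟨_, rfl⟩
  have hK₁1 : 1 ≤ K₁ := by
    rw [hK₁]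
    have h1 : (1 : ℝ) ≤ N.factorial := by exact_mod_cast Nat.factorial_pos _
    have h2 : (1 : ℝ) ≤ ((E : ℝ) + 2) ^ N := one_le_pow₀ (by
      have : (0 : ℝ) ≤ E := by positivity
      linarith)
    nlinarith
  obtain ⟨K₂, hK₂⟩ : ∃ K₂ : ℝ, K₂ = (N + 1) * (((N * E : ℕ) : ℝ) + 1) * (max 1 ‖x‖) ^ (N * E) :=
    ⟨_, rfl⟩
  have hK₂0 : 0 < K₂ := by rw [hK₂]; positivity
  refine ⟨N * (κ₀ + 1), min 1 (c₀ / (K₂ * K₁ ^ (κ₀ + 1))), by positivity, by positivity, ?_⟩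
  intro M H hH hE hMH f v hf hv hMv
  have hH0 : 0 < H := by linarith
  obtain ⟨φ, hφ⟩ : ∃ φ, φ = f.eval x := ⟨_, rfl⟩
  rw [← hφ]
  have hpos : 0 < H ^ (-((N : ℝ) * (κ₀ + 1))) := by positivity
  have hle1 : H ^ (-((N : ℝ) * (κ₀ + 1))) ≤ 1 :=
    Real.rpow_le_one_of_one_le_of_nonpos hH (by
      have : 0 ≤ (N : ℝ) * (κ₀ + 1) := by positivity
      linarith)
  by_cases hφ1 : 1 < ‖φ‖
  · calc min 1 (c₀ / (K₂ * K₁ ^ (κ₀ + 1))) * H ^ (-((N : ℝ) * (κ₀ + 1))) ≤ 1 * 1 := by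
          gcongr
          exact min_le_left _ _
      _ ≤ ‖φ‖ := by linarith
  push Not at hφ1
  set ι : ℤ[X] →+* ℂ[X] := mapRingHom (Int.castRingHom ℂ) with hι
  -- the characteristic polynomial vanishes at `f`
  have hroot : (M.charpoly.map ι).eval f = 0 := by
    rw [← Matrix.charpoly_map, Matrix.eval_charpoly]
    refine (Matrix.exists_mulVec_eq_zero_iff).1 ⟨fun b => C (v b), ?_, ?_⟩
    · intro h
      apply hv
      funext b
      have := congrFun h b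
      simpa using this
    · funext a
      rw [Matrix.sub_mulVec, Pi.sub_apply, Pi.zero_apply, Matrix.scalar_apply, Matrix.diagonal_const_mulVec]
      have h1 : (M.map ι *ᵥ fun b => C (v b)) a = ∑ b, (M a b).map (Int.castRingHom ℂ) * C (v b) := rfl
      rw [h1, hMv a, Pi.smul_apply, smul_eq_mul, sub_self]
  -- split off the zero eigenvalues
  have hΦ0 : M.charpoly ≠ 0 := M.charpoly_monic.ne_zero
  obtain ⟨k, Ψ, hΨ, hΨ0⟩ := strip' M.charpoly.natDegree M.charpoly hΦ0 le_rfl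
  have hcoef : ∀ j, Ψ.coeff j = M.charpoly.coeff (j + k) := by
    intro j
    rw [hΨ, coeff_X_pow_mul]
  have hΨroot : (Ψ.map ι).eval f = 0 := by
    rw [hΨ, Polynomial.map_mul, Polynomial.map_pow, map_X, eval_mul, eval_pow, eval_X] at hroot
    exact (mul_eq_zero.1 hroot).resolve_left (pow_ne_zero _ hf)
  have hval : vl x φ Ψ = 0 := by
    have h1 := congrArg (Polynomial.eval x) hΨroot
    rw [eval_zero, ← coe_evalRingHom, eval_map, hom_eval₂] at h1
    unfold vl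
    rw [eval_map, ← h1, hφ]
    have h2 : σx x = (evalRingHom x).comp ι := by
      ext z
      · simp [σx]
      · simp [σx, hι]
    rw [h2]
    rfl
  have hΨdeg : Ψ.natDegree ≤ N := by
    have h1 : Ψ ≠ 0 := by
      rintro rfl
      simp at hΨ0
    have h2 : M.charpoly.natDegree = k + Ψ.natDegree := by
      rw [hΨ, natDegree_mul (pow_ne_zero _ X_ne_zero) h1, natDegree_X_pow]
    rw [Matrix.charpoly_natDegree_eq_dim, ← hN] at h2
    omega
  -- bounds
  obtain ⟨H₁, hH₁⟩ : ∃ H₁ : ℝ, H₁ = N.factorial * ((E + 2) * H) ^ N := ⟨_, rfl⟩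
  have hH₁E : H₁ = K₁ * H ^ N := by rw [hH₁, hK₁, mul_pow]; ring
  have hH₁1 : 1 ≤ H₁ := by
    rw [hH₁E]
    have : 1 ≤ H ^ N := one_le_pow₀ hH
    nlinarith
  have hb : ∀ j, (Ψ.coeff j).natDegree ≤ N * E ∧ ∀ l, |(((Ψ.coeff j).coeff l : ℤ) : ℝ)| ≤ H₁ := by
    intro j
    rw [hcoef, hN, hH₁, hN]
    exact charpoly_bounds M E H hH hE hMH (j + k)
  have hR := hm (Ψ.coeff 0) hΨ0 (hb 0).1 H₁ hH₁1 (hb 0).2
  -- the value of the last coefficient
  have hup : ‖aeval x (Ψ.coeff 0)‖ ≤ ‖φ‖ * (K₂ * H₁) := by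
    have h1 : vl x φ Ψ = ∑ j ∈ range (N + 1), σx x (Ψ.coeff j) * φ ^ j := by
      unfold vl
      rw [eval_eq_sum_range' (show (Ψ.map (σx x)).natDegree < N + 1 from
        lt_of_le_of_lt natDegree_map_le (by omega))]
      refine Finset.sum_congr rfl fun j _ => ?_
      rw [coeff_map]
    rw [hval, Finset.sum_range_succ'] at h1
    have h2 : σx x (Ψ.coeff 0) = -∑ j ∈ range N, σx x (Ψ.coeff (j + 1)) * φ ^ (j + 1) := by
      rw [pow_zero, mul_one] at h1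
      linear_combination -h1
    have h3 : ‖aeval x (Ψ.coeff 0)‖ = ‖σx x (Ψ.coeff 0)‖ := rfl
    rw [h3, h2, norm_neg]
    calc ‖∑ j ∈ range N, σx x (Ψ.coeff (j + 1)) * φ ^ (j + 1)‖
        ≤ ∑ j ∈ range N, ‖σx x (Ψ.coeff (j + 1)) * φ ^ (j + 1)‖ := norm_sum_le _ _
      _ ≤ ∑ _j ∈ range N, ((((N * E : ℕ) : ℝ) + 1) * (max 1 ‖x‖) ^ (N * E) * H₁) * ‖φ‖ := by
          refine Finset.sum_le_sum fun j _ => ?_
          rw [norm_mul, norm_pow]
          have h4 := σx_coeff x (N * E) (Ψ.coeff (j + 1)) H₁ (hb (j + 1)).1 (hb (j + 1)).2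
          have h5 : ‖φ‖ ^ (j + 1) ≤ ‖φ‖ := by
            rw [pow_succ]
            have : ‖φ‖ ^ j ≤ 1 := pow_le_one₀ (norm_nonneg _) hφ1
            nlinarith [norm_nonneg φ]
          gcongr
      _ = N * (((((N * E : ℕ) : ℝ) + 1) * (max 1 ‖x‖) ^ (N * E) * H₁) * ‖φ‖) := by
          rw [Finset.sum_const, card_range, nsmul_eq_mul]
      _ ≤ (N + 1) * (((((N * E : ℕ) : ℝ) + 1) * (max 1 ‖x‖) ^ (N * E) * H₁) * ‖φ‖) := by
          gcongr
          linarith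
      _ = _ := by rw [hK₂]; ring
  -- conclusion
  have h6 : c₀ ≤ (K₂ * K₁ ^ (κ₀ + 1)) * (H ^ ((N : ℝ) * (κ₀ + 1)) * ‖φ‖) := by
    calc c₀ ≤ H₁ ^ κ₀ * ‖aeval x (Ψ.coeff 0)‖ := hR
      _ ≤ H₁ ^ κ₀ * (‖φ‖ * (K₂ * H₁)) := by gcongr
      _ = K₂ * (H₁ ^ κ₀ * H₁ ^ (1 : ℝ)) * ‖φ‖ := by rw [Real.rpow_one]; ring
      _ = K₂ * H₁ ^ (κ₀ + 1) * ‖φ‖ := by rw [← Real.rpow_add (by linarith)]
      _ = _ := by
          rw [hH₁E, Real.mul_rpow (by linarith) (by positivity), ← Real.rpow_natCast H N,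
            ← Real.rpow_mul hH0.le]
          ring
  have hKK : 0 < K₂ * K₁ ^ (κ₀ + 1) := by positivity
  have h9 : H ^ (-((N : ℝ) * (κ₀ + 1))) * H ^ ((N : ℝ) * (κ₀ + 1)) = 1 := by
    rw [← Real.rpow_add hH0]; simp
  calc min 1 (c₀ / (K₂ * K₁ ^ (κ₀ + 1))) * H ^ (-((N : ℝ) * (κ₀ + 1)))
      ≤ c₀ / (K₂ * K₁ ^ (κ₀ + 1)) * H ^ (-((N : ℝ) * (κ₀ + 1))) := by
        gcongr
        exact min_le_right _ _
    _ ≤ (H ^ ((N : ℝ) * (κ₀ + 1)) * ‖φ‖) * H ^ (-((N : ℝ) * (κ₀ + 1))) := by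
        gcongr
        rw [div_le_iff₀ hKK]
        linarith
    _ = ‖φ‖ * (H ^ (-((N : ℝ) * (κ₀ + 1))) * H ^ ((N : ℝ) * (κ₀ + 1))) := by ring
    _ = ‖φ‖ := by rw [h9, mul_one]

end Pool.Agent.TH456.TM
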