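import Pool.Agent.TH456.TM.Approx

/-!
# Choice of the parameters
-/

set_option autoImplicit false

namespace Pool.Agent.TH456.TM

open Polynomial Finset

lemma lcm_le (m : ℕ) : (Nat.lcmUpto m : ℝ) ≤ (Real.exp (Real.log 4 + 4)) ^ m := by
  have h1 : (0 : ℝ) < Nat.lcmUpto m := by exact_mod_cast Nat.lcmUpto_pos m
  have h2 := Chebyshev.psi_le_const_mul_self (x := (m : ℝ)) (by positivity)
  rw [Chebyshev.psi_eq_log_lcmUpto] at h2
  rw [← Real.exp_nat_mul, ← Real.log_le_iff_le_exp h1]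
  linarith

lemma KC_le (m n : ℕ) : (KC m n : ℝ) ≤ ((n : ℝ) + 1) ^ n *
    (4 ^ n * (Real.exp (Real.log 4 + 4)) ^ (n + 1)) ^ m := by
  unfold KC
  push_cast
  obtain ⟨L, hL⟩ : ∃ L, L = Real.exp (Real.log 4 + 4) := ⟨_, rfl⟩
  have hL0 : 0 < L := by rw [hL]; exact Real.exp_pos _
  have h1 := lcm_le m
  rw [← hL] at h1 ⊢
  have h2 : ((m : ℝ) + 1) ≤ 2 ^ m := by
    have : m + 1 ≤ 2 ^ m := Nat.lt_two_pow_self
    exact_mod_cast this
  calc (2 : ℝ) ^ (m * n) * (Nat.lcmUpto m : ℝ) ^ (n + 1) * (((m : ℝ) + 1) * (n + 1)) ^ n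
      ≤ 2 ^ (m * n) * (L ^ m) ^ (n + 1) * ((2 ^ m) * (n + 1)) ^ n := by gcongr
    _ = _ := by
      have h4 : (4 : ℝ) ^ n = 2 ^ n * 2 ^ n := by
        rw [← mul_pow]; norm_num
      rw [mul_pow, mul_pow, h4, mul_pow, ← pow_mul, ← pow_mul, ← pow_mul, ← pow_mul]
      ring_nf

lemma tail_le (x : ℝ) (hx : 0 ≤ x) (M : ℕ) (hM : 1 ≤ M) (q : ℝ) (hq : x * Real.exp 1 ≤ q * M) :
    x ^ M / M.factorial ≤ q ^ M := by
  have hM0 : (0 : ℝ) < M := by exact_mod_cast hM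
  have h1 := Real.pow_div_factorial_le_exp (M : ℝ) hM0.le M
  have h2 : x ^ M / M.factorial = (x / M) ^ M * ((M : ℝ) ^ M / M.factorial) := by
    rw [div_pow]
    have : ((M : ℝ)) ^ M ≠ 0 := by positivity
    field_simp
  rw [h2]
  calc (x / M) ^ M * ((M : ℝ) ^ M / M.factorial) ≤ (x / M) ^ M * Real.exp M := by gcongr
    _ = (x * Real.exp 1 / M) ^ M := by
        rw [show (M : ℝ) = M * 1 by ring, Real.exp_nat_mul, ← mul_pow]
        congr 1
        ring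
    _ ≤ q ^ M := by
        have h3 : x * Real.exp 1 / M ≤ q := by rwa [div_le_iff₀ hM0]
        gcongr

variable {O : Type} [CommRing O] [IsDomain O]

omit [IsDomain O] in
/-- **Approximations** -/
theorem approx (ι : O →+* ℂ) (hι : ∀ z, z ≠ 0 → 1 ≤ ‖ι z‖) (θ : ℂ) (a b : O) (hb : b ≠ 0)
    (hab : ι b * Complex.exp θ = ι a) (D : ℕ) :
    ∃ (n : ℕ) (C K : ℝ), 1 ≤ n ∧ 1 ≤ C ∧ 1 ≤ K ∧ ∀ m : ℕ, 1 ≤ m → ∀ S : Finset ℂ, S.card ≤ D →
      (∀ α ∈ S, α ≠ 0) → ∃ B : O[X], B.natDegree ≤ n ∧ (∀ j, ‖ι (B.coeff j)‖ ≤ C * K ^ m) ∧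
        ‖(B.map ι).eval θ‖ * (K ^ D) ^ m ≤ C * Real.exp (-m) ∧ ∀ α ∈ S, (B.map ι).eval α ≠ 0 := by
  obtain ⟨L, hL⟩ : ∃ L, L = Real.exp (Real.log 4 + 4) := ⟨_, rfl⟩
  have hL1 : 1 ≤ L := by
    rw [hL]
    apply Real.one_le_exp
    have : 0 ≤ Real.log 4 := Real.log_nonneg (by norm_num)
    linarith
  obtain ⟨W, hW⟩ : ∃ W, W = max 1 (max ‖ι a‖ ‖ι b‖) := ⟨_, rfl⟩
  have hW1 : 1 ≤ W := by rw [hW]; exact le_max_left _ _
  have haW : ‖ι a‖ ≤ W := by rw [hW]; exact (le_max_left _ _).trans (le_max_right _ _)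
  have hbW : ‖ι b‖ ≤ W := by rw [hW]; exact (le_max_right _ _).trans (le_max_right _ _)
  obtain ⟨T, hT⟩ : ∃ T, T = ‖θ‖ := ⟨_, rfl⟩
  have hT0 : 0 ≤ T := by rw [hT]; positivity
  obtain ⟨Y, hY⟩ : ∃ Y, Y = (4 * W * L) ^ (D + 1) * Real.exp (2 * T + 1) := ⟨_, rfl⟩
  have hY1 : 1 ≤ Y := by
    rw [hY]
    have h1 : 1 ≤ (4 * W * L) ^ (D + 1) := one_le_pow₀ (by nlinarith)
    have h2 : 1 ≤ Real.exp (2 * T + 1) := Real.one_le_exp (by positivity)
    nlinarith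
  obtain ⟨n, hn⟩ := exists_nat_ge (max 1 ((4 * L) ^ (D + 1) * (2 * Real.exp 1 * T) * Y))
  have hn1 : (1 : ℝ) ≤ n := (le_max_left _ _).trans hn
  have hn1' : 1 ≤ n := by exact_mod_cast hn1
  have hnZ : (4 * L) ^ (D + 1) * (2 * Real.exp 1 * T) * Y ≤ n := (le_max_right _ _).trans hn
  have hn0 : (0 : ℝ) < n := by linarith
  obtain ⟨q, hq⟩ : ∃ q, q = 2 * Real.exp 1 * T / n := ⟨_, rfl⟩
  have hq0 : 0 ≤ q := by rw [hq]; positivity
  have h4L : 1 ≤ (4 * L) ^ (D + 1) := one_le_pow₀ (by linarith)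
  have hqY : (4 * L) ^ (D + 1) * q ≤ 1 / Y := by
    rw [hq, le_div_iff₀ (by linarith), mul_div_assoc', div_mul_eq_mul_div, div_le_one hn0]
    exact hnZ
  have hq1 : q ≤ 1 := by
    have h1 : q ≤ (4 * L) ^ (D + 1) * q := le_mul_of_one_le_left hq0 h4L
    have h2 : 1 / Y ≤ 1 := by rw [div_le_one (by linarith)]; exact hY1
    linarith
  obtain ⟨Q, hQ⟩ : ∃ Q, Q = 4 ^ n * L ^ (n + 1) := ⟨_, rfl⟩
  have hQ1 : 1 ≤ Q := by
    rw [hQ]
    have h1 : (1 : ℝ) ≤ 4 ^ n := one_le_pow₀ (by norm_num)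
    have h2 : 1 ≤ L ^ (n + 1) := one_le_pow₀ hL1
    nlinarith
  obtain ⟨K, hK⟩ : ∃ K, K = 4 * W * Q := ⟨_, rfl⟩
  have hK1 : 1 ≤ K := by rw [hK]; nlinarith
  -- the main inequality
  have hmain : K ^ (D + 1) * Real.exp (2 * T) * q ^ n ≤ Real.exp (-1) := by
    have e1 : K ^ (D + 1) * Real.exp (2 * T) * q ^ n =
        Y * ((4 * L) ^ (D + 1) * q) ^ n * Real.exp (-1) := by
      rw [hK, hQ, hY, show 2 * T + 1 = 2 * T - (-1) by ring, Real.exp_sub]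
      have h5 : Real.exp (-1) ≠ 0 := (Real.exp_pos _).ne'
      have e2 : (4 * W * (4 ^ n * L ^ (n + 1))) ^ (D + 1) =
          (4 * W * L) ^ (D + 1) * ((4 * L) ^ (D + 1)) ^ n := by
        rw [← pow_mul, mul_comm (D + 1) n, pow_mul, ← mul_pow]
        congr 1
        rw [mul_pow]
        ring
      rw [e2, mul_pow ((4 * L) ^ (D + 1)) q n]
      field_simp
    rw [e1]
    have h6 : ((4 * L) ^ (D + 1) * q) ^ n ≤ (1 / Y) ^ n := by gcongr
    have h7 : (1 / Y) ^ n ≤ 1 / Y := by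
      have h8 : 1 / Y ≤ 1 := by rw [div_le_one (by linarith)]; exact hY1
      exact pow_le_of_le_one (by positivity) h8 (by omega)
    have h9 : Y * ((4 * L) ^ (D + 1) * q) ^ n ≤ 1 := by
      calc Y * ((4 * L) ^ (D + 1) * q) ^ n ≤ Y * (1 / Y) := by
            have := h6.trans h7
            gcongr
        _ = 1 := by field_simp
    calc Y * ((4 * L) ^ (D + 1) * q) ^ n * Real.exp (-1) ≤ 1 * Real.exp (-1) := by gcongr
      _ = _ := one_mul _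
  obtain ⟨C, hC⟩ : ∃ C : ℝ, C = D ^ 2 * (n.factorial * ((n : ℝ) + 1) ^ (n + 1)) + 1 := ⟨_, rfl⟩
  have hC1 : 1 ≤ C := by rw [hC]; have : (0 : ℝ) ≤ D ^ 2 * (n.factorial * ((n : ℝ) + 1) ^ (n + 1)) := by
                                     positivity
                         linarith
  refine ⟨n, C, K, hn1', hC1, hK1, fun m hm S hS hS0 => ?_⟩
  obtain ⟨M, hM⟩ : ∃ M, M = (m + 1) * n := ⟨_, rfl⟩
  obtain ⟨B, hB1, hB2, hB3, hB4⟩ := comb (m := m) ι hι θ a b hb W haW hbW hab hn1' D S hS hS0 _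
    (fun l₀ => Rv_bound (m := m) hn1' hm l₀ θ)
  rw [← hM, ← hT] at hB3
  have hKC : (KC m n : ℝ) ≤ ((n : ℝ) + 1) ^ n * Q ^ m := by rw [hQ, hL]; exact KC_le m n
  have hKC0 : (0 : ℝ) ≤ KC m n := by exact_mod_cast KC_nonneg m n
  have hm2 : ((m : ℝ) + 1) * (m + 1) ≤ 4 ^ m := by
    have h2 : ((m : ℝ) + 1) ≤ 2 ^ m := by
      have : m + 1 ≤ 2 ^ m := Nat.lt_two_pow_self
      exact_mod_cast this
    calc ((m : ℝ) + 1) * (m + 1) ≤ 2 ^ m * 2 ^ m := by gcongr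
      _ = 4 ^ m := by rw [← mul_pow]; norm_num
  have hKm : K ^ m = 4 ^ m * W ^ m * Q ^ m := by rw [hK, mul_pow, mul_pow]
  have hfac : (0 : ℝ) ≤ n.factorial := by positivity
  refine ⟨B, hB1, fun j => ?_, ?_, hB4⟩
  · refine (hB2 j).trans ?_
    have hn1n : ((n : ℝ) + 1) ^ n ≤ ((n : ℝ) + 1) ^ (n + 1) :=
      pow_le_pow_right₀ (by linarith) (Nat.le_succ _)
    calc ((m : ℝ) + 1) * D ^ 2 * ((m + 1) * (W ^ m * (n.factorial * (KC m n : ℝ))))
        = D ^ 2 * n.factorial * ((((m : ℝ) + 1) * (m + 1)) * W ^ m * (KC m n : ℝ)) := by ring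
      _ ≤ D ^ 2 * n.factorial * (4 ^ m * W ^ m * (((n : ℝ) + 1) ^ n * Q ^ m)) := by gcongr
      _ = (D ^ 2 * (n.factorial * ((n : ℝ) + 1) ^ n)) * K ^ m := by rw [hKm]; ring
      _ ≤ C * K ^ m := by
          have : (D : ℝ) ^ 2 * (n.factorial * ((n : ℝ) + 1) ^ n) ≤ C := by
            rw [hC]
            have : (D : ℝ) ^ 2 * (n.factorial * ((n : ℝ) + 1) ^ n) ≤
                (D : ℝ) ^ 2 * (n.factorial * ((n : ℝ) + 1) ^ (n + 1)) := by gcongr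
            linarith
          gcongr
  · have hM1 : 1 ≤ M := by rw [hM]; exact Nat.mul_pos m.succ_pos hn1'
    have hxM : (2 * m * T) ^ M / M.factorial ≤ q ^ M := by
      refine tail_le _ (by positivity) M hM1 q ?_
      rw [hM, hq]
      push_cast
      have : 2 * Real.exp 1 * T / n * (((m : ℝ) + 1) * n) = 2 * Real.exp 1 * T * (m + 1) := by
        field_simp
      rw [this]
      have he : 0 < Real.exp 1 := Real.exp_pos 1
      have : 0 ≤ Real.exp 1 * T := by positivity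
      nlinarith
    have hqM : q ^ M ≤ (q ^ n) ^ m := by
      rw [← pow_mul]
      apply pow_le_pow_of_le_one hq0 hq1
      rw [hM, mul_comm n m]
      exact Nat.mul_le_mul_right n (Nat.le_succ m)
    have hx2 : Real.exp (2 * m * T) = Real.exp (2 * T) ^ m := by
      rw [← Real.exp_nat_mul]; congr 1; ring
    calc ‖(B.map ι).eval θ‖ * (K ^ D) ^ m
        ≤ (((m : ℝ) + 1) * D ^ 2 * (W ^ m * (n.factorial * (((m : ℝ) + 1) * (n + 1) * (KC m n : ℝ) *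
          ((2 * m * T) ^ M / M.factorial * Real.exp (2 * m * T)))))) * (K ^ D) ^ m := by gcongr
      _ = D ^ 2 * n.factorial * (n + 1) * ((((m : ℝ) + 1) * (m + 1)) * W ^ m * (KC m n : ℝ) *
          ((2 * m * T) ^ M / M.factorial * Real.exp (2 * m * T))) * (K ^ D) ^ m := by ring
      _ ≤ D ^ 2 * n.factorial * (n + 1) * (4 ^ m * W ^ m * (((n : ℝ) + 1) ^ n * Q ^ m) *
          ((q ^ n) ^ m * Real.exp (2 * T) ^ m)) * (K ^ D) ^ m := by
          rw [hx2]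
          have := hxM.trans hqM
          gcongr
      _ = (D ^ 2 * (n.factorial * ((n : ℝ) + 1) ^ (n + 1))) *
          (K ^ (D + 1) * Real.exp (2 * T) * q ^ n) ^ m := by
          rw [mul_pow, mul_pow, pow_succ K D, mul_pow, hKm]
          ring
      _ ≤ C * (Real.exp (-1)) ^ m := by
          have h1 : (D : ℝ) ^ 2 * (n.factorial * ((n : ℝ) + 1) ^ (n + 1)) ≤ C := by rw [hC]; linarith
          have h2 : 0 ≤ K ^ (D + 1) * Real.exp (2 * T) * q ^ n := by positivity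
          gcongr
      _ = C * Real.exp (-m) := by
          rw [← Real.exp_nat_mul]
          congr 2
          ring

end Pool.Agent.TH456.TM
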