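import Pool.Agent.TH456.TM.Meas1
import Pool.Agent.TH647.NR.Res

/-!
# The transcendence measure
-/

set_option autoImplicit false

namespace Pool.Agent.TH456.TM

open Polynomial Finset

variable {O : Type} [CommRing O] [IsDomain O]

omit [IsDomain O] in
/-- the measure for polynomials with nonzero constant coefficient -/
theorem measure_aux (ι : O →+* ℂ) (hι : ∀ z, z ≠ 0 → 1 ≤ ‖ι z‖) (θ : ℂ) (a b : O)
    (hb : b ≠ 0) (hab : ι b * Complex.exp θ = ι a) (D : ℕ) :
    ∃ κ c : ℝ, 0 ≤ κ ∧ 0 < c ∧ c ≤ 1 ∧ ∀ P : O[X], P.coeff 0 ≠ 0 → P.natDegree ≠ 0 → P.natDegree ≤ D →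
      ∀ H : ℝ, 1 ≤ H → (∀ j, ‖ι (P.coeff j)‖ ≤ H) → c ≤ H ^ κ * ‖(P.map ι).eval θ‖ := by
  obtain ⟨n, C, K, hn, hC, hK, happ⟩ := approx ι hι θ a b hb hab D
  have hinj : Function.Injective ι := by
    rw [injective_iff_map_eq_zero]
    intro z hz
    by_contra h
    have := hι z h
    rw [hz, norm_zero] at this
    linarith
  obtain ⟨T, hT⟩ : ∃ T, T = max 1 ‖θ‖ := ⟨_, rfl⟩
  have hT1 : 1 ≤ T := by rw [hT]; exact le_max_left _ _
  have hθT : ‖θ‖ ≤ T := by rw [hT]; exact le_max_right _ _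
  obtain ⟨C₃, hC₃⟩ : ∃ C₃ : ℝ, C₃ = (D + n : ℕ) * T ^ (D + n) * (D + n).factorial := ⟨_, rfl⟩
  have hC₃1 : 1 ≤ C₃ := by
    rw [hC₃]
    have h1 : (1 : ℝ) ≤ (D + n : ℕ) := by exact_mod_cast (by omega : 1 ≤ D + n)
    have h2 : 1 ≤ T ^ (D + n) := one_le_pow₀ hT1
    have h3 : (1 : ℝ) ≤ (D + n).factorial := by exact_mod_cast Nat.factorial_pos _
    have h4 : 1 ≤ ((D + n : ℕ) : ℝ) * T ^ (D + n) := by nlinarith
    nlinarith
  obtain ⟨A, hA⟩ : ∃ A : ℝ, A = C₃ * C ^ (D + 1) := ⟨_, rfl⟩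
  have hA1 : 1 ≤ A := by
    rw [hA]
    have : 1 ≤ C ^ (D + 1) := one_le_pow₀ hC
    nlinarith
  have hlogA : 0 ≤ Real.log A := Real.log_nonneg hA1
  have hlogK : 0 ≤ Real.log K := Real.log_nonneg hK
  obtain ⟨c, hc⟩ : ∃ c : ℝ, c = 1 / (C₃ * C ^ D * Real.exp ((Real.log A + 2) * D * Real.log K)) := ⟨_, rfl⟩
  have hden : 1 ≤ C₃ * C ^ D * Real.exp ((Real.log A + 2) * D * Real.log K) := by
    have h1 : 1 ≤ C ^ D := one_le_pow₀ hC
    have h2 : 1 ≤ Real.exp ((Real.log A + 2) * D * Real.log K) := Real.one_le_exp (by positivity)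
    have h3 : 1 ≤ C₃ * C ^ D := by nlinarith
    nlinarith
  refine ⟨n + n * D * Real.log K, c, by positivity, by rw [hc]; positivity,
    by rw [hc]; exact (div_le_one (by linarith)).2 hden, ?_⟩
  intro P hP0 hPd hPD H hH hPH
  have hH0 : 0 < H := by linarith
  have hlogH : 0 ≤ Real.log H := Real.log_nonneg hH
  obtain ⟨m, hm⟩ : ∃ m : ℕ, m = ⌈Real.log A + n * Real.log H⌉₊ + 1 := ⟨_, rfl⟩
  have hm1 : 1 ≤ m := by omega
  have hmlow : Real.log A + n * Real.log H < m := by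
    have := Nat.le_ceil (Real.log A + n * Real.log H)
    rw [hm]; push_cast; linarith
  have hmup : (m : ℝ) ≤ Real.log A + n * Real.log H + 2 := by
    have := Nat.ceil_lt_add_one (a := Real.log A + n * Real.log H) (by positivity)
    rw [hm]; push_cast; linarith
  -- the roots
  have hP : P ≠ 0 := by
    rintro rfl; simp at hP0
  have hfne : P.map ι ≠ 0 := (Polynomial.map_ne_zero_iff hinj).2 hP
  obtain ⟨B, hB1, hB2, hB3, hB4⟩ := happ m hm1 (P.map ι).roots.toFinset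
    ((Multiset.toFinset_card_le _).trans ((Polynomial.card_roots' _).trans
      (natDegree_map_le.trans hPD)))
    (fun α hα => by
      rw [Multiset.mem_toFinset, mem_roots hfne, IsRoot.def] at hα
      rintro rfl
      rw [← coeff_zero_eq_eval_zero, coeff_map] at hα
      exact hP0 (hinj (by rw [hα, map_zero])))
  obtain ⟨K₀, hK₀⟩ : ∃ K₀, K₀ = C * K ^ m := ⟨_, rfl⟩
  rw [← hK₀] at hB2
  have hK₀1 : 1 ≤ K₀ := by
    rw [hK₀]
    have : 1 ≤ K ^ m := one_le_pow₀ hK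
    nlinarith
  have hK₀0 : 0 < K₀ := by linarith
  obtain ⟨d, hd⟩ : ∃ d, d = P.natDegree := ⟨_, rfl⟩
  obtain ⟨e, he⟩ : ∃ e, e = B.natDegree := ⟨_, rfl⟩
  rw [← hd] at hPd hPD
  rw [← he] at hB1
  have hfd : (P.map ι).natDegree = d := by rw [natDegree_map_eq_of_injective hinj, hd]
  have hgd : (B.map ι).natDegree = e := by rw [natDegree_map_eq_of_injective hinj, he]
  -- coprimality
  have hcop : IsCoprime (P.map ι) (B.map ι) := by
    refine (Polynomial.isCoprime_iff_aeval_ne_zero_of_isAlgClosed ℂ ℂ _ _).2 fun z => ?_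
    by_cases hz : aeval z (P.map ι) = 0
    · right
      rw [coe_aeval_eq_eval] at hz ⊢
      exact hB4 z (by
        rw [Multiset.mem_toFinset, mem_roots hfne, IsRoot.def]
        exact hz)
    · left; exact hz
  have hres : resultant (P.map ι) (B.map ι) d e ≠ 0 := by
    have := resultant_ne_zero _ _ hcop
    rwa [hfd, hgd] at this
  have hres1 : 1 ≤ ‖resultant (P.map ι) (B.map ι) d e‖ := by
    rw [resultant_map_map] at hres ⊢
    exact hι _ fun h => hres (by rw [h, map_zero])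
  -- the upper bound
  obtain ⟨ε, hε⟩ : ∃ ε, ε = max ‖(P.map ι).eval θ‖ ‖(B.map ι).eval θ‖ := ⟨_, rfl⟩
  have hε0 : 0 ≤ ε := by rw [hε]; exact (norm_nonneg _).trans (le_max_left _ _)
  have hscale : ‖resultant (Polynomial.C ((1 / H : ℝ) : ℂ) * P.map ι) (Polynomial.C ((1 / K₀ : ℝ) : ℂ) * B.map ι) d e‖ =
      (1 / H) ^ e * ((1 / K₀) ^ d * ‖resultant (P.map ι) (B.map ι) d e‖) := by
    rw [resultant_C_mul_left, resultant_C_mul_right, norm_mul, norm_mul, norm_pow, norm_pow,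
      Complex.norm_real, Complex.norm_real, Real.norm_of_nonneg (by positivity),
      Real.norm_of_nonneg (by positivity)]
  have hup := Pool.Agent.TH647.NR.norm_resultant_le (Polynomial.C ((1 / H : ℝ) : ℂ) * P.map ι)
    (Polynomial.C ((1 / K₀ : ℝ) : ℂ) * B.map ι) d e ((natDegree_C_mul_le _ _).trans hfd.le)
    ((natDegree_C_mul_le _ _).trans hgd.le) (by omega) 1 T ε le_rfl
    (fun i => by
      rw [coeff_C_mul, coeff_map, norm_mul, Complex.norm_real, Real.norm_of_nonneg (by positivity),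
        div_mul_eq_mul_div, one_mul, div_le_one hH0]
      exact hPH i)
    (fun i => by
      rw [coeff_C_mul, coeff_map, norm_mul, Complex.norm_real, Real.norm_of_nonneg (by positivity),
        div_mul_eq_mul_div, one_mul, div_le_one hK₀0]
      exact hB2 i) θ hT1 hθT
    (by
      rw [eval_mul, eval_C, norm_mul, Complex.norm_real, Real.norm_of_nonneg (by positivity),
        div_mul_eq_mul_div, one_mul, div_le_iff₀ hH0]
      have h1 : ‖(P.map ι).eval θ‖ ≤ ε := by rw [hε]; exact le_max_left _ _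
      nlinarith)
    (by
      rw [eval_mul, eval_C, norm_mul, Complex.norm_real, Real.norm_of_nonneg (by positivity),
        div_mul_eq_mul_div, one_mul, div_le_iff₀ hK₀0]
      have h1 : ‖(B.map ι).eval θ‖ ≤ ε := by rw [hε]; exact le_max_right _ _
      nlinarith)
  rw [hscale, one_pow, mul_one] at hup
  have hde : d + e ≤ D + n := by omega
  have hup2 : 1 ≤ H ^ n * K₀ ^ D * (C₃ * ε) := by
    have h1 : ((d : ℝ) + e) * (T ^ (d + e) * ε) * (d + e).factorial ≤ C₃ * ε := by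
      rw [hC₃]
      have h2 : ((d : ℝ) + e) ≤ (D + n : ℕ) := by exact_mod_cast hde
      have h3 : T ^ (d + e) ≤ T ^ (D + n) := pow_le_pow_right₀ hT1 hde
      have h4 : (((d + e).factorial : ℕ) : ℝ) ≤ (D + n).factorial := by
        exact_mod_cast Nat.factorial_le hde
      calc ((d : ℝ) + e) * (T ^ (d + e) * ε) * (d + e).factorial
          ≤ (D + n : ℕ) * (T ^ (D + n) * ε) * (D + n).factorial := by gcongr
        _ = _ := by ring
    have h5 : (1 / H) ^ e * ((1 / K₀) ^ d * 1) ≤ C₃ * ε := by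
      refine le_trans ?_ (hup.trans h1)
      gcongr
    have h6 : H ^ e ≤ H ^ n := pow_le_pow_right₀ hH hB1
    have h7 : K₀ ^ d ≤ K₀ ^ D := pow_le_pow_right₀ hK₀1 hPD
    have hce : 0 ≤ C₃ * ε := by positivity
    calc (1 : ℝ) = H ^ e * K₀ ^ d * ((1 / H) ^ e * ((1 / K₀) ^ d * 1)) := by
          rw [one_div, one_div, inv_pow, inv_pow]
          field_simp
      _ ≤ H ^ n * K₀ ^ D * (C₃ * ε) := by gcongr
  have hK₀D : K₀ ^ D = C ^ D * (K ^ D) ^ m := by
    rw [hK₀, mul_pow, ← pow_mul, ← pow_mul, mul_comm m D]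
  rcases le_total ‖(P.map ι).eval θ‖ ‖(B.map ι).eval θ‖ with hle | hle
  · exfalso
    rw [max_eq_right hle] at hε
    have h1 : H ^ n * K₀ ^ D * (C₃ * ε) ≤ A * (H ^ n * Real.exp (-m)) := by
      rw [hK₀D, hε, hA]
      calc H ^ n * (C ^ D * (K ^ D) ^ m) * (C₃ * ‖(B.map ι).eval θ‖)
          = H ^ n * C ^ D * C₃ * (‖(B.map ι).eval θ‖ * (K ^ D) ^ m) := by ring
        _ ≤ H ^ n * C ^ D * C₃ * (C * Real.exp (-m)) := by gcongr
        _ = _ := by ring
    have h2 : A * (H ^ n * Real.exp (-m)) < 1 := by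
      have h3 : A * H ^ n = Real.exp (Real.log A + n * Real.log H) := by
        rw [Real.exp_add, Real.exp_log (by linarith), Real.exp_nat_mul, Real.exp_log hH0]
      rw [← mul_assoc, h3, ← Real.exp_add, Real.exp_lt_one_iff]
      linarith
    linarith
  · rw [max_eq_left hle] at hε
    rw [← hε]
    have h1 : (K ^ D) ^ m ≤ Real.exp ((Real.log A + 2) * D * Real.log K) *
        H ^ (n * D * Real.log K) := by
      have h2 : (K ^ D) ^ m = Real.exp (m * (D * Real.log K)) := by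
        rw [Real.exp_nat_mul, Real.exp_nat_mul, Real.exp_log (by linarith)]
      have h3 : H ^ ((n : ℝ) * D * Real.log K) = Real.exp (Real.log H * (n * D * Real.log K)) := by
        rw [Real.rpow_def_of_pos hH0]
      rw [h2, h3, ← Real.exp_add]
      apply Real.exp_le_exp.2
      have h4 : 0 ≤ (D : ℝ) * Real.log K := by positivity
      nlinarith
    have h5 : H ^ ((n : ℝ) + n * D * Real.log K) = H ^ n * H ^ ((n : ℝ) * D * Real.log K) := by
      rw [Real.rpow_add hH0, Real.rpow_natCast]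
    rw [hc, div_le_iff₀ (by linarith), h5]
    calc (1 : ℝ) ≤ H ^ n * K₀ ^ D * (C₃ * ε) := hup2
      _ = H ^ n * C ^ D * (C₃ * ε) * (K ^ D) ^ m := by rw [hK₀D]; ring
      _ ≤ H ^ n * C ^ D * (C₃ * ε) * (Real.exp ((Real.log A + 2) * D * Real.log K) *
          H ^ (n * D * Real.log K)) := by gcongr
      _ = _ := by ring

/-- **Transcendence measure** of `θ ≠ 0` with `e^θ` in the fraction field of `O` -/
theorem measure (ι : O →+* ℂ) (hι : ∀ z, z ≠ 0 → 1 ≤ ‖ι z‖) (θ : ℂ) (hθ : θ ≠ 0) (a b : O)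
    (hb : b ≠ 0) (hab : ι b * Complex.exp θ = ι a) (D : ℕ) :
    ∃ κ c : ℝ, 0 ≤ κ ∧ 0 < c ∧ ∀ P : O[X], P ≠ 0 → P.natDegree ≤ D →
      ∀ H : ℝ, 1 ≤ H → (∀ j, ‖ι (P.coeff j)‖ ≤ H) → c ≤ H ^ κ * ‖(P.map ι).eval θ‖ := by
  obtain ⟨κ, c, hκ, hc, hc1, h⟩ := measure_aux ι hι θ a b hb hab D
  obtain ⟨μ, hμ⟩ : ∃ μ, μ = min 1 ‖θ‖ := ⟨_, rfl⟩
  have hμ0 : 0 < μ := by rw [hμ]; exact lt_min one_pos (norm_pos_iff.2 hθ)
  have hμ1 : μ ≤ 1 := by rw [hμ]; exact min_le_left _ _
  have hμθ : μ ≤ ‖θ‖ := by rw [hμ]; exact min_le_right _ _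
  refine ⟨κ, c * μ ^ D, hκ, by positivity, ?_⟩
  have key : ∀ d : ℕ, ∀ P : O[X], P ≠ 0 → P.natDegree = d → d ≤ D →
      ∀ H : ℝ, 1 ≤ H → (∀ j, ‖ι (P.coeff j)‖ ≤ H) → c * μ ^ d ≤ H ^ κ * ‖(P.map ι).eval θ‖ := by
    intro d
    induction d with
    | zero =>
      intro P hP hPd _ H hH _
      obtain ⟨p, rfl⟩ : ∃ p, P = C p := ⟨P.coeff 0, eq_C_of_natDegree_eq_zero hPd⟩
      rw [map_C, eval_C, pow_zero, mul_one]
      have h1 : 1 ≤ ‖ι p‖ := hι p fun h => hP (by rw [h, C_0])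
      have h2 : 1 ≤ H ^ κ := Real.one_le_rpow hH hκ
      nlinarith
    | succ d ih =>
      intro P hP hPd hdD H hH hPH
      by_cases h0 : P.coeff 0 = 0
      · have h1 : P.divX * X = P := by
          have := P.divX_mul_X_add
          rw [h0, C_0, add_zero] at this
          exact this
        have h2 : P.divX ≠ 0 := by
          intro h2; rw [h2, zero_mul] at h1; exact hP h1.symm
        have h3 : P.divX.natDegree = d := by
          have := P.natDegree_divX_eq_natDegree_tsub_one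
          omega
        have h4 := ih P.divX h2 h3 (by omega) H hH (fun j => by rw [coeff_divX]; exact hPH (j + 1))
        rw [← h1, Polynomial.map_mul, map_X, eval_mul, eval_X, norm_mul, pow_succ]
        have h5 : 0 ≤ H ^ κ * ‖(P.divX.map ι).eval θ‖ := by positivity
        calc c * (μ ^ d * μ) = (c * μ ^ d) * μ := by ring
          _ ≤ (H ^ κ * ‖(P.divX.map ι).eval θ‖) * ‖θ‖ := by gcongr
          _ = _ := by ring
      · have h1 := h P h0 (by omega) (by omega) H hH hPH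
        refine le_trans ?_ h1
        have : μ ^ (d + 1) ≤ 1 := pow_le_one₀ hμ0.le hμ1
        nlinarith
  intro P hP hPD H hH hPH
  refine le_trans ?_ (key P.natDegree P hP rfl hPD H hH hPH)
  have : μ ^ D ≤ μ ^ P.natDegree := pow_le_pow_of_le_one hμ0.le hμ1 hPD
  gcongr

end Pool.Agent.TH456.TM
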