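import Pool.Agent.TH456.TM.Near

/-!
# Two polynomials in one variable at related points

Let `x` have a transcendence measure of polynomial type in every degree.  We show that for every
complex number `s` the values `P(s)` and `F(x, s)` are not both very small, as soon as `F(X, α)` is
not identically zero for the roots `α` of `P`.
-/

set_option autoImplicit false

namespace Pool.Agent.TH456.TM

open Polynomial Finset
open Pool.Agent.TH647.NR (norm_resultant_le resultant_bounds count_of_gap)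

/-- the values of two polynomials with non-vanishing resultant are not both small -/
theorem core_res (x : ℂ) (hx : MeasT x) (D E : ℕ) (hD : 1 ≤ D) :
    ∃ κ : ℝ, 0 < κ ∧ ∀ T : ℝ, 1 ≤ T →
    ∃ C : ℝ, 0 < C ∧ ∀ t : ℂ, ‖t‖ ≤ T → ∀ P Q : ℤ[X][X], P.natDegree ≤ D → Q.natDegree ≤ D →
      (∀ j, (P.coeff j).natDegree ≤ E) → (∀ j, (Q.coeff j).natDegree ≤ E) →
      0 < P.natDegree + Q.natDegree → resultant P Q P.natDegree Q.natDegree ≠ 0 →
      ∀ H : ℝ, 1 ≤ H → (∀ j k, |(((P.coeff j).coeff k : ℤ) : ℝ)| ≤ H) →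
        (∀ j k, |(((Q.coeff j).coeff k : ℤ) : ℝ)| ≤ H) →
        C * H ^ (-κ) ≤ max ‖vl x t P‖ ‖vl x t Q‖ := by
  have hDR : (1 : ℝ) ≤ D := by exact_mod_cast hD
  obtain ⟨r, c, hr0, hc, hm⟩ := hx (2 * D * E)
  obtain ⟨κ, hκE⟩ : ∃ κ : ℝ, κ = 2 * D * r + 2 * D := ⟨_, rfl⟩
  refine ⟨κ, by rw [hκE]; positivity, fun T hT => ?_⟩
  obtain ⟨A, hA⟩ : ∃ A : ℝ, A = (E + 1) * (max 1 ‖x‖) ^ E := ⟨_, rfl⟩
  have hA1 : 1 ≤ A := by
    rw [hA]
    have h1 : (1 : ℝ) ≤ (max 1 ‖x‖) ^ E := one_le_pow₀ (le_max_left _ _)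
    have h2 : (0 : ℝ) ≤ E := by positivity
    nlinarith
  obtain ⟨K₁, hK₁⟩ : ∃ K₁ : ℝ, K₁ = (2 * D) * T ^ (2 * D) * ((2 * D).factorial * A ^ (2 * D)) :=
    ⟨_, rfl⟩
  have hK₁0 : 0 < K₁ := by rw [hK₁]; positivity
  obtain ⟨K₂, hK₂⟩ : ∃ K₂ : ℝ, K₂ = (2 * D).factorial * ((E : ℝ) + 1) ^ (2 * D) := ⟨_, rfl⟩
  have hE1 : (1 : ℝ) ≤ (E : ℝ) + 1 := by
    have : (0 : ℝ) ≤ E := by positivity
    linarith
  have hK₂1 : 1 ≤ K₂ := by
    rw [hK₂]
    have h1 : (1 : ℝ) ≤ (2 * D).factorial := by exact_mod_cast Nat.factorial_pos _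
    have h2 : (1 : ℝ) ≤ ((E : ℝ) + 1) ^ (2 * D) := one_le_pow₀ hE1
    nlinarith
  refine ⟨c / (K₁ * K₂ ^ r), by positivity, ?_⟩
  intro t htT P Q hP3 hQ3 hP4 hQ4 hN0' hres H hH1 hcP hcQ
  have hH0 : 0 < H := by linarith
  obtain ⟨ε, hε⟩ : ∃ ε : ℝ, ε = max ‖vl x t P‖ ‖vl x t Q‖ := ⟨_, rfl⟩
  have hε0 : 0 ≤ ε := by rw [hε]; exact (norm_nonneg _).trans (le_max_left _ _)
  rw [← hε]
  obtain ⟨m, hm'⟩ : ∃ m, m = P.natDegree := ⟨_, rfl⟩
  obtain ⟨n, hn'⟩ : ∃ n, n = Q.natDegree := ⟨_, rfl⟩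
  have hN : m + n ≤ 2 * D := by omega
  have hN0 : 0 < m + n := by omega
  obtain ⟨R, hR⟩ : ∃ R, R = resultant P Q m n := ⟨_, rfl⟩
  have hR0 : R ≠ 0 := by
    rw [hR, hm', hn']
    exact hres
  -- upper bound
  have hup : ‖σx x R‖ ≤ K₁ * H ^ (2 * D) * ε := by
    have hB : 1 ≤ A * H := by nlinarith
    have h3 := norm_resultant_le (P.map (σx x)) (Q.map (σx x)) m n
      (natDegree_map_le.trans hm'.ge) (natDegree_map_le.trans hn'.ge) hN0 (A * H) T
      ε hB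
      (fun i => by
        rw [coeff_map, hA]
        exact σx_coeff x E _ H (hP4 i) (hcP i))
      (fun i => by
        rw [coeff_map, hA]
        exact σx_coeff x E _ H (hQ4 i) (hcQ i)) t hT htT (by rw [hε]; exact le_max_left _ _)
      (by rw [hε]; exact le_max_right _ _)
    rw [resultant_map_map, ← hR] at h3
    refine h3.trans ?_
    have hNR : ((m : ℝ) + n) ≤ 2 * D := by exact_mod_cast hN
    have h4 : T ^ (m + n) ≤ T ^ (2 * D) := pow_le_pow_right₀ hT hN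
    have h5 : (((m + n).factorial : ℕ) : ℝ) ≤ (2 * D).factorial := by
      exact_mod_cast Nat.factorial_le hN
    have h6 : (A * H) ^ (m + n) ≤ (A * H) ^ (2 * D) := pow_le_pow_right₀ hB hN
    calc ((m : ℝ) + n) * (T ^ (m + n) * ε) * ((m + n).factorial * (A * H) ^ (m + n))
        ≤ (2 * D) * (T ^ (2 * D) * ε) * ((2 * D).factorial * (A * H) ^ (2 * D)) := by
          gcongr
      _ = _ := by
          rw [hK₁, mul_pow]
          ring
  -- lower bound
  have hlow : c ≤ (K₂ * H ^ (2 * D)) ^ r * ‖σx x R‖ := by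
    obtain ⟨h', hh'E⟩ : ∃ h' : ℕ, h' = ⌊H⌋₊ := ⟨_, rfl⟩
    have hh'1 : (h' : ℝ) ≤ H := by rw [hh'E]; exact Nat.floor_le hH0.le
    have hfl : ∀ z : ℤ, |(z : ℝ)| ≤ H → |z| ≤ (h' : ℤ) := by
      intro z hz
      rw [← Int.cast_abs, Int.abs_eq_natAbs] at hz
      have h1 : z.natAbs ≤ h' := by
        rw [hh'E]
        refine Nat.le_floor ?_
        rw [Int.cast_natCast] at hz
        exact hz
      rw [Int.abs_eq_natAbs]
      exact_mod_cast h1
    obtain ⟨b1, b2⟩ := resultant_bounds P Q m n E (h' : ℤ) (by positivity) hP4 hQ4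
      (fun j k => hfl _ (hcP j k)) (fun j k => hfl _ (hcQ j k))
    rw [← hR] at b1 b2
    have h3 : ∀ k, |(R.coeff k : ℝ)| ≤ K₂ * H ^ (2 * D) := by
      intro k
      have h4 := b2 k
      have h5 : |(R.coeff k : ℝ)| ≤ (m + n).factorial * (((E : ℝ) + 1) * h') ^ (m + n) := by
        exact_mod_cast h4
      refine h5.trans ?_
      have h6 : (((m + n).factorial : ℕ) : ℝ) ≤ (2 * D).factorial := by
        exact_mod_cast Nat.factorial_le hN
      have h8 : (1 : ℝ) ≤ ((E : ℝ) + 1) * H := by nlinarith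
      have h7 : (((E : ℝ) + 1) * H) ^ (m + n) ≤ (((E : ℝ) + 1) * H) ^ (2 * D) :=
        pow_le_pow_right₀ h8 hN
      calc ((m + n).factorial : ℝ) * (((E : ℝ) + 1) * h') ^ (m + n)
          ≤ (m + n).factorial * (((E : ℝ) + 1) * H) ^ (m + n) := by gcongr
        _ ≤ (2 * D).factorial * (((E : ℝ) + 1) * H) ^ (2 * D) := by gcongr
        _ = _ := by rw [hK₂, mul_pow]; ring
    have h4 : 1 ≤ K₂ * H ^ (2 * D) := by
      have : 1 ≤ H ^ (2 * D) := one_le_pow₀ hH1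
      nlinarith
    exact hm R hR0 (b1.trans (Nat.mul_le_mul_right _ hN)) (K₂ * H ^ (2 * D)) h4 h3
  -- conclusion
  have hpowr : (K₂ * H ^ (2 * D)) ^ r = K₂ ^ r * H ^ ((2 * D : ℝ) * r) := by
    rw [Real.mul_rpow (by linarith) (by positivity), ← Real.rpow_natCast H (2 * D),
      ← Real.rpow_mul hH0.le]
    push_cast
    rfl
  have h2D : H ^ (2 * D) = H ^ (2 * D : ℝ) := by
    rw [← Real.rpow_natCast H (2 * D)]
    push_cast
    rfl
  have hfin : c ≤ (K₁ * K₂ ^ r) * (H ^ κ * ε) := by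
    calc c ≤ (K₂ * H ^ (2 * D)) ^ r * ‖σx x R‖ := hlow
      _ ≤ (K₂ * H ^ (2 * D)) ^ r * (K₁ * H ^ (2 * D) * ε) := by gcongr
      _ = (K₁ * K₂ ^ r) * (H ^ κ * ε) := by
          rw [hpowr, h2D, hκE, Real.rpow_add hH0]
          ring
  have hKK : 0 < K₁ * K₂ ^ r := by positivity
  have h9 : H ^ (-κ) * H ^ κ = 1 := by rw [← Real.rpow_add hH0]; simp
  rw [div_mul_eq_mul_div, div_le_iff₀ hKK]
  calc c * H ^ (-κ) ≤ ((K₁ * K₂ ^ r) * (H ^ κ * ε)) * H ^ (-κ) := by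
        have : 0 ≤ H ^ (-κ) := by positivity
        gcongr
    _ = ε * (K₁ * K₂ ^ r) * (H ^ (-κ) * H ^ κ) := by ring
    _ = _ := by rw [h9, mul_one]

/-- the polynomial `F(X, α)` -/
noncomputable def spec (α : ℂ) (F : ℤ[X][X]) : ℂ[X] :=
  F.eval₂ (mapRingHom (Int.castRingHom ℂ)) (C α)

lemma spec_eval (α x₀ : ℂ) (F : ℤ[X][X]) : (spec α F).eval x₀ = vl x₀ α F := by
  unfold spec vl
  rw [← coe_evalRingHom, hom_eval₂, eval_map]
  congr 1
  · ext z
    · simp [σx]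
    · simp [σx]
  · simp

lemma vl_map_C (x s : ℂ) (P : ℤ[X]) : vl x s (P.map C) = aeval s P := by
  unfold vl
  rw [Polynomial.map_map, eval_map, aeval_def]
  congr 1
  ext z
  simp [σx]

/-- the resultant does not vanish identically -/
lemma res_ne (P : ℤ[X]) (hP : P ≠ 0) (F : ℤ[X][X])
    (hF : ∀ α : ℂ, aeval α P = 0 → ∃ x₀ : ℂ, vl x₀ α F ≠ 0) :
    resultant (P.map C) F (P.map C).natDegree F.natDegree ≠ 0 := by
  classical
  set ι := Int.castRingHom ℂ with hι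
  have hinj : Function.Injective ι := Int.cast_injective
  have hP' : P.map ι ≠ 0 := (Polynomial.map_ne_zero_iff hinj).2 hP
  -- choose a good `x₀`
  set B : Set ℂ := ⋃ α ∈ (P.map ι).roots.toFinset, ((spec α F).roots.toFinset : Set ℂ) with hB
  have hBfin : B.Finite := by
    rw [hB]
    exact Set.Finite.biUnion (Finset.finite_toSet _) fun _ _ => Finset.finite_toSet _
  obtain ⟨x₀, hx₀⟩ := hBfin.exists_notMem
  have hgood : ∀ α ∈ (P.map ι).roots, vl x₀ α F ≠ 0 := by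
    intro α hα h0
    have h1 : aeval α P = 0 := by
      rw [mem_roots hP', IsRoot.def, eval_map] at hα
      rw [aeval_def]
      exact hα
    obtain ⟨x₁, hx₁⟩ := hF α h1
    have h2 : spec α F ≠ 0 := by
      intro h
      rw [← spec_eval, h, eval_zero] at hx₁
      exact hx₁ rfl
    apply hx₀
    rw [hB]
    refine Set.mem_biUnion (show α ∈ (P.map ι).roots.toFinset from Multiset.mem_toFinset.2 hα) ?_
    rw [Finset.mem_coe, Multiset.mem_toFinset, mem_roots h2, IsRoot.def, spec_eval]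
    exact h0
  intro h0
  have h1 : resultant ((P.map C).map (σx x₀)) (F.map (σx x₀)) (P.map C).natDegree F.natDegree = 0 := by
    rw [resultant_map_map, h0, map_zero]
  have h2 : (P.map C).map (σx x₀) = P.map ι := by
    rw [Polynomial.map_map]
    congr 1
    ext z
    simp [σx]
  have h3 : (P.map (C : ℤ →+* ℤ[X])).natDegree = (P.map ι).natDegree := by
    rw [natDegree_map_eq_of_injective C_injective, natDegree_map_eq_of_injective hinj]
  rw [h2, h3, resultant_eq_prod_eval _ _ _ natDegree_map_le (IsAlgClosed.splits _)] at h1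
  rcases mul_eq_zero.1 h1 with h | h
  · exact hP' (leadingCoeff_eq_zero.1 (eq_zero_of_pow_eq_zero h))
  · rw [Multiset.prod_eq_zero_iff, Multiset.mem_map] at h
    obtain ⟨α, hα, hα0⟩ := h
    exact hgood α hα hα0

/-- **Pair lemma.** -/
theorem pairG (x : ℂ) (hx : MeasT x) (D E : ℕ) (hD : 1 ≤ D) :
    ∃ κ : ℝ, 0 < κ ∧ ∀ T : ℝ, ∃ C : ℝ, 0 < C ∧ ∀ s : ℂ, ‖s‖ ≤ T → ∀ (P : ℤ[X]) (F : ℤ[X][X]),
      P ≠ 0 → P.natDegree ≤ D → F.natDegree ≤ D → (∀ j, (F.coeff j).natDegree ≤ E) →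
      (∀ α : ℂ, aeval α P = 0 → ∃ x₀ : ℂ, vl x₀ α F ≠ 0) →
      ∀ H : ℝ, 1 ≤ H → (∀ k, |((P.coeff k : ℤ) : ℝ)| ≤ H) →
        (∀ j k, |(((F.coeff j).coeff k : ℤ) : ℝ)| ≤ H) →
        C * H ^ (-κ) ≤ max ‖aeval s P‖ ‖vl x s F‖ := by
  obtain ⟨κ, hκ, h⟩ := core_res x hx D E hD
  refine ⟨κ, hκ, fun T => ?_⟩
  obtain ⟨C₁, hC₁, h⟩ := h (max 1 T) (le_max_left _ _)
  refine ⟨min C₁ 1, lt_min hC₁ one_pos, ?_⟩
  intro s hs P F hP hPD hFD hFE hF H hH1 hPH hFH
  have hH0 : 0 < H := by linarith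
  have hpos : 0 < H ^ (-κ) := by positivity
  by_cases hP0 : P.natDegree = 0
  · have h1 : P = C (P.coeff 0) := eq_C_of_natDegree_eq_zero hP0
    have h2 : P.coeff 0 ≠ 0 := fun h => hP (by rw [h1, h, C_0])
    have h3 : (1 : ℝ) ≤ ‖aeval s P‖ := by
      rw [h1, aeval_C, eq_intCast, Complex.norm_intCast, ← Int.cast_abs]
      exact_mod_cast Int.one_le_abs h2
    have h4 : H ^ (-κ) ≤ 1 := Real.rpow_le_one_of_one_le_of_nonpos hH1 (by linarith)
    calc min C₁ 1 * H ^ (-κ) ≤ 1 * 1 := by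
          gcongr
          exact min_le_right _ _
      _ ≤ ‖aeval s P‖ := by rw [one_mul]; exact h3
      _ ≤ _ := le_max_left _ _
  · have hdeg : (P.map (C : ℤ →+* ℤ[X])).natDegree = P.natDegree :=
      natDegree_map_eq_of_injective C_injective _
    have h1 := h s (hs.trans (le_max_right _ _)) (P.map C) F (by rw [hdeg]; exact hPD) hFD
      (fun j => by rw [coeff_map, natDegree_C]; omega) hFE (by rw [hdeg]; omega)
      (res_ne P hP F hF) H hH1 (fun j k => by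
        rw [coeff_map, coeff_C]
        split_ifs
        · exact hPH j
        · simp only [Int.cast_zero, abs_zero]; exact hH0.le) hFH
    rw [vl_map_C] at h1
    refine le_trans ?_ h1
    gcongr
    exact min_le_left _ _

end Pool.Agent.TH456.TM
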