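import Pool.Agent.TH456.TM.MatL

/-!
# Simultaneous transcendence measures

If `x` has a transcendence measure of polynomial type in every degree and is algebraic over
`ℤ[y₁, …, yₙ]` then the `yᵢ` are not simultaneously close to algebraic numbers of bounded degree.
-/

set_option autoImplicit false

namespace Pool.Agent.TH456.TM

open Polynomial Finset Matrix

/-! ## Roots close to a point -/

lemma pow_card_le (y : ℂ) (m : ℝ) (hm : 0 ≤ m) (s : Multiset ℂ) (hs : ∀ r ∈ s, m ≤ ‖y - r‖) :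
    m ^ Multiset.card s ≤ ‖(s.map fun r => y - r).prod‖ := by
  induction s using Multiset.induction_on with
  | empty => simp
  | cons a s ih =>
    rw [Multiset.card_cons, Multiset.map_cons, Multiset.prod_cons, norm_mul, pow_succ']
    have h1 := ih fun r hr => hs r (Multiset.mem_cons_of_mem hr)
    have h2 := hs a (Multiset.mem_cons_self _ _)
    have h3 : 0 ≤ m ^ Multiset.card s := by positivity
    nlinarith [norm_nonneg (y - a)]

lemma close_root (P : ℤ[X]) (n : ℕ) (hP : P.natDegree = n + 1) (y : ℂ) :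
    ∃ α : ℂ, aeval α P = 0 ∧ ‖y - α‖ ^ (n + 1) ≤ ‖aeval y P‖ := by
  classical
  have hinj : Function.Injective (Int.castRingHom ℂ) := Int.cast_injective
  have hP0 : P ≠ 0 := by
    rintro rfl
    simp at hP
  obtain ⟨p, hp⟩ : ∃ p : ℂ[X], p = P.map (Int.castRingHom ℂ) := ⟨_, rfl⟩
  have hp0 : p ≠ 0 := by rw [hp]; exact (Polynomial.map_ne_zero_iff hinj).2 hP0
  have hpd : p.natDegree = n + 1 := by rw [hp, natDegree_map_eq_of_injective hinj, hP]
  have hsp : p.Splits := IsAlgClosed.splits p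
  have hcard : Multiset.card p.roots = n + 1 := by
    rw [← hpd]
    exact (hsp.natDegree_eq_card_roots).symm
  have hne : p.roots.toFinset.Nonempty := by
    rw [Finset.nonempty_iff_ne_empty]
    intro h
    rw [Multiset.toFinset_eq_empty] at h
    rw [h] at hcard
    simp at hcard
  obtain ⟨α, hα, hmin⟩ := Finset.exists_min_image p.roots.toFinset (fun r => ‖y - r‖) hne
  rw [Multiset.mem_toFinset] at hα
  have hev : ∀ z : ℂ, aeval z P = p.eval z := by
    intro z
    rw [hp, eval_map, aeval_def]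
    rfl
  refine ⟨α, ?_, ?_⟩
  · rw [hev]
    exact (mem_roots hp0).1 hα
  · have h1 := pow_card_le y ‖y - α‖ (norm_nonneg _) p.roots fun r hr =>
      hmin r (Multiset.mem_toFinset.2 hr)
    rw [hcard] at h1
    have h2 : p.eval y = p.leadingCoeff * (p.roots.map fun r => y - r).prod := by
      conv_lhs => rw [hsp.eq_prod_roots]
      rw [eval_mul, eval_C, eval_multiset_prod, Multiset.map_map]
      simp
    have h3 : 1 ≤ ‖p.leadingCoeff‖ := by
      rw [hp, leadingCoeff_map_of_injective hinj, eq_intCast, Complex.norm_intCast, ← Int.cast_abs]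
      exact_mod_cast Int.one_le_abs (leadingCoeff_ne_zero.2 hP0)
    rw [hev, h2, norm_mul]
    nlinarith [norm_nonneg (p.roots.map fun r => y - r).prod]

/-! ## Reduction modulo a monic equation -/

lemma red (D : ℕ) (p : Fin (D + 1) → ℤ) (H : ℝ) (hH : 1 ≤ H) (hp : ∀ b, |(p b : ℝ)| ≤ H) (α : ℂ)
    (hα : α ^ (D + 1) = ∑ b, (p b : ℂ) * α ^ (b : ℕ)) (m : ℕ) :
    ∃ r : Fin (D + 1) → ℤ, (∀ b, |(r b : ℝ)| ≤ (2 * H) ^ m) ∧
      α ^ m = ∑ b, (r b : ℂ) * α ^ (b : ℕ) := by
  induction m with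
  | zero =>
    refine ⟨Fin.cases 1 fun _ => 0, ?_, ?_⟩
    · intro b
      refine Fin.cases ?_ (fun b => ?_) b
      · simp
      · simp
    · rw [Fin.sum_univ_succ]
      simp
  | succ m ih =>
    obtain ⟨r, hr, hr2⟩ := ih
    refine ⟨fun b => (Fin.cases 0 (fun b => r b.castSucc) b : ℤ) + r (Fin.last D) * p b, ?_, ?_⟩
    · intro b
      have h1 : |((Fin.cases 0 (fun b => r b.castSucc) b : ℤ) : ℝ)| ≤ (2 * H) ^ m := by
        refine Fin.cases ?_ (fun b => ?_) b
        · simp only [Fin.cases_zero, Int.cast_zero, abs_zero]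
          positivity
        · simp only [Fin.cases_succ]
          exact hr _
      have h2 : |((r (Fin.last D) * p b : ℤ) : ℝ)| ≤ (2 * H) ^ m * H := by
        push_cast
        rw [abs_mul]
        have := hr (Fin.last D)
        have := hp b
        gcongr
      push_cast at h2 ⊢
      refine (abs_add_le _ _).trans ?_
      have h3 : 0 ≤ (2 * H) ^ m := by positivity
      rw [pow_succ]
      nlinarith
    · have h1 : α ^ (m + 1) = ∑ b : Fin D, (r b.castSucc : ℂ) * α ^ ((b : ℕ) + 1) +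
          (r (Fin.last D) : ℂ) * α ^ (D + 1) := by
        rw [pow_succ, hr2, Finset.sum_mul, Fin.sum_univ_castSucc]
        congr 1
        · refine Finset.sum_congr rfl fun b _ => ?_
          rw [Fin.val_castSucc, pow_succ]
          ring
        · rw [Fin.val_last, pow_succ]
          ring
      rw [h1, hα]
      have h2 : ∀ b : Fin (D + 1), ((((Fin.cases 0 (fun b => r b.castSucc) b : ℤ) +
          r (Fin.last D) * p b : ℤ)) : ℂ) * α ^ (b : ℕ) =
          ((Fin.cases 0 (fun b => r b.castSucc) b : ℤ) : ℂ) * α ^ (b : ℕ) +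
          (r (Fin.last D) : ℂ) * ((p b : ℂ) * α ^ (b : ℕ)) := by
        intro b
        push_cast
        ring
      rw [Finset.sum_congr rfl fun b _ => h2 b, Finset.sum_add_distrib, ← Finset.mul_sum]
      congr 1
      rw [Fin.sum_univ_succ]
      simp

/-- the equation of `a α` -/
lemma red_poly (D : ℕ) (P : ℤ[X]) (hP : P.natDegree = D + 1) (H : ℝ) (hH : 1 ≤ H)
    (hPH : ∀ k, |((P.coeff k : ℤ) : ℝ)| ≤ H) (α : ℂ) (hα : aeval α P = 0) (m : ℕ) :
    ∃ r : Fin (D + 1) → ℤ, (∀ b, |(r b : ℝ)| ≤ (2 * H ^ (D + 1)) ^ m) ∧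
      ((P.leadingCoeff : ℂ) * α) ^ m = ∑ b, (r b : ℂ) * ((P.leadingCoeff : ℂ) * α) ^ (b : ℕ) := by
  refine red D (fun b => -(P.coeff b * P.leadingCoeff ^ (D - b))) (H ^ (D + 1))
    (one_le_pow₀ hH) ?_ _ ?_ m
  · intro b
    push_cast
    rw [abs_neg, abs_mul, abs_pow, pow_succ']
    have h1 : |(P.leadingCoeff : ℝ)| ≤ H := hPH _
    have h2 : |(P.leadingCoeff : ℝ)| ^ (D - b) ≤ H ^ D :=
      (pow_le_pow_left₀ (abs_nonneg _) h1 _).trans (pow_le_pow_right₀ hH (by omega))
    have := hPH b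
    gcongr
  · rw [aeval_eq_sum_range, hP, Finset.sum_range_succ] at hα
    have h1 : P.coeff (D + 1) = P.leadingCoeff := by rw [leadingCoeff, hP]
    rw [h1] at hα
    have h2 : (P.leadingCoeff : ℂ) ^ (D + 1) * α ^ (D + 1) =
        -∑ i ∈ range (D + 1), (P.leadingCoeff : ℂ) ^ D * (P.coeff i • α ^ i) := by
      rw [← Finset.mul_sum]
      rw [zsmul_eq_mul] at hα
      linear_combination ((P.leadingCoeff : ℂ) ^ D) * hα
    rw [mul_pow, h2, ← Finset.sum_neg_distrib, ← Fin.sum_univ_eq_sum_range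
      (fun i => -((P.leadingCoeff : ℂ) ^ D * (P.coeff i • α ^ i))) (D + 1)]
    refine Finset.sum_congr rfl fun b _ => ?_
    have h3 : (P.leadingCoeff : ℂ) ^ D =
        (P.leadingCoeff : ℂ) ^ (D - (b : ℕ)) * (P.leadingCoeff : ℂ) ^ (b : ℕ) := by
      rw [← pow_add]
      congr 1
      have := b.2
      omega
    push_cast
    rw [h3, mul_pow, zsmul_eq_mul]
    ring

/-! ## Lipschitz continuity -/

lemma mv_lip {ι : Type*} [Fintype ι] (q : MvPolynomial ι ℤ) (y : ι → ℂ) :
    ∃ L : ℝ, 0 ≤ L ∧ ∀ (α : ι → ℂ) (μ : ℝ), μ ≤ 1 → (∀ i, ‖y i - α i‖ ≤ μ) → 0 ≤ μ →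
      ‖MvPolynomial.aeval α q - MvPolynomial.aeval y q‖ ≤ L * μ := by
  induction q using MvPolynomial.induction_on with
  | C a =>
    refine ⟨0, le_rfl, fun α μ _ _ _ => ?_⟩
    simp
  | add p q hp hq =>
    obtain ⟨L₁, hL₁, h1⟩ := hp
    obtain ⟨L₂, hL₂, h2⟩ := hq
    refine ⟨L₁ + L₂, by positivity, fun α μ hμ hα hμ0 => ?_⟩
    rw [map_add, map_add, add_sub_add_comm, add_mul]
    exact (norm_add_le _ _).trans (add_le_add (h1 α μ hμ hα hμ0) (h2 α μ hμ hα hμ0))
  | mul_X p i hp =>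
    obtain ⟨L, hL, h1⟩ := hp
    refine ⟨L * (‖y i‖ + 1) + ‖MvPolynomial.aeval y p‖, by positivity, fun α μ hμ hα hμ0 => ?_⟩
    rw [map_mul, map_mul, MvPolynomial.aeval_X, MvPolynomial.aeval_X]
    have h2 : MvPolynomial.aeval α p * α i - MvPolynomial.aeval y p * y i =
        (MvPolynomial.aeval α p - MvPolynomial.aeval y p) * α i +
          MvPolynomial.aeval y p * (α i - y i) := by ring
    rw [h2]
    have h3 : ‖α i‖ ≤ ‖y i‖ + 1 := by
      calc ‖α i‖ = ‖y i - (y i - α i)‖ := by congr 1; ring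
        _ ≤ ‖y i‖ + ‖y i - α i‖ := norm_sub_le _ _
        _ ≤ ‖y i‖ + 1 := by linarith [hα i]
    have h4 : ‖α i - y i‖ ≤ μ := by rw [norm_sub_rev]; exact hα i
    have h5 := h1 α μ hμ hα hμ0
    calc ‖(MvPolynomial.aeval α p - MvPolynomial.aeval y p) * α i +
          MvPolynomial.aeval y p * (α i - y i)‖
        ≤ ‖MvPolynomial.aeval α p - MvPolynomial.aeval y p‖ * ‖α i‖ +
          ‖MvPolynomial.aeval y p‖ * ‖α i - y i‖ := by
          refine (norm_add_le _ _).trans ?_
          rw [norm_mul, norm_mul]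
      _ ≤ (L * μ) * (‖y i‖ + 1) + ‖MvPolynomial.aeval y p‖ * μ := by gcongr
      _ = _ := by ring

end Pool.Agent.TH456.TM
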