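import Pool.Agent.TH456.TM.Simul

/-!
# Simultaneous transcendence measures: the main theorem
-/

set_option autoImplicit false

namespace Pool.Agent.TH456.TM

open Polynomial Finset Matrix

/-- the value `A(x; α)` of `A ∈ ℤ[y₁, …, yₙ][X]`, as a polynomial in `X` -/
noncomputable def at' {ι : Type*} (α : ι → ℂ) (A : (MvPolynomial ι ℤ)[X]) : ℂ[X] :=
  A.map (MvPolynomial.aeval α).toRingHom

lemma at'_coeff {ι : Type*} (α : ι → ℂ) (A : (MvPolynomial ι ℤ)[X]) (k : ℕ) :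
    (at' α A).coeff k = MvPolynomial.aeval α (A.coeff k) := by
  unfold at'
  rw [coeff_map]
  rfl

/-- near `y` the polynomial `A(X; α)` does not vanish, and `A(x; α)` is small -/
lemma at'_near {ι : Type*} [Fintype ι] (x : ℂ) (y : ι → ℂ) (A : (MvPolynomial ι ℤ)[X])
    (hA : at' y A ≠ 0) (hAx : (at' y A).eval x = 0) :
    ∃ δ L : ℝ, 0 < δ ∧ δ ≤ 1 ∧ 0 < L ∧ ∀ (α : ι → ℂ) (μ : ℝ), 0 ≤ μ → μ ≤ δ →
      (∀ i, ‖y i - α i‖ ≤ μ) → at' α A ≠ 0 ∧ ‖(at' α A).eval x‖ ≤ L * μ := by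
  have hl := fun k => mv_lip (A.coeff k) y
  choose L hL0 hL using hl
  obtain ⟨k₀, hk₀⟩ : ∃ k, (at' y A).coeff k ≠ 0 := by
    by_contra hcon
    push Not at hcon
    exact hA (Polynomial.ext fun k => by rw [hcon, coeff_zero])
  rw [at'_coeff] at hk₀
  have hn0 : 0 < ‖MvPolynomial.aeval y (A.coeff k₀)‖ := norm_pos_iff.2 hk₀
  obtain ⟨δ, hδ⟩ : ∃ δ : ℝ, δ = min 1 (‖MvPolynomial.aeval y (A.coeff k₀)‖ / (2 * (L k₀ + 1))) :=
    ⟨_, rfl⟩
  have hLk := hL0 k₀
  have hδ0 : 0 < δ := by rw [hδ]; positivity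
  refine ⟨δ, ∑ k ∈ range (A.natDegree + 1), L k * ‖x‖ ^ k + 1, hδ0, by rw [hδ]; exact min_le_left _ _,
    ?_, ?_⟩
  · have : 0 ≤ ∑ k ∈ range (A.natDegree + 1), L k * ‖x‖ ^ k :=
      Finset.sum_nonneg fun k _ => mul_nonneg (hL0 k) (by positivity)
    linarith
  · intro α μ hμ0 hμ hα
    have hμ1 : μ ≤ 1 := hμ.trans (by rw [hδ]; exact min_le_left _ _)
    constructor
    · intro h0
      have h1 := hL k₀ α μ hμ1 hα hμ0
      have h2 : MvPolynomial.aeval α (A.coeff k₀) = 0 := by rw [← at'_coeff, h0, coeff_zero]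
      rw [h2, zero_sub, norm_neg] at h1
      have h3 : μ ≤ ‖MvPolynomial.aeval y (A.coeff k₀)‖ / (2 * (L k₀ + 1)) :=
        hμ.trans (by rw [hδ]; exact min_le_right _ _)
      rw [le_div_iff₀ (by positivity)] at h3
      nlinarith
    · have hdeg : ∀ β : ι → ℂ, (at' β A).eval x =
          ∑ k ∈ range (A.natDegree + 1), MvPolynomial.aeval β (A.coeff k) * x ^ k := by
        intro β
        rw [eval_eq_sum_range' (show (at' β A).natDegree < A.natDegree + 1 from
          lt_of_le_of_lt natDegree_map_le (by omega))]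
        refine Finset.sum_congr rfl fun k _ => ?_
        rw [at'_coeff]
      have h1 : (at' α A).eval x = ∑ k ∈ range (A.natDegree + 1),
          (MvPolynomial.aeval α (A.coeff k) - MvPolynomial.aeval y (A.coeff k)) * x ^ k := by
        have h2 := hdeg y
        rw [hAx] at h2
        calc (at' α A).eval x = (at' α A).eval x - 0 := by ring
          _ = _ := by
            rw [h2, hdeg α, ← Finset.sum_sub_distrib]
            refine Finset.sum_congr rfl fun k _ => ?_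
            ring
      rw [h1]
      calc ‖∑ k ∈ range (A.natDegree + 1),
            (MvPolynomial.aeval α (A.coeff k) - MvPolynomial.aeval y (A.coeff k)) * x ^ k‖
          ≤ ∑ k ∈ range (A.natDegree + 1),
            ‖(MvPolynomial.aeval α (A.coeff k) - MvPolynomial.aeval y (A.coeff k)) * x ^ k‖ :=
            norm_sum_le _ _
        _ ≤ ∑ k ∈ range (A.natDegree + 1), (L k * μ) * ‖x‖ ^ k := by
            refine Finset.sum_le_sum fun k _ => ?_
            rw [norm_mul, norm_pow]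
            have := hL k α μ hμ1 hα hμ0
            gcongr
        _ = (∑ k ∈ range (A.natDegree + 1), L k * ‖x‖ ^ k) * μ := by
            rw [Finset.sum_mul]
            refine Finset.sum_congr rfl fun k _ => ?_
            ring
        _ ≤ _ := by
            gcongr
            linarith

/-- **Simultaneous transcendence measure.** -/
theorem simul {ι : Type*} [Fintype ι] [DecidableEq ι] (x : ℂ) (hx : MeasT x) (y : ι → ℂ)
    (A : (MvPolynomial ι ℤ)[X]) (hA : at' y A ≠ 0) (hAx : (at' y A).eval x = 0) (D : ℕ) :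
    ∃ κ c : ℝ, 0 < κ ∧ 0 < c ∧ ∀ P : ι → ℤ[X], (∀ i, P i ≠ 0) → (∀ i, (P i).natDegree ≤ D) →
      ∀ H : ℝ, 1 ≤ H → (∀ i, (ht (P i) : ℝ) ≤ H) → ∃ i, c * H ^ (-κ) ≤ ‖aeval (y i) (P i)‖ := by
  obtain ⟨δ, L, hδ0, hδ1, hL0, hnear⟩ := at'_near x y A hA hAx
  obtain ⟨E, hE⟩ : ∃ E, E = A.natDegree := ⟨_, rfl⟩
  obtain ⟨d, hd⟩ : ∃ d : ℕ, d = ∑ k ∈ range (E + 1), ∑ e ∈ (A.coeff k).support, ∑ i, e i := ⟨_, rfl⟩
  have hdle : ∀ k, ∀ e ∈ (A.coeff k).support, ∀ i, e i ≤ d := by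
    intro k e he i
    have hk : k ∈ range (E + 1) := by
      rw [mem_range]
      by_contra hcon
      rw [coeff_eq_zero_of_natDegree_lt (by omega), MvPolynomial.support_zero] at he
      simp at he
    calc e i ≤ ∑ i, e i := Finset.single_le_sum (f := fun i => e i) (fun _ _ => Nat.zero_le _)
          (Finset.mem_univ i)
      _ ≤ ∑ e ∈ (A.coeff k).support, ∑ i, e i :=
          Finset.single_le_sum (f := fun e : ι →₀ ℕ => ∑ i, e i) (fun _ _ => Nat.zero_le _) he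
      _ ≤ d := by
          rw [hd]
          exact Finset.single_le_sum (f := fun k => ∑ e ∈ (A.coeff k).support, ∑ i, e i)
            (fun _ _ => Nat.zero_le _) hk
  obtain ⟨κ₀, c₀, hκ₀, hc₀, hmat⟩ := mat_core x hx (ι → Fin (D + 1)) E
  obtain ⟨n, hn⟩ : ∃ n, n = Fintype.card ι := ⟨_, rfl⟩
  -- size of the coefficients
  obtain ⟨K, hK⟩ : ∃ K : ℝ, K = 1 + ∑ k ∈ range (E + 1), ∑ e ∈ (A.coeff k).support,
      |(((A.coeff k).coeff e : ℤ) : ℝ)| := ⟨_, rfl⟩
  have hK1 : 1 ≤ K := by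
    rw [hK]
    have : 0 ≤ ∑ k ∈ range (E + 1), ∑ e ∈ (A.coeff k).support, |(((A.coeff k).coeff e : ℤ) : ℝ)| :=
      Finset.sum_nonneg fun k _ => Finset.sum_nonneg fun e _ => abs_nonneg _
    linarith
  have hKk : ∀ k, ∑ e ∈ (A.coeff k).support, |(((A.coeff k).coeff e : ℤ) : ℝ)| ≤ K := by
    intro k
    by_cases hk : k ∈ range (E + 1)
    · have h1 := Finset.single_le_sum
        (f := fun k => ∑ e ∈ (A.coeff k).support, |(((A.coeff k).coeff e : ℤ) : ℝ)|)
        (fun k _ => Finset.sum_nonneg fun e _ => abs_nonneg _) hk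
      rw [hK]
      linarith
    · rw [mem_range] at hk
      rw [coeff_eq_zero_of_natDegree_lt (by omega), MvPolynomial.support_zero, Finset.sum_empty]
      linarith
  obtain ⟨m, hm⟩ : ∃ m : ℕ, m = (d + (D + 1) * (D + d)) * n := ⟨_, rfl⟩
  obtain ⟨K', hK'⟩ : ∃ K' : ℝ, K' = K * ((2 : ℝ) ^ (D + d)) ^ n := ⟨_, rfl⟩
  have hK'1 : 1 ≤ K' := by
    rw [hK']
    have : (1 : ℝ) ≤ ((2 : ℝ) ^ (D + d)) ^ n := one_le_pow₀ (one_le_pow₀ (by norm_num))
    nlinarith
  obtain ⟨κ₁, hκ₁⟩ : ∃ κ₁ : ℝ, κ₁ = n * d + m * κ₀ := ⟨_, rfl⟩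
  have hκ₁0 : 0 ≤ κ₁ := by rw [hκ₁]; positivity
  obtain ⟨c₂, hc₂⟩ : ∃ c₂ : ℝ, c₂ = min δ (c₀ * K' ^ (-κ₀) / (2 * L)) := ⟨_, rfl⟩
  have hc₂0 : 0 < c₂ := by rw [hc₂]; positivity
  have hc₂δ : c₂ ≤ δ := by rw [hc₂]; exact min_le_left _ _
  have hc₂L : L * c₂ < c₀ * K' ^ (-κ₀) := by
    have h1 : c₂ ≤ c₀ * K' ^ (-κ₀) / (2 * L) := by rw [hc₂]; exact min_le_right _ _
    rw [le_div_iff₀ (by positivity)] at h1
    have h2 : 0 < c₀ * K' ^ (-κ₀) := by positivity
    nlinarith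
  obtain ⟨B, hB, hBle⟩ := exists_le_ge (Finset.univ : Finset ι) fun i => max 1 ‖y i‖
  refine ⟨(D + 1) * (κ₁ + 1), (c₂ / B) ^ (D + 1), by positivity, by positivity, ?_⟩
  intro P hP hPD H hH hPH
  by_contra hcon
  push Not at hcon
  have hH0 : 0 < H := by linarith
  -- polynomials of degree `D + 1`
  have hpad : ∀ i, ∃ Q : ℤ[X], Q.natDegree = D + 1 ∧ (∀ k, |((Q.coeff k : ℤ) : ℝ)| ≤ H) ∧
      ‖aeval (y i) Q‖ ≤ B ^ (D + 1) * ‖aeval (y i) (P i)‖ := by
    intro i
    have hBi : max 1 ‖y i‖ ≤ B := hBle i (Finset.mem_univ i)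
    refine ⟨X ^ (D + 1 - (P i).natDegree) * P i, ?_, ?_, ?_⟩
    · rw [natDegree_mul (pow_ne_zero _ X_ne_zero) (hP i), natDegree_X_pow]
      have := hPD i
      omega
    · intro k
      rw [coeff_X_pow_mul']
      split_ifs
      · exact (le_ht _ _).trans (hPH i)
      · simp only [Int.cast_zero, abs_zero]; exact hH0.le
    · rw [map_mul, map_pow, aeval_X, norm_mul, norm_pow]
      have h1 : ‖y i‖ ^ (D + 1 - (P i).natDegree) ≤ B ^ (D + 1) := by
        calc ‖y i‖ ^ (D + 1 - (P i).natDegree) ≤ (max 1 ‖y i‖) ^ (D + 1 - (P i).natDegree) :=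
              pow_le_pow_left₀ (norm_nonneg _) (le_max_right _ _) _
          _ ≤ (max 1 ‖y i‖) ^ (D + 1) := pow_le_pow_right₀ (le_max_left _ _) (by omega)
          _ ≤ B ^ (D + 1) := pow_le_pow_left₀ (by positivity) hBi _
      gcongr
  choose Q hQD hQH hQy using hpad
  have hroot := fun i => close_root (Q i) D (hQD i) (y i)
  choose α hα hαy using hroot
  -- the roots are close
  obtain ⟨μ, hμ⟩ : ∃ μ : ℝ, μ = c₂ * H ^ (-(κ₁ + 1)) := ⟨_, rfl⟩
  have hHκ1 : H ^ (-(κ₁ + 1)) ≤ 1 := Real.rpow_le_one_of_one_le_of_nonpos hH (by linarith)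
  have hμ0 : 0 < μ := by rw [hμ]; positivity
  have hμδ : μ ≤ δ := by
    rw [hμ]
    calc c₂ * H ^ (-(κ₁ + 1)) ≤ δ * 1 := by gcongr
      _ = δ := mul_one _
  have hαμ : ∀ i, ‖y i - α i‖ ≤ μ := by
    intro i
    have h1 : ‖y i - α i‖ ^ (D + 1) < μ ^ (D + 1) := by
      calc ‖y i - α i‖ ^ (D + 1) ≤ ‖aeval (y i) (Q i)‖ := hαy i
        _ ≤ B ^ (D + 1) * ‖aeval (y i) (P i)‖ := hQy i
        _ < B ^ (D + 1) * ((c₂ / B) ^ (D + 1) * H ^ (-(((D : ℝ) + 1) * (κ₁ + 1)))) := by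
            have := hcon i
            gcongr
        _ = μ ^ (D + 1) := by
            rw [hμ, mul_pow, div_pow, ← Real.rpow_natCast (H ^ (-(κ₁ + 1))) (D + 1),
              ← Real.rpow_mul hH0.le]
            have h2 : B ^ (D + 1) ≠ 0 := by positivity
            push_cast
            field_simp
    exact (lt_of_pow_lt_pow_left₀ _ hμ0.le h1).le
  obtain ⟨hAα, hAαx⟩ := hnear α μ hμ0.le hμδ hαμ
  -- the integral equations
  have hred := fun i m' => red_poly D (Q i) (hQD i) H hH (hQH i) (α i) (hα i) m'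
  choose r hr hr2 using hred
  obtain ⟨a, ha⟩ : ∃ a : ι → ℤ, a = fun i => (Q i).leadingCoeff := ⟨_, rfl⟩
  have ha0 : ∀ i, a i ≠ 0 := by
    intro i
    rw [ha]
    refine leadingCoeff_ne_zero.2 ?_
    rintro h
    have := hQD i
    rw [h] at this
    simp at this
  have haH : ∀ i, |(a i : ℝ)| ≤ H := by
    intro i
    rw [ha]
    exact hQH i _
  have hr2' : ∀ i m', ((a i : ℂ) * α i) ^ m' = ∑ b, (r i m' b : ℂ) * ((a i : ℂ) * α i) ^ (b : ℕ) := by
    intro i m'
    rw [ha]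
    exact hr2 i m'
  -- the matrix
  obtain ⟨ent, hent⟩ : ∃ ent : ℕ → (ι → Fin (D + 1)) → (ι → Fin (D + 1)) → ℤ, ent = fun k u v =>
      ∑ e ∈ (A.coeff k).support, (A.coeff k).coeff e *
        ∏ i, (a i ^ (d - e i) * r i ((u i : ℕ) + e i) (v i)) := ⟨_, rfl⟩
  obtain ⟨M, hM⟩ : ∃ M : Matrix (ι → Fin (D + 1)) (ι → Fin (D + 1)) ℤ[X], M = fun u v =>
      ∑ k ∈ range (E + 1), monomial k (ent k u v) := ⟨_, rfl⟩
  have hMc : ∀ u v k, (M u v).coeff k = if k ∈ range (E + 1) then ent k u v else 0 := by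
    intro u v k
    rw [hM]
    show (∑ k ∈ range (E + 1), monomial k (ent k u v)).coeff k = _
    rw [finsetSum_coeff]
    simp only [coeff_monomial]
    rw [Finset.sum_ite_eq' (range (E + 1)) k (fun k => ent k u v)]
  have hentle : ∀ k u v, |(ent k u v : ℝ)| ≤ K' * H ^ m := by
    intro k u v
    rw [hent]
    push_cast
    calc |∑ e ∈ (A.coeff k).support, (((A.coeff k).coeff e : ℤ) : ℝ) *
          ∏ i, ((a i : ℝ) ^ (d - e i) * (r i ((u i : ℕ) + e i) (v i) : ℝ))|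
        ≤ ∑ e ∈ (A.coeff k).support, |(((A.coeff k).coeff e : ℤ) : ℝ) *
          ∏ i, ((a i : ℝ) ^ (d - e i) * (r i ((u i : ℕ) + e i) (v i) : ℝ))| :=
          Finset.abs_sum_le_sum_abs _ _
      _ ≤ ∑ e ∈ (A.coeff k).support, |(((A.coeff k).coeff e : ℤ) : ℝ)| *
          (((2 : ℝ) ^ (D + d)) ^ n * H ^ m) := by
          refine Finset.sum_le_sum fun e he => ?_
          rw [abs_mul, Finset.abs_prod]
          have h1 : ∏ i, |(a i : ℝ) ^ (d - e i) * (r i ((u i : ℕ) + e i) (v i) : ℝ)| ≤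
              ∏ _i : ι, (H ^ d * (2 * H ^ (D + 1)) ^ (D + d)) := by
            refine Finset.prod_le_prod (fun i _ => abs_nonneg _) fun i _ => ?_
            rw [abs_mul, abs_pow]
            have h2 : |(a i : ℝ)| ^ (d - e i) ≤ H ^ d :=
              (pow_le_pow_left₀ (abs_nonneg _) (haH i) _).trans
                (pow_le_pow_right₀ hH (by omega))
            have h3 : |(r i ((u i : ℕ) + e i) (v i) : ℝ)| ≤ (2 * H ^ (D + 1)) ^ (D + d) := by
              refine (hr i _ _).trans (pow_le_pow_right₀ ?_ ?_)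
              · have : 1 ≤ H ^ (D + 1) := one_le_pow₀ hH
                linarith
              · have h4 := hdle k e he i
                have h5 := (u i).2
                omega
            gcongr
          have h3 : H ^ d * (2 * H ^ (D + 1)) ^ (D + d) =
              2 ^ (D + d) * H ^ (d + (D + 1) * (D + d)) := by
            rw [mul_pow, ← pow_mul, pow_add]
            ring
          have h2 : ∏ _i : ι, (H ^ d * (2 * H ^ (D + 1)) ^ (D + d)) =
              ((2 : ℝ) ^ (D + d)) ^ n * H ^ m := by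
            rw [Finset.prod_const, Finset.card_univ, ← hn, h3, mul_pow, ← pow_mul H, hm]
          rw [← h2]
          gcongr
      _ = (∑ e ∈ (A.coeff k).support, |(((A.coeff k).coeff e : ℤ) : ℝ)|) *
          (((2 : ℝ) ^ (D + d)) ^ n * H ^ m) := by rw [Finset.sum_mul]
      _ ≤ K * (((2 : ℝ) ^ (D + d)) ^ n * H ^ m) := by
          have := hKk k
          gcongr
      _ = K' * H ^ m := by rw [hK']; ring
  have hHM1 : 1 ≤ K' * H ^ m := by
    have : 1 ≤ H ^ m := one_le_pow₀ hH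
    nlinarith
  -- the eigenvector and the eigenvalue
  obtain ⟨w, hw⟩ : ∃ w : (ι → Fin (D + 1)) → ℂ, w = fun u => ∏ i, ((a i : ℂ) * α i) ^ (u i : ℕ) :=
    ⟨_, rfl⟩
  obtain ⟨lam, hlam⟩ : ∃ lam : ℂ, lam = ∏ i, (a i : ℂ) ^ d := ⟨_, rfl⟩
  have hlam0 : lam ≠ 0 := by
    rw [hlam]
    refine Finset.prod_ne_zero_iff.2 fun i _ => pow_ne_zero _ ?_
    exact_mod_cast ha0 i
  have hw0 : w ≠ 0 := by
    intro h
    have h1 := congrFun h (fun _ => 0)
    rw [hw] at h1
    simp at h1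
  have hcoefeq : ∀ k u, ∑ v, (ent k u v : ℂ) * w v =
      lam * MvPolynomial.aeval α (A.coeff k) * w u := by
    intro k u
    have h1 : ∀ e ∈ (A.coeff k).support, ∑ v : ι → Fin (D + 1),
        (∏ i, ((a i : ℂ) ^ (d - e i) * (r i ((u i : ℕ) + e i) (v i) : ℂ))) * w v =
        lam * (∏ i, α i ^ e i) * w u := by
      intro e he
      have h2 : ∀ v : ι → Fin (D + 1),
          (∏ i, ((a i : ℂ) ^ (d - e i) * (r i ((u i : ℕ) + e i) (v i) : ℂ))) * w v =
          ∏ i, ((a i : ℂ) ^ (d - e i) * ((r i ((u i : ℕ) + e i) (v i) : ℂ) *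
            ((a i : ℂ) * α i) ^ (v i : ℕ))) := by
        intro v
        rw [hw, ← Finset.prod_mul_distrib]
        refine Finset.prod_congr rfl fun i _ => ?_
        ring
      rw [Finset.sum_congr rfl fun v _ => h2 v,
        ← Fintype.prod_sum (fun i (j : Fin (D + 1)) => (a i : ℂ) ^ (d - e i) *
          ((r i ((u i : ℕ) + e i) j : ℂ) * ((a i : ℂ) * α i) ^ (j : ℕ)))]
      rw [hlam, hw, ← Finset.prod_mul_distrib, ← Finset.prod_mul_distrib]
      refine Finset.prod_congr rfl fun i _ => ?_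
      rw [← Finset.mul_sum, ← hr2']
      have h3 : (a i : ℂ) ^ d = (a i : ℂ) ^ (d - e i) * (a i : ℂ) ^ (e i) := by
        rw [← pow_add]
        congr 1
        have := hdle k e he i
        omega
      rw [h3, pow_add, mul_pow, mul_pow]
      ring
    have h4 : MvPolynomial.aeval α (A.coeff k) =
        ∑ e ∈ (A.coeff k).support, (((A.coeff k).coeff e : ℤ) : ℂ) * ∏ i, α i ^ e i := by
      rw [MvPolynomial.aeval_def, MvPolynomial.eval₂_eq']
      rfl
    rw [h4, hent]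
    push_cast
    calc ∑ v : ι → Fin (D + 1), (∑ e ∈ (A.coeff k).support, (((A.coeff k).coeff e : ℤ) : ℂ) *
          ∏ i, ((a i : ℂ) ^ (d - e i) * (r i ((u i : ℕ) + e i) (v i) : ℂ))) * w v
        = ∑ e ∈ (A.coeff k).support, (((A.coeff k).coeff e : ℤ) : ℂ) *
          ∑ v : ι → Fin (D + 1),
          (∏ i, ((a i : ℂ) ^ (d - e i) * (r i ((u i : ℕ) + e i) (v i) : ℂ))) * w v := by
          simp only [Finset.sum_mul, Finset.mul_sum]
          rw [Finset.sum_comm]
          refine Finset.sum_congr rfl fun e _ => Finset.sum_congr rfl fun v _ => ?_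
          ring
      _ = ∑ e ∈ (A.coeff k).support, (((A.coeff k).coeff e : ℤ) : ℂ) *
          (lam * (∏ i, α i ^ e i) * w u) :=
          Finset.sum_congr rfl fun e he => by rw [h1 e he]
      _ = _ := by
          rw [Finset.mul_sum, Finset.sum_mul]
          refine Finset.sum_congr rfl fun e _ => ?_
          ring
  have hMw : ∀ u, ∑ v, (M u v).map (Int.castRingHom ℂ) * C (w v) =
      (C lam * at' α A) * C (w u) := by
    intro u
    ext k
    rw [finsetSum_coeff, coeff_mul_C, coeff_C_mul, at'_coeff, ← hcoefeq]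
    refine Finset.sum_congr rfl fun v _ => ?_
    rw [coeff_mul_C, coeff_map, hMc, eq_intCast]
    split_ifs with hk
    · rfl
    · rw [mem_range] at hk
      have h0 : A.coeff k = 0 := coeff_eq_zero_of_natDegree_lt (by omega)
      have : ent k u v = 0 := by
        rw [hent]
        simp [h0]
      rw [this]
  have hfin := hmat M (K' * H ^ m) hHM1
    (fun u v => by
      rw [natDegree_le_iff_coeff_eq_zero]
      intro k hk
      rw [hMc, if_neg]
      rw [mem_range]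
      omega)
    (fun u v k => by
      rw [hMc]
      split_ifs
      · exact hentle k u v
      · simp only [Int.cast_zero, abs_zero]; linarith)
    (C lam * at' α A) w (mul_ne_zero (C_ne_zero.2 hlam0) hAα) hw0 hMw
  rw [eval_mul, eval_C, norm_mul] at hfin
  have hlamn : ‖lam‖ ≤ H ^ (n * d) := by
    rw [hlam, norm_prod]
    calc ∏ i, ‖(a i : ℂ) ^ d‖ ≤ ∏ _i : ι, H ^ d := by
          refine Finset.prod_le_prod (fun i _ => norm_nonneg _) fun i _ => ?_
          rw [norm_pow, Complex.norm_intCast]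
          exact pow_le_pow_left₀ (abs_nonneg _) (haH i) _
      _ = H ^ (n * d) := by
          rw [Finset.prod_const, Finset.card_univ, ← hn, ← pow_mul, mul_comm]
  have h10 : c₀ * (K' ^ (-κ₀) * H ^ (-((m : ℝ) * κ₀))) ≤ H ^ ((n : ℝ) * d) * (L * μ) := by
    calc c₀ * (K' ^ (-κ₀) * H ^ (-((m : ℝ) * κ₀))) = c₀ * (K' * H ^ m) ^ (-κ₀) := by
          rw [Real.mul_rpow (by linarith) (by positivity), ← Real.rpow_natCast H m,
            ← Real.rpow_mul hH0.le]
          congr 3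
          ring
      _ ≤ ‖lam‖ * ‖(at' α A).eval x‖ := hfin
      _ ≤ H ^ (n * d) * (L * μ) := by gcongr
      _ = H ^ ((n : ℝ) * d) * (L * μ) := by
          rw [← Real.rpow_natCast H (n * d)]
          push_cast
          rfl
  have h11 : H ^ ((n : ℝ) * d) * (L * μ) ≤ (L * c₂) * H ^ (-((m : ℝ) * κ₀)) := by
    rw [hμ, hκ₁]
    calc H ^ ((n : ℝ) * d) * (L * (c₂ * H ^ (-((n : ℝ) * d + m * κ₀ + 1))))
        = (L * c₂) * (H ^ ((n : ℝ) * d) * H ^ (-((n : ℝ) * d + m * κ₀ + 1))) := by ring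
      _ = (L * c₂) * H ^ (-((m : ℝ) * κ₀) - 1) := by
          rw [← Real.rpow_add hH0]
          congr 2
          ring
      _ ≤ (L * c₂) * H ^ (-((m : ℝ) * κ₀)) := by
          have : H ^ (-((m : ℝ) * κ₀) - 1) ≤ H ^ (-((m : ℝ) * κ₀)) :=
            Real.rpow_le_rpow_of_exponent_le hH (by linarith)
          gcongr
  have h12 : c₀ * K' ^ (-κ₀) * H ^ (-((m : ℝ) * κ₀)) ≤ (L * c₂) * H ^ (-((m : ℝ) * κ₀)) := by
    calc c₀ * K' ^ (-κ₀) * H ^ (-((m : ℝ) * κ₀)) = c₀ * (K' ^ (-κ₀) * H ^ (-((m : ℝ) * κ₀))) := by ring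
      _ ≤ _ := h10.trans h11
  have h13 := le_of_mul_le_mul_right h12 (by positivity)
  linarith

end Pool.Agent.TH456.TM
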