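import Pool.Agent.TH456.TM.Gen

/-!
# Numbers generating `π`
-/

set_option autoImplicit false

namespace Pool.Agent.TH456.TM

open Polynomial Finset

/-- `ζ(2k)` is a nonzero rational multiple of `π^(2k)` -/
lemma zeta_even (k : ℕ) (hk : k ≠ 0) : ∃ q : ℚ, q ≠ 0 ∧
    riemannZeta (2 * k) = (q : ℂ) * (Real.pi : ℂ) ^ (2 * k) := by
  have h1 := riemannZeta_two_mul_nat hk
  refine ⟨(-1) ^ (k + 1) * 2 ^ (2 * k - 1) * _root_.bernoulli (2 * k) / (2 * k).factorial, ?_, ?_⟩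
  · intro h
    have h2 : riemannZeta (2 * k) ≠ 0 := by
      refine riemannZeta_ne_zero_of_one_lt_re ?_
      have h3 : (1 : ℝ) ≤ k := by exact_mod_cast Nat.one_le_iff_ne_zero.2 hk
      simp
      linarith
    apply h2
    rw [h1]
    have h3 : (((-1) ^ (k + 1) * 2 ^ (2 * k - 1) * _root_.bernoulli (2 * k) / (2 * k).factorial : ℚ) : ℂ) = 0 := by
      rw [h]; simp
    push_cast at h3
    calc (-1 : ℂ) ^ (k + 1) * 2 ^ (2 * k - 1) * (Real.pi : ℂ) ^ (2 * k) * (_root_.bernoulli (2 * k) : ℂ) /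
          ((2 * k).factorial : ℂ) = ((-1 : ℂ) ^ (k + 1) * 2 ^ (2 * k - 1) * (_root_.bernoulli (2 * k) : ℂ) /
          ((2 * k).factorial : ℂ)) * (Real.pi : ℂ) ^ (2 * k) := by ring
      _ = 0 := by rw [h3, zero_mul]
  · rw [h1]
    push_cast
    ring

lemma isAlgebraic_rat' (B : Subalgebra ℤ ℂ) (q : ℚ) : IsAlgebraic B (q : ℂ) := by
  have h1 : IsAlgebraic ℤ (q : ℂ) := by
    have h2 : IsAlgebraic ℤ ((q.num : ℂ) / (q.den : ℂ)) := by
      rw [div_eq_mul_inv]
      have h3 : IsAlgebraic ℤ ((q.num : ℤ) : ℂ) := isAlgebraic_intCast _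
      have h4 : IsAlgebraic ℤ ((q.den : ℕ) : ℂ) := by
        have := isAlgebraic_intCast (R := ℤ) (A := ℂ) (q.den : ℤ)
        simpa using this
      exact h3.mul h4.inv
    rwa [Rat.cast_def q]
  exact h1.extendScalars (FaithfulSMul.algebraMap_injective ℤ B)

/-- if a nonzero integral power of `π` is algebraic then so is `π` -/
lemma pi_of_zpow (B : Subalgebra ℤ ℂ) (m : ℤ) (hm : m ≠ 0)
    (h : IsAlgebraic B ((Real.pi : ℂ) ^ m)) : IsAlgebraic B (Real.pi : ℂ) := by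
  obtain ⟨n, rfl | rfl⟩ := m.eq_nat_or_neg
  · rw [zpow_natCast] at h
    exact IsAlgebraic.of_pow (Nat.pos_of_ne_zero (by simpa using hm)) h
  · rw [zpow_neg, zpow_natCast] at h
    have h2 := h.inv
    rw [inv_inv] at h2
    exact IsAlgebraic.of_pow (Nat.pos_of_ne_zero (by simpa using hm)) h2

end Pool.Agent.TH456.TM
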